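import Mathlib
import Pool.Graph.R_seed8.GR.Flow

/-!
# Flows of vector fields which are constant off a compact set, with parameters
-/

set_option autoImplicit false

open scoped ContDiff
open Set Filter Topology
open Pool.Agent.GR.Flow

namespace Pool.Agent.H822.Par

/-- a smooth map on a finite dimensional space whose derivative vanishes off a compact set is
Lipschitz -/
theorem exists_lipschitz {W F : Type} [NormedAddCommGroup W] [NormedSpace ℝ W]
    [NormedAddCommGroup F] [NormedSpace ℝ F]
    (X : W → F) (hX : ContDiff ℝ ∞ X) (K : Set W) (hK : IsCompact K)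
    (h : ∀ w, w ∉ K → fderiv ℝ X w = 0) : ∃ C : NNReal, LipschitzWith C X := by
  have hc : Continuous (fderiv ℝ X) := hX.continuous_fderiv (by simp)
  obtain ⟨C, hC⟩ := (hK.image hc).isBounded.exists_norm_le
  refine ⟨Real.toNNReal C, lipschitzWith_of_nnnorm_fderiv_le
    (hX.differentiable (by simp)) fun w => ?_⟩
  rw [← NNReal.coe_le_coe]
  simp only [coe_nnnorm]
  by_cases hw : w ∈ K
  · exact (hC _ ⟨w, hw, rfl⟩).trans (Real.le_coe_toNNReal _)
  · rw [h w hw, norm_zero]
    exact NNReal.coe_nonneg _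

theorem fderiv_off {W F : Type} [NormedAddCommGroup W] [NormedSpace ℝ W]
    [NormedAddCommGroup F] [NormedSpace ℝ F]
    (X : W → F) (K : Set W) (hK : IsClosed K) (e : F)
    (h : ∀ w, w ∉ K → X w = e) : ∀ w, w ∉ K → fderiv ℝ X w = 0 := by
  intro w hw
  have h1 : X =ᶠ[𝓝 w] fun _ => e := by
    filter_upwards [hK.isOpen_compl.mem_nhds hw] with y hy using h y hy
  rw [h1.fderiv_eq]
  simp

/-- a vector field which is constant off a compact set is bounded -/
theorem exists_bound {W F : Type} [NormedAddCommGroup W] [NormedSpace ℝ W]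
    [NormedAddCommGroup F] [NormedSpace ℝ F]
    (X : W → F) (hX : Continuous X) (K : Set W) (hK : IsCompact K) (e : F)
    (h : ∀ w, w ∉ K → X w = e) : ∃ M : NNReal, ∀ w, ‖X w‖ ≤ M := by
  obtain ⟨C, hC⟩ := (hK.image hX).isBounded.exists_norm_le
  refine ⟨Real.toNNReal (max C ‖e‖), fun w => le_trans ?_ (Real.le_coe_toNNReal _)⟩
  by_cases hw : w ∈ K
  · exact (hC _ ⟨w, hw, rfl⟩).trans (le_max_left _ _)
  · rw [h w hw]
    exact le_max_right _ _

/-- the flow of a bounded Lipschitz vector field -/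
theorem exists_flow {W : Type} [NormedAddCommGroup W] [NormedSpace ℝ W] [CompleteSpace W]
    {X : W → W} {C M : NNReal} (hC : LipschitzWith C X) (hM : ∀ w, ‖X w‖ ≤ M) :
    ∃ g : ℝ → W → W, IsFlowOf X g := by
  choose γ h0 h1 using fun x => exists_solution hC hM x
  exact ⟨fun t x => γ x t, ⟨fun x => h0 x, fun x t => h1 x t⟩⟩

theorem IsFlowOf.unique {W : Type} [NormedAddCommGroup W] [NormedSpace ℝ W]
    {X : W → W} {C : NNReal} (hC : LipschitzWith C X) {g : ℝ → W → W} (hg : IsFlowOf X g)
    {γ : ℝ → W} {x : W} (h0 : γ 0 = x) (h1 : ∀ t, HasDerivAt γ (X (γ t)) t) (t : ℝ) :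
    γ t = g t x := by
  have h2 : γ = fun t => g t x := by
    refine ODE_solution_unique_univ (v := fun _ => X) (s := fun _ => univ) (K := C) (t₀ := 0)
      (fun t => hC.lipschitzOnWith) (fun t => ⟨h1 t, trivial⟩)
      (fun t => ⟨hg.deriv x t, trivial⟩) ?_
    rw [h0, hg.zero]
  exact congrFun h2 t

theorem contDiff_flow_infty {W : Type} [NormedAddCommGroup W] [NormedSpace ℝ W] [CompleteSpace W]
    {X : W → W} (hX : ContDiff ℝ ∞ X) {C : NNReal} (hC : LipschitzWith C X) {g : ℝ → W → W}
    (hg : IsFlowOf X g) : ContDiff ℝ ∞ (fun p : ℝ × W => g p.1 p.2) := by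
  rw [contDiff_infty]
  intro m
  rcases Nat.eq_zero_or_pos m with rfl | hm
  · have h := contDiff_flow (X := ⟨X, hX.continuous⟩) (m := 1) one_ne_zero
      (hX.of_le (by exact_mod_cast le_top)) hC hg
    exact h.of_le (by simp)
  · exact contDiff_flow (X := ⟨X, hX.continuous⟩) (m := m) hm.ne'
      (hX.of_le (by exact_mod_cast le_top)) hC hg

/-- joint smoothness of the flows of a smooth family of vector fields, all equal to the same
constant field off the same compact set -/
theorem smooth_flow_param {P W : Type} [NormedAddCommGroup P] [NormedSpace ℝ P]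
    [FiniteDimensional ℝ P] [NormedAddCommGroup W] [NormedSpace ℝ W] [CompleteSpace W]
    (V : P → W → W) (hV : ContDiff ℝ ∞ (fun q : P × W => V q.1 q.2))
    (K : Set W) (hK : IsCompact K) (e : W)
    (hoff : ∀ p z, z ∉ K → V p z = e) (g : P → ℝ → W → W)
    (hg : ∀ p, IsFlowOf (V p) (g p)) :
    ContDiff ℝ ∞ (fun q : P × ℝ × W => g q.1 q.2.1 q.2.2) := by
  rw [contDiff_iff_contDiffAt]
  rintro ⟨p₀, t₀, z₀⟩
  let χ : ContDiffBump (0 : P) := ⟨1, 2, one_pos, one_lt_two⟩
  let ρ : P → P := fun p => p₀ + χ (p - p₀) • (p - p₀)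
  have hρ : ContDiff ℝ ∞ ρ := by
    refine contDiff_const.add (ContDiff.smul ?_ (contDiff_id.sub contDiff_const))
    exact χ.contDiff.comp (contDiff_id.sub contDiff_const)
  have hρ1 : ∀ p, ‖p - p₀‖ ≤ 1 → ρ p = p := by
    intro p hp
    have : χ (p - p₀) = 1 := χ.one_of_mem_closedBall (by simpa using hp)
    simp [ρ, this]
  have hρ2 : ∀ p, p ∉ Metric.closedBall p₀ 2 → ρ p = p₀ := by
    intro p hp
    have : χ (p - p₀) = 0 := χ.zero_of_le_dist (by
      rw [Metric.mem_closedBall, not_le, dist_eq_norm] at hp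
      simpa using hp.le)
    simp [ρ, this]
  let X : W × P → W × P := fun q => (V (ρ q.2) q.1, 0)
  have hX : ContDiff ℝ ∞ X := by
    refine ContDiff.prodMk ?_ contDiff_const
    exact hV.comp ((hρ.comp contDiff_snd).prodMk contDiff_fst)
  have hlip : ∃ C : NNReal, LipschitzWith C X := by
    -- Lipschitz in two steps: derivative bounded
    have hc : Continuous (fderiv ℝ X) := hX.continuous_fderiv (by simp)
    obtain ⟨C1, hC1⟩ := ((hK.prod (isCompact_closedBall p₀ 2)).image hc).isBounded.exists_norm_le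
    obtain ⟨C2, hC2⟩ := ((hK.prod (isCompact_singleton (x := p₀))).image
      ((hV.comp (contDiff_const (c := p₀) |>.prodMk contDiff_id) |>.continuous_fderiv
        (by simp) : Continuous (fderiv ℝ (fun z : W => V p₀ z))).comp
          (continuous_fst : Continuous (Prod.fst : W × P → W)))).isBounded.exists_norm_le
    refine ⟨Real.toNNReal (max (max C1 C2) 0), lipschitzWith_of_nnnorm_fderiv_le
      (hX.differentiable (by simp)) fun w => ?_⟩
    rw [← NNReal.coe_le_coe]
    simp only [coe_nnnorm]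
    refine le_trans ?_ (Real.le_coe_toNNReal _)
    by_cases hz : w.1 ∈ K
    · by_cases hp : w.2 ∈ Metric.closedBall p₀ 2
      · exact ((hC1 _ ⟨w, ⟨hz, hp⟩, rfl⟩).trans (le_max_left _ _)).trans (le_max_left _ _)
      · have h1 : X =ᶠ[𝓝 w] fun q => ContinuousLinearMap.inl ℝ W P (V p₀ q.1) := by
          have : ∀ᶠ q : W × P in 𝓝 w, q.2 ∉ Metric.closedBall p₀ 2 :=
            continuous_snd.continuousAt.eventually
              (Metric.isClosed_closedBall.isOpen_compl.mem_nhds hp)
          filter_upwards [this] with q hq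
          simp [X, hρ2 q.2 hq]
        rw [h1.fderiv_eq]
        have hd : DifferentiableAt ℝ (fun z : W => V p₀ z) w.1 :=
          ((hV.comp (contDiff_const (c := p₀) |>.prodMk contDiff_id)).differentiable
            (by simp)) w.1
        have h2 : HasFDerivAt (fun q : W × P => ContinuousLinearMap.inl ℝ W P (V p₀ q.1))
            ((ContinuousLinearMap.inl ℝ W P).comp ((fderiv ℝ (fun z : W => V p₀ z) w.1).comp
              (ContinuousLinearMap.fst ℝ W P))) w :=
          (ContinuousLinearMap.inl ℝ W P).hasFDerivAt.comp w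
            (hd.hasFDerivAt.comp w (ContinuousLinearMap.fst ℝ W P).hasFDerivAt)
        rw [h2.fderiv]
        have h3 : ‖(fderiv ℝ (fun z : W => V p₀ z) w.1)‖ ≤ C2 :=
          hC2 _ ⟨(w.1, p₀), ⟨hz, rfl⟩, rfl⟩
        have h4 : ‖(ContinuousLinearMap.inl ℝ W P).comp
            ((fderiv ℝ (fun z : W => V p₀ z) w.1).comp (ContinuousLinearMap.fst ℝ W P))‖ ≤
            1 * (‖fderiv ℝ (fun z : W => V p₀ z) w.1‖ * 1) := by
          refine (ContinuousLinearMap.opNorm_comp_le _ _).trans ?_
          refine mul_le_mul (ContinuousLinearMap.norm_inl_le_one ℝ W P) ?_ (norm_nonneg _)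
            zero_le_one
          refine (ContinuousLinearMap.opNorm_comp_le _ _).trans ?_
          exact mul_le_mul_of_nonneg_left (ContinuousLinearMap.norm_fst_le ℝ W P) (norm_nonneg _)
        rw [one_mul, mul_one] at h4
        exact ((h4.trans h3).trans (le_max_right _ _)).trans (le_max_left _ _)
    · have h1 : X =ᶠ[𝓝 w] fun q => ((e, 0) : W × P) := by
        have : ∀ᶠ q : W × P in 𝓝 w, q.1 ∉ K :=
          continuous_fst.continuousAt.eventually (hK.isClosed.isOpen_compl.mem_nhds hz)
        filter_upwards [this] with q hq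
        simp [X, hoff _ q.1 hq]
      rw [h1.fderiv_eq]
      simp
  obtain ⟨C, hC⟩ := hlip
  let G : ℝ → W × P → W × P := fun t q => (g (ρ q.2) t q.1, q.2)
  have hG : IsFlowOf X G := by
    refine ⟨fun q => ?_, fun q t => ?_⟩
    · simp [G, (hg _).zero]
    · exact ((hg (ρ q.2)).deriv q.1 t).prodMk (hasDerivAt_const t q.2)
  have h5 := contDiff_flow_infty hX hC hG
  have h6 : ContDiff ℝ ∞ (fun q : P × ℝ × W => (G q.2.1 (q.2.2, q.1)).1) :=
    contDiff_fst.comp (h5.comp ((contDiff_fst.comp contDiff_snd).prodMk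
      ((contDiff_snd.comp contDiff_snd).prodMk contDiff_fst)))
  refine h6.contDiffAt.congr_of_eventuallyEq ?_
  have : ∀ᶠ q : P × ℝ × W in 𝓝 (p₀, t₀, z₀), q.1 ∈ Metric.closedBall p₀ 1 :=
    continuous_fst.continuousAt.eventually (Metric.closedBall_mem_nhds p₀ one_pos)
  filter_upwards [this] with q hq
  have h7 : ρ q.1 = q.1 := hρ1 _ (by rwa [Metric.mem_closedBall, dist_eq_norm] at hq)
  simp [G, h7]

end Pool.Agent.H822.Par
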