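import Mathlib
import Pool.Graph.R_pool_sql_team_seeded_3997aac3.Q191.SY.Grp
import Pool.Agent.H822.Par

/-!
# Hamiltonian vector fields on `ℝ^{2n}` and their flows
-/

set_option autoImplicit false

open scoped ContDiff
open Set Filter Topology
open Pool.Agent.GR.Flow Q170.SC Pool.Agent.H822.Par

namespace Pool.Agent.H822.Ham

variable {n : ℕ}

/-- the `i`-th basis vector in the `x` directions -/
def ex (i : Fin n) : E n := (Pi.single i 1, 0)

/-- the `i`-th basis vector in the `y` directions -/
def ey (i : Fin n) : E n := (0, Pi.single i 1)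

/-- The Poisson bracket `{L, M} = ∑ (∂L/∂xᵢ ∂M/∂yᵢ - ∂L/∂yᵢ ∂M/∂xᵢ)`. -/
noncomputable def poisson (L M : E n → ℝ) (z : E n) : ℝ :=
  ∑ i, (fderiv ℝ L z (ex i) * fderiv ℝ M z (ey i) - fderiv ℝ L z (ey i) * fderiv ℝ M z (ex i))

/-- the vector `v` with `omega v w = a w` -/
noncomputable def dual (a : E n →L[ℝ] ℝ) : E n := (fun i => a (ey i), fun i => - a (ex i))

theorem dec (w : E n) : w = ∑ i, (w.1 i • ex i + w.2 i • ey i) := by
  apply Prod.ext
  · simp only [Prod.fst_sum, Prod.fst_add, Prod.smul_fst, ex, ey, smul_zero, add_zero]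
    ext j
    simp [Finset.sum_apply, Pi.single_apply]
  · simp only [Prod.snd_sum, Prod.snd_add, Prod.smul_snd, ex, ey, smul_zero, zero_add]
    ext j
    simp [Finset.sum_apply, Pi.single_apply]

theorem apply_dec (a : E n →L[ℝ] ℝ) (w : E n) :
    a w = ∑ i, (w.1 i * a (ex i) + w.2 i * a (ey i)) := by
  conv_lhs => rw [dec w]
  simp [map_sum]

theorem omega_dual (a : E n →L[ℝ] ℝ) (w : E n) : omega (dual a) w = a w := by
  rw [apply_dec a w, omega]
  refine Finset.sum_congr rfl fun i _ => ?_
  simp only [dual]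
  ring

theorem omega_swap (u v : E n) : omega u v = - omega v u := by
  rw [omega, omega, ← Finset.sum_neg_distrib]
  refine Finset.sum_congr rfl fun i _ => ?_
  ring

theorem omega_ey (u : E n) (i : Fin n) : omega u (ey i) = u.1 i := by
  simp [omega, ey, Pi.single_apply]

theorem omega_ex (u : E n) (i : Fin n) : omega u (ex i) = - u.2 i := by
  simp [omega, ex, Pi.single_apply]

theorem omega_inj {u v : E n} (h : ∀ w, omega u w = omega v w) : u = v := by
  apply Prod.ext
  · ext i
    have := h (ey i)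
    rwa [omega_ey, omega_ey] at this
  · ext i
    have := h (ex i)
    rw [omega_ex, omega_ex] at this
    linarith

theorem omega_add_left (u u' v : E n) : omega (u + u') v = omega u v + omega u' v := by
  simp only [omega, ← Finset.sum_add_distrib]
  refine Finset.sum_congr rfl fun i _ => ?_
  simp only [Prod.fst_add, Prod.snd_add, Pi.add_apply]
  ring

theorem omega_add_right (u v v' : E n) : omega u (v + v') = omega u v + omega u v' := by
  simp only [omega, ← Finset.sum_add_distrib]
  refine Finset.sum_congr rfl fun i _ => ?_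
  simp only [Prod.fst_add, Prod.snd_add, Pi.add_apply]
  ring

theorem omega_smul_left (c : ℝ) (u v : E n) : omega (c • u) v = c * omega u v := by
  simp only [omega, Finset.mul_sum]
  refine Finset.sum_congr rfl fun i _ => ?_
  simp only [Prod.smul_fst, Prod.smul_snd, Pi.smul_apply, smul_eq_mul]
  ring

theorem omega_smul_right (c : ℝ) (u v : E n) : omega u (c • v) = c * omega u v := by
  simp only [omega, Finset.mul_sum]
  refine Finset.sum_congr rfl fun i _ => ?_
  simp only [Prod.smul_fst, Prod.smul_snd, Pi.smul_apply, smul_eq_mul]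
  ring

/-- `omega` as a bilinear map -/
noncomputable def omL (n : ℕ) : E n →L[ℝ] E n →L[ℝ] ℝ :=
  LinearMap.toContinuousLinearMap
    ({ toFun := fun u => LinearMap.toContinuousLinearMap
        { toFun := fun v => omega u v
          map_add' := fun v v' => omega_add_right u v v'
          map_smul' := fun c v => omega_smul_right c u v }
       map_add' := fun u u' => by
        ext v
        · simp [omega_add_left]
        · simp [omega_add_left]
       map_smul' := fun c u => by
        ext v
        · simp [omega_smul_left]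
        · simp [omega_smul_left] } : E n →ₗ[ℝ] E n →L[ℝ] ℝ)

theorem omL_apply (u v : E n) : omL n u v = omega u v := rfl

theorem hasDerivAt_omega {u v : ℝ → E n} {u' v' : E n} {t : ℝ} (hu : HasDerivAt u u' t)
    (hv : HasDerivAt v v' t) :
    HasDerivAt (fun t => omega (u t) (v t)) (omega u' (v t) + omega (u t) v') t := by
  have h1 : HasDerivAt (fun t => omL n (u t)) (omL n u') t :=
    (omL n).hasFDerivAt.comp_hasDerivAt t hu
  have h2 := h1.clm_apply hv
  exact h2

/-- the Hamiltonian vector field of `L`: `omega (ham L z) w = dL(z) w` -/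
noncomputable def ham (L : E n → ℝ) (z : E n) : E n := dual (fderiv ℝ L z)

theorem omega_ham (L : E n → ℝ) (z w : E n) : omega (ham L z) w = fderiv ℝ L z w :=
  omega_dual _ _

theorem poisson_eq (L M : E n → ℝ) (z : E n) : poisson L M z = fderiv ℝ L z (ham M z) := by
  rw [apply_dec, poisson]
  refine Finset.sum_congr rfl fun i _ => ?_
  simp only [ham, dual]
  ring

theorem poisson_eq' (L M : E n → ℝ) (z : E n) : poisson L M z = - fderiv ℝ M z (ham L z) := by
  rw [poisson_eq, ← omega_ham, omega_swap, omega_ham]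

/-- `dual` as a continuous linear map -/
noncomputable def dualL (n : ℕ) : (E n →L[ℝ] ℝ) →L[ℝ] E n :=
  LinearMap.toContinuousLinearMap
    ({ toFun := dual
       map_add' := fun a b => by
        apply Prod.ext
        · ext i; simp [dual]
        · ext i; simp only [dual, Prod.snd_add, Pi.add_apply, _root_.add_apply]; ring
       map_smul' := fun c a => by
        apply Prod.ext
        · ext i; simp [dual]
        · ext i; simp [dual] } : (E n →L[ℝ] ℝ) →ₗ[ℝ] E n)

theorem dualL_apply (a : E n →L[ℝ] ℝ) : dualL n a = dual a := rfl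

theorem ham_smooth {L : E n → ℝ} (hL : ContDiff ℝ ∞ L) : ContDiff ℝ ∞ (ham L) :=
  (dualL n).contDiff.comp (hL.fderiv_right (m := ∞) (by simp))

theorem ham_smooth_param {P : Type} [NormedAddCommGroup P] [NormedSpace ℝ P]
    {L : P → E n → ℝ} (hL : ContDiff ℝ ∞ (fun q : P × E n => L q.1 q.2)) :
    ContDiff ℝ ∞ (fun q : P × E n => ham (L q.1) q.2) := by
  have h1 : ContDiff ℝ ∞ (fun q : P × E n => fderiv ℝ (L q.1) q.2) := by
    refine ContDiff.fderiv (m := ∞) (n := ∞) ?_ contDiff_snd (by simp)
    exact hL.comp ((contDiff_fst.comp contDiff_fst).prodMk contDiff_snd)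
  exact (dualL n).contDiff.comp h1

theorem ham_off {L : E n → ℝ} {ℓ : E n →L[ℝ] ℝ} {K : Set (E n)} (hK : IsClosed K)
    (h : ∀ z, z ∉ K → L z = ℓ z) : ∀ z, z ∉ K → ham L z = dual ℓ := by
  intro z hz
  have h1 : L =ᶠ[𝓝 z] ℓ := by
    filter_upwards [hK.isOpen_compl.mem_nhds hz] with y hy using h y hy
  rw [ham, h1.fderiv_eq]
  congr 1
  exact ℓ.fderiv

/-! ### Flows of Hamiltonian fields -/

/-- the derivative of `ham L` is an infinitesimally symplectic map -/
theorem fderiv_ham {L : E n → ℝ} (hL : ContDiff ℝ ∞ L) (z u v : E n) :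
    omega (fderiv ℝ (ham L) z u) v = fderiv ℝ (fderiv ℝ L) z u v := by
  have hd : DifferentiableAt ℝ (fderiv ℝ L) z :=
    ((hL.fderiv_right (m := ∞) (by simp)).differentiable (by simp)) z
  have h1 : HasFDerivAt (ham L) ((dualL n).comp (fderiv ℝ (fderiv ℝ L) z)) z :=
    (dualL n).hasFDerivAt.comp z hd.hasFDerivAt
  rw [h1.fderiv]
  exact omega_dual _ _

theorem infinit {L : E n → ℝ} (hL : ContDiff ℝ ∞ L) (z u v : E n) :
    omega (fderiv ℝ (ham L) z u) v + omega u (fderiv ℝ (ham L) z v) = 0 := by
  rw [omega_swap u, fderiv_ham hL, fderiv_ham hL]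
  have h1 : IsSymmSndFDerivAt ℝ L z := (hL.contDiffAt).isSymmSndFDerivAt (by
    rw [minSmoothness_of_isRCLikeNormedField]
    have : ((2 : ℕ∞) : WithTop ℕ∞) ≤ ((⊤ : ℕ∞) : WithTop ℕ∞) := WithTop.coe_le_coe.2 le_top
    exact this)
  rw [h1 u v]
  ring

section flow

variable {L : E n → ℝ} {C : NNReal} {g : ℝ → E n → E n}

theorem flow_smooth_t (hL : ContDiff ℝ ∞ L) (hC : LipschitzWith C (ham L))
    (hg : IsFlowOf (ham L) g) (t : ℝ) : ContDiff ℝ ∞ (g t) :=
  (contDiff_flow_infty (ham_smooth hL) hC hg).comp (contDiff_const.prodMk contDiff_id)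

theorem deriv_zero (hL : ContDiff ℝ ∞ L) (hC : LipschitzWith C (ham L))
    (hg : IsFlowOf (ham L) g) (x v : E n) :
    HasDerivAt (fun t => fderiv ℝ (g t) x v) (fderiv ℝ (ham L) x v) 0 :=
  hasDerivAt_fderiv_flow (X := ⟨ham L, (ham_smooth hL).continuous⟩)
    ((ham_smooth hL).of_le (by exact_mod_cast le_top)) hC hg x v

/-- the flow of a Hamiltonian field is symplectic -/
theorem flow_symp (hL : ContDiff ℝ ∞ L) (hC : LipschitzWith C (ham L))
    (hg : IsFlowOf (ham L) g) (t : ℝ) (z u v : E n) :
    omega (fderiv ℝ (g t) z u) (fderiv ℝ (g t) z v) = omega u v := by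
  have hsm := fun t => flow_smooth_t hL hC hg t
  have hdf : ∀ t y, DifferentiableAt ℝ (g t) y := fun t y =>
    ((hsm t).differentiable (by simp)) y
  have e0 : g 0 = id := by ext1 y; exact hg.zero y
  have hder0 : ∀ q u v : E n,
      HasDerivAt (fun s => omega (fderiv ℝ (g s) q u) (fderiv ℝ (g s) q v)) 0 0 := by
    intro q u v
    have h1 := hasDerivAt_omega (deriv_zero hL hC hg q u) (deriv_zero hL hC hg q v)
    rw [e0, fderiv_id] at h1
    simp only [ContinuousLinearMap.id_apply] at h1
    rwa [infinit hL] at h1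
  have hder : ∀ s, HasDerivAt (fun s => omega (fderiv ℝ (g s) z u) (fderiv ℝ (g s) z v)) 0 s := by
    intro s
    have h1 : (fun r => omega (fderiv ℝ (g r) z u) (fderiv ℝ (g r) z v)) =
        fun r => omega (fderiv ℝ (g (r - s)) (g s z) (fderiv ℝ (g s) z u))
          (fderiv ℝ (g (r - s)) (g s z) (fderiv ℝ (g s) z v)) := by
      ext r
      have h2 : g r = g (r - s) ∘ g s := by
        ext1 y
        rw [Function.comp_apply, ← hg.add hC, sub_add_cancel]
      conv_lhs => rw [h2]
      rw [fderiv_comp z (hdf _ _) (hdf _ _)]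
      rfl
    rw [h1]
    have h4 := hder0 (g s z) (fderiv ℝ (g s) z u) (fderiv ℝ (g s) z v)
    rw [← sub_self s] at h4
    have h5 := HasDerivAt.comp s (h₂ := fun r => omega (fderiv ℝ (g r) (g s z)
      (fderiv ℝ (g s) z u)) (fderiv ℝ (g r) (g s z) (fderiv ℝ (g s) z v)))
      (h := fun r => r - s) h4 ((hasDerivAt_id s).sub_const s)
    rw [sub_self, zero_mul] at h5
    exact h5
  have h7 := is_const_of_deriv_eq_zero (fun s => (hder s).differentiableAt)
    (fun s => (hder s).deriv) t 0
  rw [h7, e0, fderiv_id]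
  rfl

/-- a function whose bracket with `L` is constant changes linearly along the flow of `L` -/
theorem flow_bracket {M : E n → ℝ} (hM : ContDiff ℝ ∞ M) (hg : IsFlowOf (ham L) g)
    {c : ℝ} (hc : ∀ z, poisson L M z = c) (t : ℝ) (z : E n) : M (g t z) = M z - t * c := by
  have h1 : ∀ s, HasDerivAt (fun s => M (g s z) + s * c) 0 s := by
    intro s
    have h2 : HasDerivAt (fun s => M (g s z)) (fderiv ℝ M (g s z) (ham L (g s z))) s :=
      ((hM.differentiable (by simp)) (g s z)).hasFDerivAt.comp_hasDerivAt s (hg.deriv z s)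
    have h3 := h2.add ((hasDerivAt_id s).mul_const c)
    have h4 : fderiv ℝ M (g s z) (ham L (g s z)) + 1 * c = 0 := by
      have := hc (g s z)
      rw [poisson_eq'] at this
      linarith
    rw [h4] at h3
    exact h3
  have h5 := is_const_of_deriv_eq_zero (fun s => (h1 s).differentiableAt)
    (fun s => (h1 s).deriv) t 0
  rw [hg.zero] at h5
  linarith

theorem flow_inv (hC : LipschitzWith C (ham L)) (hg : IsFlowOf (ham L) g) (t : ℝ) (z : E n) :
    g (-t) (g t z) = z := by
  rw [← hg.add hC, neg_add_cancel, hg.zero]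

theorem flow_inv' (hC : LipschitzWith C (ham L)) (hg : IsFlowOf (ham L) g) (t : ℝ) (z : E n) :
    g t (g (-t) z) = z := by
  rw [← hg.add hC, add_neg_cancel, hg.zero]

theorem flow_deriv_surj (hL : ContDiff ℝ ∞ L) (hC : LipschitzWith C (ham L))
    (hg : IsFlowOf (ham L) g) (t : ℝ) (z w : E n) : ∃ v, fderiv ℝ (g t) z v = w := by
  have hsm := fun t => flow_smooth_t hL hC hg t
  have hdf : ∀ t y, DifferentiableAt ℝ (g t) y := fun t y =>
    ((hsm t).differentiable (by simp)) y
  have h1 : g t ∘ g (-t) = id := by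
    ext1 y
    exact flow_inv' hC hg t y
  have h2 : (fderiv ℝ (g t) (g (-t) (g t z))).comp (fderiv ℝ (g (-t)) (g t z)) =
      ContinuousLinearMap.id ℝ (E n) := by
    rw [← fderiv_comp (g t z) (hdf _ _) (hdf _ _), h1, fderiv_id]
  rw [flow_inv hC hg] at h2
  exact ⟨fderiv ℝ (g (-t)) (g t z) w, DFunLike.congr_fun h2 w⟩

/-- the flow of `L` preserves the Hamiltonian field of a function whose bracket with `L` is
constant -/
theorem flow_ham {M : E n → ℝ} (hL : ContDiff ℝ ∞ L) (hM : ContDiff ℝ ∞ M)
    (hC : LipschitzWith C (ham L)) (hg : IsFlowOf (ham L) g)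
    {c : ℝ} (hc : ∀ z, poisson L M z = c) (t : ℝ) (z : E n) :
    fderiv ℝ (g t) z (ham M z) = ham M (g t z) := by
  refine omega_inj fun w => ?_
  obtain ⟨v, rfl⟩ := flow_deriv_surj hL hC hg t z w
  rw [flow_symp hL hC hg, omega_ham, omega_ham]
  have h1 : (fun y => M (g t y)) = fun y => M y - t * c := by
    ext y
    exact flow_bracket hM hg hc t y
  have h2 : fderiv ℝ (fun y => M (g t y)) z = (fderiv ℝ M (g t z)).comp (fderiv ℝ (g t) z) :=
    fderiv_comp z ((hM.differentiable (by simp)) _)
      (((flow_smooth_t hL hC hg t).differentiable (by simp)) z)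
  rw [h1, fderiv_sub_const] at h2
  exact DFunLike.congr_fun h2 v

theorem poisson_self (L : E n → ℝ) (z : E n) : poisson L L z = 0 := by
  simp only [poisson]
  refine Finset.sum_eq_zero fun i _ => ?_
  ring

theorem poisson_swap (L M : E n → ℝ) (z : E n) : poisson L M z = - poisson M L z := by
  simp only [poisson, ← Finset.sum_neg_distrib]
  refine Finset.sum_congr rfl fun i _ => ?_
  ring

/-- the flows of functions with constant bracket commute -/
theorem flow_comm {M : E n → ℝ} (hL : ContDiff ℝ ∞ L) (hM : ContDiff ℝ ∞ M)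
    (hC : LipschitzWith C (ham L)) (hg : IsFlowOf (ham L) g) {D : NNReal}
    (hD : LipschitzWith D (ham M)) {k : ℝ → E n → E n} (hk : IsFlowOf (ham M) k)
    {c : ℝ} (hc : ∀ z, poisson L M z = c) (s t : ℝ) (z : E n) :
    g s (k t z) = k t (g s z) := by
  refine IsFlowOf.unique hD hk (γ := fun t => g s (k t z)) (x := g s z) ?_ ?_ t
  · show g s (k 0 z) = g s z
    rw [hk.zero]
  · intro r
    have h1 : HasDerivAt (fun t => g s (k t z)) (fderiv ℝ (g s) (k r z) (ham M (k r z))) r :=
      (((flow_smooth_t hL hC hg s).differentiable (by simp)) _).hasFDerivAt.comp_hasDerivAt r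
        (hk.deriv z r)
    rw [flow_ham hL hM hC hg hc] at h1
    exact h1

end flow

/-- a flow moves along straight lines where the field is constant -/
theorem straight {W : Type} [NormedAddCommGroup W] [NormedSpace ℝ W]
    {X : W → W} {C : NNReal} (hC : LipschitzWith C X) {g : ℝ → W → W}
    (hg : IsFlowOf X g) {e w : W} {s : ℝ} (hs : 0 ≤ s)
    (h : ∀ r ∈ Icc (0 : ℝ) s, X (w + r • e) = e) : g s w = w + s • e := by
  have h1 : EqOn (fun r => g r w) (fun r => w + r • e) (Icc 0 s) := by
    refine ODE_solution_unique_of_mem_Icc_right (v := fun _ => X) (s := fun _ => univ) (K := C)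
      (fun t _ => hC.lipschitzOnWith)
      (fun t _ => (hg.deriv w t).continuousAt.continuousWithinAt)
      (fun t _ => (hg.deriv w t).hasDerivWithinAt) (fun t _ => trivial)
      ?_ (fun t ht => ?_) (fun t _ => trivial) ?_
    · exact (continuous_const.add (continuous_id.smul continuous_const)).continuousOn
    · show HasDerivWithinAt (fun r : ℝ => w + r • e) (X (w + t • e)) (Ici t) t
      rw [h t ⟨ht.1, ht.2.le⟩]
      have h2 : HasDerivAt (fun r : ℝ => w + r • e) ((1 : ℝ) • e) t :=
        ((hasDerivAt_id t).smul_const e).const_add w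
      rw [one_smul] at h2
      exact h2.hasDerivWithinAt
    · show g 0 w = w + (0 : ℝ) • e
      rw [hg.zero, zero_smul, add_zero]
  exact h1 ⟨hs, le_rfl⟩

end Pool.Agent.H822.Ham
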