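import Mathlib
import Pool.Agent.H822.Ham

/-!
# Pairs of functions with constant bracket, standard off a compact set
-/

set_option autoImplicit false

open scoped ContDiff
open Set Filter Topology Function
open Pool.Agent.GR.Flow Q170.SC Pool.Agent.H822.Par Pool.Agent.H822.Ham Pool.Agent.Q191.SY

namespace Pool.Agent.H822.Pairs

variable {n : ℕ}

/-- `(L₁, L₂)` is a pair of smooth functions on `ℝ^{2n}` which is equal to `(ℓ₁, ℓ₂)` off `K` and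
satisfies `{L₁, L₂} = {ℓ₁, ℓ₂}` everywhere (no other condition is imposed in `K`). -/
structure IsPair (ℓ₁ ℓ₂ : E n →L[ℝ] ℝ) (K : Set (E n)) (L₁ L₂ : E n → ℝ) : Prop where
  smooth₁ : ContDiff ℝ ∞ L₁
  smooth₂ : ContDiff ℝ ∞ L₂
  off₁ : ∀ z, z ∉ K → L₁ z = ℓ₁ z
  off₂ : ∀ z, z ∉ K → L₂ z = ℓ₂ z
  bracket : ∀ z, poisson L₁ L₂ z = poisson ℓ₁ ℓ₂ z

theorem poisson_lin (ℓ₁ ℓ₂ : E n →L[ℝ] ℝ) (z : E n) : poisson ℓ₁ ℓ₂ z = - ℓ₂ (dual ℓ₁) := by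
  rw [poisson_eq', ham, ℓ₁.fderiv, ℓ₂.fderiv]

/-- a smooth map with injective derivatives which is the identity off a compact set is onto -/
theorem surj_of {W : Type} [NormedAddCommGroup W] [NormedSpace ℝ W] [FiniteDimensional ℝ W]
    (F : W → W) (hF : ContDiff ℝ ∞ F) (hi : ∀ z v, fderiv ℝ F z v = 0 → v = 0)
    (K : Set W) (hK : IsCompact K) (hoff : ∀ z, z ∉ K → F z = z) : Surjective F := by
  have : CompleteSpace W := FiniteDimensional.complete ℝ W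
  let F' : W → (W ≃L[ℝ] W) := fun z =>
    (LinearEquiv.ofInjectiveEndo (fderiv ℝ F z : W →ₗ[ℝ] W)
      ((injective_iff_map_eq_zero _).2 fun v hv => hi z v hv)).toContinuousLinearEquiv
  have hF' : ∀ z, (F' z : W →L[ℝ] W) = fderiv ℝ F z := by
    intro z
    ext v
    rfl
  have hs : ∀ z, HasStrictFDerivAt F (F' z : W →L[ℝ] W) z := by
    intro z
    rw [hF' z]
    exact (hF.contDiffAt).hasStrictFDerivAt (by simp)
  have ho : IsOpenMap F := isOpenMap_of_hasStrictFDerivAt_equiv hs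
  have hp : IsProperMap F := by
    rw [isProperMap_iff_tendsto_cocompact]
    refine ⟨hF.continuous, ?_⟩
    have h1 : F =ᶠ[cocompact W] id := by
      filter_upwards [hK.compl_mem_cocompact] with z hz using hoff z hz
    exact tendsto_id.congr' h1.symm
  have hc : IsClosed (range F) := hp.isClosedMap.isClosed_range
  have hop : IsOpen (range F) := ho.isOpen_range
  rw [← range_eq_univ]
  exact IsClopen.eq_univ ⟨hc, hop⟩ ⟨F 0, mem_range_self 0⟩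

section one

variable {ℓ₁ ℓ₂ m₁ m₂ : E n →L[ℝ] ℝ} {K : Set (E n)} {L₁ L₂ : E n → ℝ} {R : ℝ}
  {C₁ C₂ : NNReal} {g₁ g₂ : ℝ → E n → E n}

/-- The map `z ↦ g₁(s)(z - s e₁)`, `s = m₁ z + R + 1`. -/
noncomputable def wav (ℓ₁ m₁ : E n →L[ℝ] ℝ) (R : ℝ) (g₁ : ℝ → E n → E n) (z : E n) : E n :=
  g₁ (m₁ z + R + 1) (z - (m₁ z + R + 1) • dual ℓ₁)

theorem mem_not (hR : ∀ z ∈ K, |m₁ z| ≤ R) {z : E n} (h : m₁ z < -R) : z ∉ K := fun hz => by
  have := abs_le.1 (hR z hz)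
  linarith [this.1]

theorem mem_not' (hR : ∀ z ∈ K, |m₁ z| ≤ R) {z : E n} (h : R < m₁ z) : z ∉ K := fun hz => by
  have := abs_le.1 (hR z hz)
  linarith [this.2]

variable (hKc : IsClosed K) (hP : IsPair ℓ₁ ℓ₂ K L₁ L₂)
  (h11 : m₁ (dual ℓ₁) = 1) (h12 : m₁ (dual ℓ₂) = 0) (h21 : m₂ (dual ℓ₁) = 0)
  (h22 : m₂ (dual ℓ₂) = 1) (hR1 : ∀ z ∈ K, |m₁ z| ≤ R) (hR2 : ∀ z ∈ K, |m₂ z| ≤ R)
  (hC₁ : LipschitzWith C₁ (ham L₁)) (hC₂ : LipschitzWith C₂ (ham L₂))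
  (hg₁ : IsFlowOf (ham L₁) g₁) (hg₂ : IsFlowOf (ham L₂) g₂)

include hKc hP h11 hR1 hC₁ hg₁ in
theorem stab {z : E n} {s s' : ℝ} (h : m₁ z + R < s) (h' : s ≤ s') :
    g₁ s' (z - s' • dual ℓ₁) = g₁ s (z - s • dual ℓ₁) := by
  have h1 : g₁ (s' - s) (z - s' • dual ℓ₁) = z - s' • dual ℓ₁ + (s' - s) • dual ℓ₁ := by
    refine straight hC₁ hg₁ (by linarith) fun r hr => ham_off hKc hP.off₁ _ ?_
    refine mem_not hR1 ?_
    have h2 : m₁ (z - s' • dual ℓ₁ + r • dual ℓ₁) = m₁ z - s' + r := by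
      simp [h11]
    rw [h2]
    linarith [hr.2]
  have h3 : z - s' • dual ℓ₁ + (s' - s) • dual ℓ₁ = z - s • dual ℓ₁ := by
    rw [sub_smul]; abel
  rw [h3] at h1
  rw [← h1, ← hg₁.add hC₁]
  congr 1
  ring

include hKc hP h11 hR1 hC₁ hg₁ in
theorem wav_eq {z : E n} {s : ℝ} (h : m₁ z + R + 1 ≤ s) :
    wav ℓ₁ m₁ R g₁ z = g₁ s (z - s • dual ℓ₁) := by
  rw [wav, stab hKc hP h11 hR1 hC₁ hg₁ (s := m₁ z + R + 1) (by linarith) h]

include hKc hP h11 h12 h21 h22 hR1 hR2 hC₁ hC₂ hg₁ hg₂ in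
theorem plus_minus {z : E n} {s : ℝ} (h0 : 0 ≤ s) (h : |m₁ z| + R < s) :
    g₁ s (z - s • dual ℓ₁) = g₁ (-s) (z + s • dual ℓ₁) := by
  obtain ⟨t, ht0, ht⟩ : ∃ t : ℝ, 0 ≤ t ∧ |m₂ z| + R < t :=
    ⟨max 0 (|m₂ z| + R + 1), le_max_left _ _, lt_of_lt_of_le (by linarith) (le_max_right _ _)⟩
  have hz1 := abs_le.1 (le_refl |m₁ z|)
  have hz2 := abs_le.1 (le_refl |m₂ z|)
  have hcom := fun s t z => flow_comm hP.smooth₁ hP.smooth₂ hC₁ hg₁ hC₂ hg₂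
    (c := - ℓ₂ (dual ℓ₁)) (fun z => (hP.bracket z).trans (poisson_lin ℓ₁ ℓ₂ z)) s t z
  have e1 : g₁ s (z - s • dual ℓ₁) = g₂ t (z - t • dual ℓ₂) := by
    have a1 : g₂ t (z - s • dual ℓ₁ - t • dual ℓ₂) = z - s • dual ℓ₁ := by
      rw [straight hC₂ hg₂ (e := dual ℓ₂) ht0 fun r hr => ham_off hKc hP.off₂ _ (mem_not hR1 ?_)]
      · abel
      · have h2 : m₁ (z - s • dual ℓ₁ - t • dual ℓ₂ + r • dual ℓ₂) = m₁ z - s := by
          simp [h11, h12]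
        rw [h2]
        linarith [hz1.2]
    have a2 : g₁ s (z - s • dual ℓ₁ - t • dual ℓ₂) = z - t • dual ℓ₂ := by
      rw [straight hC₁ hg₁ (e := dual ℓ₁) h0 fun r hr => ham_off hKc hP.off₁ _ (mem_not hR2 ?_)]
      · abel
      · have h2 : m₂ (z - s • dual ℓ₁ - t • dual ℓ₂ + r • dual ℓ₁) = m₂ z - t := by
          simp [h21, h22]
        rw [h2]
        linarith [hz2.2]
    rw [← a1, ← a2, hcom]
  have e2 : g₁ (-s) (z + s • dual ℓ₁) = g₂ t (z - t • dual ℓ₂) := by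
    have a1 : g₂ t (z + s • dual ℓ₁ - t • dual ℓ₂) = z + s • dual ℓ₁ := by
      rw [straight hC₂ hg₂ (e := dual ℓ₂) ht0 fun r hr => ham_off hKc hP.off₂ _ (mem_not' hR1 ?_)]
      · abel
      · have h2 : m₁ (z + s • dual ℓ₁ - t • dual ℓ₂ + r • dual ℓ₂) = m₁ z + s := by
          simp [h11, h12]
        rw [h2]
        linarith [hz1.1]
    have a2 : g₁ s (z - t • dual ℓ₂) = z + s • dual ℓ₁ - t • dual ℓ₂ := by
      rw [straight hC₁ hg₁ (e := dual ℓ₁) h0 fun r hr => ham_off hKc hP.off₁ _ (mem_not hR2 ?_)]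
      · abel
      · have h2 : m₂ (z - t • dual ℓ₂ + r • dual ℓ₁) = m₂ z - t := by
          simp [h21, h22]
        rw [h2]
        linarith [hz2.2]
    have a3 : g₁ (-s) (z + s • dual ℓ₁ - t • dual ℓ₂) = z - t • dual ℓ₂ := by
      rw [← a2]
      exact flow_inv hC₁ hg₁ s _
    rw [← a1, ← a3, hcom]
  rw [e1, e2]

include hKc hP h11 h12 h21 h22 hR1 hR2 hC₁ hC₂ hg₁ hg₂ in
theorem wav_off (hconv : Convex ℝ K) {z : E n} (hz : z ∉ K) : wav ℓ₁ m₁ R g₁ z = z := by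
  obtain ⟨s, hs0, hs⟩ : ∃ s : ℝ, 0 ≤ s ∧ |m₁ z| + R + 1 ≤ s :=
    ⟨max 0 (|m₁ z| + R + 1), le_max_left _ _, le_max_right _ _⟩
  have hz1 := abs_le.1 (le_refl |m₁ z|)
  have e1 : wav ℓ₁ m₁ R g₁ z = g₁ s (z - s • dual ℓ₁) :=
    wav_eq hKc hP h11 hR1 hC₁ hg₁ (by linarith [hz1.2])
  obtain ⟨f, u, hfu, hf⟩ := geometric_hahn_banach_point_closed hconv hKc hz
  rcases le_total 0 (f (dual ℓ₁)) with h0 | h0
  · rw [e1, straight hC₁ hg₁ (e := dual ℓ₁) hs0 fun r hr => ham_off hKc hP.off₁ _ fun hmem => ?_]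
    · abel
    · have h3 := hf _ hmem
      have h4 : f (z - s • dual ℓ₁ + r • dual ℓ₁) = f z - (s - r) * f (dual ℓ₁) := by
        simp; ring
      rw [h4] at h3
      nlinarith [hr.2]
  · rw [e1, plus_minus hKc hP h11 h12 h21 h22 hR1 hR2 hC₁ hC₂ hg₁ hg₂ hs0 (by linarith)]
    have h5 : g₁ s z = z + s • dual ℓ₁ := by
      refine straight hC₁ hg₁ (e := dual ℓ₁) hs0 fun r hr => ham_off hKc hP.off₁ _ fun hmem => ?_
      have h3 := hf _ hmem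
      have h4 : f (z + r • dual ℓ₁) = f z + r * f (dual ℓ₁) := by simp
      rw [h4] at h3
      nlinarith [hr.1]
    rw [← h5]
    exact flow_inv hC₁ hg₁ s z

include hKc hP h11 hR1 hC₁ hg₁ in
theorem wav_fderiv (z₀ : E n) : ∃ s : ℝ, ∀ v,
    fderiv ℝ (wav ℓ₁ m₁ R g₁) z₀ v = fderiv ℝ (g₁ s) (z₀ - s • dual ℓ₁) v := by
  refine ⟨m₁ z₀ + R + 2, fun v => ?_⟩
  set s := m₁ z₀ + R + 2 with hs
  have h1 : wav ℓ₁ m₁ R g₁ =ᶠ[𝓝 z₀] fun z => g₁ s (z - s • dual ℓ₁) := by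
    have h2 : ∀ᶠ z in 𝓝 z₀, m₁ z < m₁ z₀ + 1 :=
      m₁.continuous.continuousAt.eventually_lt continuousAt_const (by simp)
    filter_upwards [h2] with z hz
    exact wav_eq hKc hP h11 hR1 hC₁ hg₁ (by linarith)
  rw [h1.fderiv_eq]
  have h3 := fderiv_comp_sub (𝕜 := ℝ) (f := g₁ s) (x := z₀) (s • dual ℓ₁)
  exact DFunLike.congr_fun h3 v

include hKc hP h11 hR1 hC₁ hg₁ in
theorem wav_symp (z u v : E n) : omega (fderiv ℝ (wav ℓ₁ m₁ R g₁) z u)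
    (fderiv ℝ (wav ℓ₁ m₁ R g₁) z v) = omega u v := by
  obtain ⟨s, hs⟩ := wav_fderiv hKc hP h11 hR1 hC₁ hg₁ z
  rw [hs, hs]
  exact flow_symp hP.smooth₁ hC₁ hg₁ s _ u v

include hKc hP h11 hR1 hC₁ hg₁ in
theorem wav_inj : Injective (wav ℓ₁ m₁ R g₁) := by
  intro z z' h
  obtain ⟨s, h1, h2⟩ : ∃ s, m₁ z + R + 1 ≤ s ∧ m₁ z' + R + 1 ≤ s :=
    ⟨max (m₁ z + R + 1) (m₁ z' + R + 1), le_max_left _ _, le_max_right _ _⟩
  rw [wav_eq hKc hP h11 hR1 hC₁ hg₁ h1, wav_eq hKc hP h11 hR1 hC₁ hg₁ h2] at h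
  have h3 := congrArg (g₁ (-s)) h
  rw [flow_inv hC₁ hg₁, flow_inv hC₁ hg₁] at h3
  simpa using h3

theorem inj_of_symp {F : E n → E n}
    (h : ∀ z u v, omega (fderiv ℝ F z u) (fderiv ℝ F z v) = omega u v) :
    ∀ z v, fderiv ℝ F z v = 0 → v = 0 := by
  intro z v hv
  refine omega_inj fun w => ?_
  rw [← h z v w, hv, omega_swap]
  have h0 : ∀ u : E n, omega u 0 = 0 := fun u => by simp [omega]
  rw [h0]
  rw [omega_swap, h0]

include hKc hP h11 hR1 hC₁ hg₁ in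
theorem wav_fun₁ (z : E n) : L₁ (wav ℓ₁ m₁ R g₁ z) = ℓ₁ z := by
  have h1 := wav_eq (z := z) hKc hP h11 hR1 hC₁ hg₁ le_rfl
  rw [h1, flow_bracket hP.smooth₁ hg₁ (poisson_self L₁), hP.off₁ _ (mem_not hR1 ?_)]
  · have h2 : ℓ₁ (dual ℓ₁) = 0 := by
      have h3 : omega (dual ℓ₁) (dual ℓ₁) = - omega (dual ℓ₁) (dual ℓ₁) := omega_swap _ _
      rw [← omega_dual]
      linarith
    simp [h2]
  · simp [h11]; linarith

include hKc hP h11 hR1 hC₁ hg₁ in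
theorem wav_fun₂ (z : E n) : L₂ (wav ℓ₁ m₁ R g₁ z) = ℓ₂ z := by
  have h1 := wav_eq (z := z) hKc hP h11 hR1 hC₁ hg₁ le_rfl
  rw [h1, flow_bracket hP.smooth₂ hg₁ (c := - ℓ₂ (dual ℓ₁))
    (fun z => (hP.bracket z).trans (poisson_lin ℓ₁ ℓ₂ z)), hP.off₂ _ (mem_not hR1 ?_)]
  · simp
  · simp [h11]; linarith

end one

/-- A symplectomorphism with compact support which preserves a nonzero linear function is the
identity. -/
theorem eq_one_of (ℓ : E n →L[ℝ] ℝ) (hℓ : ℓ ≠ 0) (χ : SympCt n) (h : ∀ z, ℓ (χ.map z) = ℓ z) :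
    χ = 1 := by
  have hsm := map_smooth χ
  have hd : ∀ z, DifferentiableAt ℝ χ.map z := fun z => hsm.differentiable (by simp) z
  have hf : ∀ z u v, omega (fderiv ℝ χ.map z u) (fderiv ℝ χ.map z v) = omega u v := χ.2.1.form
  have hinj := inj_of_symp hf
  have he : ∀ z, fderiv ℝ χ.map z (dual ℓ) = dual ℓ := by
    intro z
    refine omega_inj fun w => ?_
    obtain ⟨v, rfl⟩ : ∃ v, fderiv ℝ χ.map z v = w := by
      have : Surjective (fderiv ℝ χ.map z : E n →ₗ[ℝ] E n) :=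
        LinearMap.surjective_of_injective ((injective_iff_map_eq_zero _).2 fun v hv => hinj z v hv)
      exact this w
    rw [hf, omega_dual, omega_dual]
    have h2 : fderiv ℝ (fun y => ℓ (χ.map y)) z = ℓ.comp (fderiv ℝ χ.map z) :=
      (ℓ.hasFDerivAt.comp z (hd z).hasFDerivAt).fderiv
    have h3 : (fun y => ℓ (χ.map y)) = ℓ := funext h
    rw [h3, ℓ.fderiv] at h2
    exact DFunLike.congr_fun h2 v
  obtain ⟨K, hK, hKs⟩ := χ.2.2
  have hne : dual ℓ ≠ 0 := by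
    intro h0
    apply hℓ
    refine ContinuousLinearMap.ext fun w => ?_
    rw [← omega_dual, h0]
    simp [omega]
  refine ext_map fun z => ?_
  rw [one_map]
  have hc : ∀ s : ℝ, χ.map (z + s • dual ℓ) - s • dual ℓ = χ.map z := by
    intro s
    have h1 : ∀ s : ℝ, HasDerivAt (fun s : ℝ => χ.map (z + s • dual ℓ) - s • dual ℓ) 0 s := by
      intro s
      have h2 : HasDerivAt (fun s : ℝ => z + s • dual ℓ) ((1 : ℝ) • dual ℓ) s :=
        ((hasDerivAt_id s).smul_const _).const_add z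
      rw [one_smul] at h2
      have h3 := (hd (z + s • dual ℓ)).hasFDerivAt.comp_hasDerivAt s h2
      rw [he] at h3
      have h4 := h3.sub ((hasDerivAt_id s).smul_const (dual ℓ))
      rw [one_smul, sub_self] at h4
      exact h4
    have h5 := is_const_of_deriv_eq_zero (fun s => (h1 s).differentiableAt)
      (fun s => (h1 s).deriv) s 0
    simpa using h5
  obtain ⟨B, hB⟩ := hK.isBounded.exists_norm_le
  obtain ⟨s, hs⟩ : ∃ s : ℝ, B < ‖z + s • dual ℓ‖ := by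
    have hpos : 0 < ‖dual ℓ‖ := norm_pos_iff.2 hne
    refine ⟨(|B| + ‖z‖ + 1) / ‖dual ℓ‖, ?_⟩
    have h1 : ‖((|B| + ‖z‖ + 1) / ‖dual ℓ‖) • dual ℓ‖ = |B| + ‖z‖ + 1 := by
      rw [norm_smul, Real.norm_of_nonneg (by positivity), div_mul_cancel₀ _ hpos.ne']
    have h2 : ‖((|B| + ‖z‖ + 1) / ‖dual ℓ‖) • dual ℓ‖ ≤
        ‖z + ((|B| + ‖z‖ + 1) / ‖dual ℓ‖) • dual ℓ‖ + ‖z‖ := by
      have := norm_sub_le (z + ((|B| + ‖z‖ + 1) / ‖dual ℓ‖) • dual ℓ) z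
      rwa [add_sub_cancel_left] at this
    rw [h1] at h2
    linarith [le_abs_self B]
  have h6 : χ.map (z + s • dual ℓ) = z + s • dual ℓ := by
    refine hKs _ fun hmem => ?_
    exact absurd (hB _ hmem) (not_le.2 hs)
  rw [← hc s, h6]
  abel

/-- dual functionals of the Hamiltonian vectors of two independent linear functions -/
theorem exists_dual (ℓ₁ ℓ₂ : E n →L[ℝ] ℝ) (h : LinearIndependent ℝ ![ℓ₁, ℓ₂]) :
    ∃ m₁ m₂ : E n →L[ℝ] ℝ, m₁ (dual ℓ₁) = 1 ∧ m₁ (dual ℓ₂) = 0 ∧ m₂ (dual ℓ₁) = 0 ∧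
      m₂ (dual ℓ₂) = 1 := by
  have hinj : Injective (dualL n) := by
    intro a b hab
    refine ContinuousLinearMap.ext fun w => ?_
    rw [← omega_dual a, ← omega_dual b, ← dualL_apply, ← dualL_apply, hab]
  have h1 : LinearIndependent ℝ ((dualL n : (E n →L[ℝ] ℝ) →ₗ[ℝ] E n) ∘ ![ℓ₁, ℓ₂]) :=
    h.map' _ (LinearMap.ker_eq_bot.2 hinj)
  have key : ∀ i : Fin 2, ∃ m : E n →L[ℝ] ℝ, ∀ j : Fin 2,
      m (dual (![ℓ₁, ℓ₂] j)) = if i = j then 1 else 0 := by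
    intro i
    have h2 := h1.notMem_span_image (s := {j | j ≠ i}) (x := i) (by simp)
    obtain ⟨f, hf1, hf2⟩ := Submodule.exists_le_ker_of_notMem h2
    refine ⟨LinearMap.toContinuousLinearMap ((f (dual (![ℓ₁, ℓ₂] i)))⁻¹ • f), fun j => ?_⟩
    simp only [LinearMap.coe_toContinuousLinearMap', LinearMap.smul_apply, smul_eq_mul]
    split_ifs with hij
    · rw [hij] at hf1 ⊢
      exact inv_mul_cancel₀ hf1
    · have h3 : f (dual (![ℓ₁, ℓ₂] j)) = 0 :=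
        hf2 (Submodule.subset_span ⟨j, fun h => hij h.symm, rfl⟩)
      rw [h3, mul_zero]
  obtain ⟨m₁, h3⟩ := key 0
  obtain ⟨m₂, h4⟩ := key 1
  refine ⟨m₁, m₂, ?_, ?_, ?_, ?_⟩
  · simpa using h3 0
  · simpa using h3 1
  · simpa using h4 0
  · simpa using h4 1

end Pool.Agent.H822.Pairs
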