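import Mathlib
import Pool.Agent.H822.Pairs

/-!
# `Symp_ct(ℝ^{2n})` acts simply transitively on the pairs
-/

set_option autoImplicit false

open scoped ContDiff
open Set Filter Topology Function
open Pool.Agent.GR.Flow Q170.SC Pool.Agent.H822.Par Pool.Agent.H822.Ham Pool.Agent.Q191.SY
open Pool.Agent.H822.Pairs

namespace Pool.Agent.H822.PairsMain

variable {n : ℕ}

theorem ham_lip {L : E n → ℝ} (hL : ContDiff ℝ ∞ L) {ℓ : E n →L[ℝ] ℝ} {K : Set (E n)}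
    (hK : IsCompact K) (h : ∀ z, z ∉ K → L z = ℓ z) :
    ∃ C : NNReal, LipschitzWith C (ham L) :=
  exists_lipschitz _ (ham_smooth hL) K hK
    (fderiv_off _ K hK.isClosed _ (ham_off hK.isClosed h))

theorem ham_flow {L : E n → ℝ} (hL : ContDiff ℝ ∞ L) {ℓ : E n →L[ℝ] ℝ} {K : Set (E n)}
    (hK : IsCompact K) (h : ∀ z, z ∉ K → L z = ℓ z) :
    ∃ g : ℝ → E n → E n, IsFlowOf (ham L) g := by
  obtain ⟨C, hC⟩ := ham_lip hL hK h
  obtain ⟨M, hM⟩ := exists_bound _ (ham_smooth hL).continuous K hK _ (ham_off hK.isClosed h)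
  exact exists_flow hC hM

/-- an element of the group from a symplectic map which is the identity off a compact set -/
theorem exists_symp (F : E n → E n) (hF : ContDiff ℝ ∞ F)
    (hs : ∀ z u v, omega (fderiv ℝ F z u) (fderiv ℝ F z v) = omega u v)
    (hinj : Injective F) (K : Set (E n)) (hK : IsCompact K) (hoff : ∀ z, z ∉ K → F z = z) :
    ∃ φ : SympCt n, (∀ z, φ.map z = F z) ∧ SuppIn K φ.perm := by
  have hi := inj_of_symp hs
  have hb : Bijective F := ⟨hinj, surj_of F hF hi K hK hoff⟩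
  obtain ⟨G, hG, h1, h2⟩ := exists_smooth_inv F hF hb hi
  let e : Equiv.Perm (E n) := ⟨F, G, h1, h2⟩
  exact ⟨⟨e, ⟨hF, hG, hs⟩, K, hK, hoff⟩, fun _ => rfl, hoff⟩

/-- transitivity, in smooth families -/
theorem exists_family (ℓ₁ ℓ₂ : E n →L[ℝ] ℝ) (h : LinearIndependent ℝ ![ℓ₁, ℓ₂])
    {P : Type} [NormedAddCommGroup P] [NormedSpace ℝ P] [FiniteDimensional ℝ P]
    (K : Set (E n)) (hK : IsCompact K) (hconv : Convex ℝ K) (L₁ L₂ : P → E n → ℝ)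
    (hL₁ : ContDiff ℝ ∞ (fun q : P × E n => L₁ q.1 q.2))
    (hP : ∀ p, IsPair ℓ₁ ℓ₂ K (L₁ p) (L₂ p)) :
    ∃ Φ : P → SympCt n, ContDiff ℝ ∞ (fun q : P × E n => (Φ q.1).map q.2) ∧
      (∀ p, SuppIn K (Φ p).perm) ∧
      ∀ p z, L₁ p ((Φ p).map z) = ℓ₁ z ∧ L₂ p ((Φ p).map z) = ℓ₂ z := by
  obtain ⟨m₁, m₂, h11, h12, h21, h22⟩ := exists_dual ℓ₁ ℓ₂ h
  obtain ⟨R, hR⟩ : ∃ R, ∀ z ∈ K, |m₁ z| ≤ R ∧ |m₂ z| ≤ R := by
    obtain ⟨A, hA⟩ := (hK.image m₁.continuous).isBounded.exists_norm_le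
    obtain ⟨B, hB⟩ := (hK.image m₂.continuous).isBounded.exists_norm_le
    refine ⟨max A B, fun z hz => ⟨?_, ?_⟩⟩
    · exact (hA _ ⟨z, hz, rfl⟩).trans (le_max_left _ _)
    · exact (hB _ ⟨z, hz, rfl⟩).trans (le_max_right _ _)
  have hR1 := fun z hz => (hR z hz).1
  have hR2 := fun z hz => (hR z hz).2
  choose C₁ hC₁ using fun p => ham_lip (hP p).smooth₁ hK (hP p).off₁
  choose C₂ hC₂ using fun p => ham_lip (hP p).smooth₂ hK (hP p).off₂
  choose g₁ hg₁ using fun p => ham_flow (hP p).smooth₁ hK (hP p).off₁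
  choose g₂ hg₂ using fun p => ham_flow (hP p).smooth₂ hK (hP p).off₂
  have hsm : ContDiff ℝ ∞ (fun q : P × E n => wav ℓ₁ m₁ R (g₁ q.1) q.2) := by
    have h1 := smooth_flow_param (fun p => ham (L₁ p)) (ham_smooth_param hL₁) K hK (dual ℓ₁)
      (fun p => ham_off hK.isClosed (hP p).off₁) g₁ hg₁
    have h2 : ContDiff ℝ ∞ (fun q : P × E n => m₁ q.2 + R + 1) :=
      ((m₁.contDiff.comp contDiff_snd).add contDiff_const).add contDiff_const
    exact h1.comp (contDiff_fst.prodMk (h2.prodMk (contDiff_snd.sub (h2.smul contDiff_const))))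
  have hsm' : ∀ p, ContDiff ℝ ∞ (wav ℓ₁ m₁ R (g₁ p)) := fun p =>
    hsm.comp (contDiff_const.prodMk contDiff_id)
  choose Φ hΦ hΦs using fun p => exists_symp (wav ℓ₁ m₁ R (g₁ p)) (hsm' p)
    (wav_symp hK.isClosed (hP p) h11 hR1 (hC₁ p) (hg₁ p))
    (wav_inj hK.isClosed (hP p) h11 hR1 (hC₁ p) (hg₁ p)) K hK
    (fun z hz => wav_off hK.isClosed (hP p) h11 h12 h21 h22 hR1 hR2 (hC₁ p) (hC₂ p) (hg₁ p)
      (hg₂ p) hconv hz)
  refine ⟨Φ, ?_, hΦs, fun p z => ?_⟩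
  · have : (fun q : P × E n => (Φ q.1).map q.2) = fun q => wav ℓ₁ m₁ R (g₁ q.1) q.2 := by
      ext1 q
      exact hΦ q.1 q.2
    rw [this]
    exact hsm
  · rw [hΦ]
    exact ⟨wav_fun₁ hK.isClosed (hP p) h11 hR1 (hC₁ p) (hg₁ p) z,
      wav_fun₂ hK.isClosed (hP p) h11 hR1 (hC₁ p) (hg₁ p) z⟩

/-- `L` determines the symplectomorphism which straightens it -/
theorem unique_of (ℓ : E n →L[ℝ] ℝ) (hℓ : ℓ ≠ 0) (L : E n → ℝ) (φ ψ : SympCt n)
    (h : ∀ z, L (φ.map z) = ℓ z) (h' : ∀ z, L (ψ.map z) = ℓ z) : φ = ψ := by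
  have h1 : φ⁻¹ * ψ = 1 := by
    refine eq_one_of ℓ hℓ _ fun z => ?_
    rw [mul_map, ← h, map_inv_map, h']
  exact (inv_mul_eq_one.1 h1)

/-- brackets are preserved by symplectomorphisms -/
theorem poisson_comp (ψ : SympCt n) (L M : E n → ℝ) (hL : ContDiff ℝ ∞ L)
    (hM : ContDiff ℝ ∞ M) (z : E n) :
    poisson (fun y => L (ψ.map y)) (fun y => M (ψ.map y)) z = poisson L M (ψ.map z) := by
  have hd : DifferentiableAt ℝ ψ.map z := (map_smooth ψ).differentiable (by simp) z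
  have hf : ∀ z u v, omega (fderiv ℝ ψ.map z u) (fderiv ℝ ψ.map z v) = omega u v := ψ.2.1.form
  have hinj := inj_of_symp hf
  have h2 : ∀ N : E n → ℝ, ContDiff ℝ ∞ N → fderiv ℝ (fun y => N (ψ.map y)) z =
      (fderiv ℝ N (ψ.map z)).comp (fderiv ℝ ψ.map z) := fun N hN =>
    fderiv_comp z (hN.differentiable (by simp) _) hd
  have h3 : fderiv ℝ ψ.map z (ham (fun y => M (ψ.map y)) z) = ham M (ψ.map z) := by
    refine omega_inj fun w => ?_
    obtain ⟨v, rfl⟩ : ∃ v, fderiv ℝ ψ.map z v = w := by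
      have : Surjective (fderiv ℝ ψ.map z : E n →ₗ[ℝ] E n) :=
        LinearMap.surjective_of_injective ((injective_iff_map_eq_zero _).2 fun v hv => hinj z v hv)
      exact this w
    rw [hf, omega_ham, omega_ham, h2 M hM]
    rfl
  rw [poisson_eq, poisson_eq, h2 L hL]
  show fderiv ℝ L (ψ.map z) (fderiv ℝ ψ.map z (ham (fun y => M (ψ.map y)) z)) = _
  rw [h3]

/-- the pair obtained from the standard one by a symplectomorphism -/
theorem pair_of (ℓ₁ ℓ₂ : E n →L[ℝ] ℝ) (ψ : SympCt n) {K : Set (E n)} (hK : SuppIn K ψ.perm) :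
    IsPair ℓ₁ ℓ₂ K (fun z => ℓ₁ (ψ.map z)) (fun z => ℓ₂ (ψ.map z)) where
  smooth₁ := ℓ₁.contDiff.comp (map_smooth ψ)
  smooth₂ := ℓ₂.contDiff.comp (map_smooth ψ)
  off₁ z hz := congrArg ℓ₁ (hK z hz)
  off₂ z hz := congrArg ℓ₂ (hK z hz)
  bracket z := by
    rw [poisson_comp ψ ℓ₁ ℓ₂ ℓ₁.contDiff ℓ₂.contDiff, poisson_lin, poisson_lin]

/-- a function which is linear off a compact set and has constant bracket with a nonzero linear
function is linear -/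
theorem lin_of (ℓ ℓ₃ : E n →L[ℝ] ℝ) (hℓ : ℓ ≠ 0) (N : E n → ℝ) (hN : ContDiff ℝ ∞ N)
    (K : Set (E n)) (hK : IsCompact K) (hoff : ∀ z, z ∉ K → N z = ℓ₃ z)
    (hbr : ∀ z, poisson ℓ N z = poisson ℓ ℓ₃ z) (z : E n) : N z = ℓ₃ z := by
  have hne : dual ℓ ≠ 0 := by
    intro h0
    apply hℓ
    refine ContinuousLinearMap.ext fun w => ?_
    rw [← omega_dual, h0]
    simp [omega]
  have hder : ∀ z, fderiv ℝ N z (dual ℓ) = ℓ₃ (dual ℓ) := by
    intro z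
    have h1 := hbr z
    rw [poisson_eq', poisson_eq', ham, ℓ.fderiv, ℓ₃.fderiv] at h1
    linarith
  have hc : ∀ s : ℝ, N (z + s • dual ℓ) - ℓ₃ (z + s • dual ℓ) = N z - ℓ₃ z := by
    intro s
    have h1 : ∀ s : ℝ, HasDerivAt (fun s : ℝ => N (z + s • dual ℓ) - ℓ₃ (z + s • dual ℓ)) 0 s := by
      intro s
      have h2 : HasDerivAt (fun s : ℝ => z + s • dual ℓ) ((1 : ℝ) • dual ℓ) s :=
        ((hasDerivAt_id s).smul_const _).const_add z
      rw [one_smul] at h2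
      have h3 := ((hN.differentiable (by simp)) (z + s • dual ℓ)).hasFDerivAt.comp_hasDerivAt s h2
      rw [hder] at h3
      have h4 := h3.sub (ℓ₃.hasFDerivAt.comp_hasDerivAt s h2)
      rw [sub_self] at h4
      exact h4
    have h5 := is_const_of_deriv_eq_zero (fun s => (h1 s).differentiableAt)
      (fun s => (h1 s).deriv) s 0
    simpa using h5
  obtain ⟨B, hB⟩ := hK.isBounded.exists_norm_le
  obtain ⟨s, hs⟩ : ∃ s : ℝ, B < ‖z + s • dual ℓ‖ := by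
    have hpos : 0 < ‖dual ℓ‖ := norm_pos_iff.2 hne
    refine ⟨(|B| + ‖z‖ + 1) / ‖dual ℓ‖, ?_⟩
    have h1 : ‖((|B| + ‖z‖ + 1) / ‖dual ℓ‖) • dual ℓ‖ = |B| + ‖z‖ + 1 := by
      rw [norm_smul, Real.norm_of_nonneg (by positivity), div_mul_cancel₀ _ hpos.ne']
    have h2 : ‖((|B| + ‖z‖ + 1) / ‖dual ℓ‖) • dual ℓ‖ ≤
        ‖z + ((|B| + ‖z‖ + 1) / ‖dual ℓ‖) • dual ℓ‖ + ‖z‖ := by
      have := norm_sub_le (z + ((|B| + ‖z‖ + 1) / ‖dual ℓ‖) • dual ℓ) z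
      rwa [add_sub_cancel_left] at this
    rw [h1] at h2
    linarith [le_abs_self B]
  have h6 : N (z + s • dual ℓ) = ℓ₃ (z + s • dual ℓ) :=
    hoff _ fun hmem => absurd (hB _ hmem) (not_le.2 hs)
  have := hc s
  rw [h6, sub_self] at this
  linarith

/-- a further function in constant bracket with the first one is straightened as well -/
theorem third (ℓ₁ ℓ₃ : E n →L[ℝ] ℝ) (hℓ : ℓ₁ ≠ 0) (L₁ M : E n → ℝ) (hL : ContDiff ℝ ∞ L₁)
    (hM : ContDiff ℝ ∞ M) (K : Set (E n)) (hK : IsCompact K) (hoff : ∀ z, z ∉ K → M z = ℓ₃ z)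
    (hbr : ∀ z, poisson L₁ M z = poisson ℓ₁ ℓ₃ z) (φ : SympCt n)
    (hφ : ∀ z, L₁ (φ.map z) = ℓ₁ z) (z : E n) : M (φ.map z) = ℓ₃ z := by
  obtain ⟨K', hK', hs⟩ := φ.2.2
  refine lin_of ℓ₁ ℓ₃ hℓ (fun z => M (φ.map z)) (hM.comp (map_smooth φ)) (K ∪ K')
    (hK.union hK') (fun z hz => ?_) (fun z => ?_) z
  · have h1 : φ.map z = z := hs z fun h => hz (Or.inr h)
    rw [h1]
    exact hoff z fun h => hz (Or.inl h)
  · have h2 : (⇑ℓ₁ : E n → ℝ) = fun y => L₁ (φ.map y) := funext fun y => (hφ y).symm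
    have h3 := poisson_comp φ L₁ M hL hM z
    rw [← h2] at h3
    rw [h3, hbr, poisson_lin, poisson_lin]

theorem IsPair.mono {ℓ₁ ℓ₂ : E n →L[ℝ] ℝ} {K K' : Set (E n)} {L₁ L₂ : E n → ℝ}
    (h : IsPair ℓ₁ ℓ₂ K L₁ L₂) (hK : K ⊆ K') : IsPair ℓ₁ ℓ₂ K' L₁ L₂ :=
  ⟨h.smooth₁, h.smooth₂, fun z hz => h.off₁ z fun h' => hz (hK h'),
    fun z hz => h.off₂ z fun h' => hz (hK h'), h.bracket⟩

end Pool.Agent.H822.PairsMain
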