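import Mathlib
import Pool.Agent.H822.Ham
import Pool.Graph.R_seed8.Y453.HB.Stm

/-!
# Flows of time dependent Hamiltonians with compact support
-/

set_option autoImplicit false

open scoped ContDiff
open Set Filter Topology Function
open Pool.Agent.GR.Flow Pool.Agent.H822.Par Pool.Agent.H822.Ham
open Pool.Agent.Y453.HB (E Q XH IsHam)
open Q170.SC (omega)

namespace Pool.Agent.H822.Td

variable {n : ℕ}

theorem XH_eq (h : E n → ℝ) (p : E n) : XH h p = ham h p := rfl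

/-- `ψ` is the flow of the smooth time dependent Hamiltonian `H`, which is zero off the compact
set `K` -/
structure TFlow (H : ℝ → E n → ℝ) (K : Set (E n)) (ψ : ℝ → E n → E n) : Prop where
  smooth : ContDiff ℝ ∞ (fun q : ℝ × E n => H q.1 q.2)
  cpt : IsCompact K
  off : ∀ t x, x ∉ K → H t x = 0
  zero : ∀ x, ψ 0 x = x
  deriv : ∀ t x, HasDerivAt (fun s => ψ s x) (ham (H t) (ψ t x)) t

/-- the time change -/
noncomputable def et (t : ℝ) : ℝ := Real.smoothTransition t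

theorem et_smooth : ContDiff ℝ ∞ et := Real.smoothTransition.contDiff

theorem et_zero {t : ℝ} (h : t ≤ 0) : et t = 0 := Real.smoothTransition.zero_of_nonpos h

theorem et_one {t : ℝ} (h : 1 ≤ t) : et t = 1 := Real.smoothTransition.one_of_one_le h

theorem et_deriv (t : ℝ) : HasDerivAt et (deriv et t) t :=
  (et_smooth.differentiable (by simp) t).hasDerivAt

theorem det_smooth : ContDiff ℝ ∞ (deriv et) := (contDiff_infty_iff_deriv.1 et_smooth).2

theorem det_off {t : ℝ} (h : t ∉ Icc (0 : ℝ) 1) : deriv et t = 0 := by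
  rcases lt_or_ge t 0 with h0 | h0
  · have : et =ᶠ[𝓝 t] fun _ => 0 := by
      filter_upwards [Iio_mem_nhds h0] with s hs using et_zero (le_of_lt hs)
    rw [this.deriv_eq]
    simp
  · have h1 : 1 < t := by
      by_contra h2
      exact h ⟨h0, not_lt.1 h2⟩
    have : et =ᶠ[𝓝 t] fun _ => 1 := by
      filter_upwards [Ioi_mem_nhds h1] with s hs using et_one (le_of_lt hs)
    rw [this.deriv_eq]
    simp

theorem slice_smooth {H : ℝ → E n → ℝ} (hH : ContDiff ℝ ∞ (fun q : ℝ × E n => H q.1 q.2))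
    (t : ℝ) : ContDiff ℝ ∞ (H t) := hH.comp (contDiff_const.prodMk contDiff_id)

theorem ham_smul {L : E n → ℝ} {x : E n} (hL : DifferentiableAt ℝ L x) (c : ℝ) :
    ham (fun y => c * L y) x = c • ham L x := by
  have h1 : fderiv ℝ (fun y => c * L y) x = c • fderiv ℝ L x :=
    (hL.hasFDerivAt.const_mul c).fderiv
  rw [ham, h1]
  exact (dualL n).map_smul c _

theorem TFlow.repar {H : ℝ → E n → ℝ} {K : Set (E n)} {ψ : ℝ → E n → E n} (h : TFlow H K ψ) :
    TFlow (fun t x => _root_.deriv et t * H (et t) x) K (fun t x => ψ (et t) x) where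
  smooth := (det_smooth.comp contDiff_fst).mul
    (h.smooth.comp ((et_smooth.comp contDiff_fst).prodMk contDiff_snd))
  cpt := h.cpt
  off t x hx := by rw [h.off _ x hx, mul_zero]
  zero x := by rw [et_zero le_rfl, h.zero]
  deriv t x := by
    have h1 := (h.deriv (et t) x).scomp t (et_deriv t)
    rw [ham_smul ((slice_smooth h.smooth _).differentiable (by simp) _)]
    exact h1

theorem off_ham {H : ℝ → E n → ℝ} {K : Set (E n)} (hK : IsClosed K)
    (h : ∀ t x, x ∉ K → H t x = 0) (t : ℝ) (x : E n) (hx : x ∉ K) : ham (H t) x = 0 := by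
  have h1 := ham_off (L := H t) (ℓ := 0) hK (fun z hz => by simpa using h t z hz) x hx
  rw [h1]
  exact (dualL n).map_zero

/-- the vector field on space-time -/
noncomputable def Z (H : ℝ → E n → ℝ) (q : ℝ × E n) : ℝ × E n := (1, ham (H q.1) q.2)

variable {H : ℝ → E n → ℝ} {K : Set (E n)} {ψ : ℝ → E n → E n}

theorem Z_smooth (h : TFlow H K ψ) : ContDiff ℝ ∞ (Z H) :=
  contDiff_const.prodMk (ham_smooth_param h.smooth)

theorem Z_off (h : TFlow H K ψ) (ht : ∀ t, t ∉ Icc (0 : ℝ) 1 → ∀ x, H t x = 0) (q : ℝ × E n)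
    (hq : q ∉ Icc (0 : ℝ) 1 ×ˢ K) : Z H q = (1, 0) := by
  rw [mem_prod, not_and_or] at hq
  rcases hq with hq | hq
  · have h1 : H q.1 = fun _ => 0 := funext (ht q.1 hq)
    have h2 : ham (H q.1) q.2 = 0 := by
      rw [h1, ham]
      simp only [fderiv_fun_const]
      exact (dualL n).map_zero
    rw [Z, h2]
  · rw [Z, off_ham h.cpt.isClosed h.off q.1 q.2 hq]

theorem Z_lip (h : TFlow H K ψ) (ht : ∀ t, t ∉ Icc (0 : ℝ) 1 → ∀ x, H t x = 0) :
    ∃ C : NNReal, LipschitzWith C (Z H) :=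
  exists_lipschitz _ (Z_smooth h) _ (isCompact_Icc.prod h.cpt)
    (fderiv_off _ _ (isClosed_Icc.prod h.cpt.isClosed) _ (Z_off h ht))

/-- the flow on space-time -/
theorem Z_flow (h : TFlow H K ψ) (ht : ∀ t, t ∉ Icc (0 : ℝ) 1 → ∀ x, H t x = 0) :
    ∃ g : ℝ → ℝ × E n → ℝ × E n, IsFlowOf (Z H) g ∧ (∀ s x, g s (0, x) = (s, ψ s x)) ∧
      (∀ s q, (g s q).1 = q.1 + s) ∧ (∀ s t q, g (s + t) q = g s (g t q)) ∧
      ContDiff ℝ ∞ (fun p : ℝ × (ℝ × E n) => g p.1 p.2) := by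
  obtain ⟨C, hC⟩ := Z_lip h ht
  obtain ⟨M, hM⟩ := exists_bound _ (Z_smooth h).continuous _ (isCompact_Icc.prod h.cpt) _
    (Z_off h ht)
  obtain ⟨g, hg⟩ := exists_flow hC hM
  refine ⟨g, hg, fun s x => ?_, fun s q => ?_, fun s t q => hg.add hC s t q,
    contDiff_flow_infty (Z_smooth h) hC hg⟩
  · symm
    refine IsFlowOf.unique hC hg (γ := fun s => (s, ψ s x)) (x := (0, x)) ?_ ?_ s
    · show (0, ψ 0 x) = (0, x)
      rw [h.zero]
    · intro t
      exact (hasDerivAt_id t).prodMk (h.deriv t x)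
  · have h1 : ∀ t, HasDerivAt (fun t => (g t q).1 - t) 0 t := by
      intro t
      have h2 := (ContinuousLinearMap.fst ℝ ℝ (E n)).hasFDerivAt.comp_hasDerivAt t (hg.deriv q t)
      have h3 := h2.sub (hasDerivAt_id t)
      have h4 : (ContinuousLinearMap.fst ℝ ℝ (E n)) (Z H (g t q)) - 1 = 0 := by
        show (1 : ℝ) - 1 = 0
        norm_num
      rw [h4] at h3
      exact h3
    have h5 := is_const_of_deriv_eq_zero (fun s => (h1 s).differentiableAt)
      (fun s => (h1 s).deriv) s 0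
    rw [hg.zero] at h5
    linarith

theorem flow_smooth (h : TFlow H K ψ) (ht : ∀ t, t ∉ Icc (0 : ℝ) 1 → ∀ x, H t x = 0) :
    ContDiff ℝ ∞ (fun q : ℝ × E n => ψ q.1 q.2) := by
  obtain ⟨g, -, h2, -, -, h5⟩ := Z_flow h ht
  have h6 : (fun q : ℝ × E n => ψ q.1 q.2) = fun q => (g q.1 (0, q.2)).2 := by
    ext1 q
    rw [h2]
  rw [h6]
  exact contDiff_snd.comp (h5.comp (contDiff_fst.prodMk (contDiff_const.prodMk contDiff_snd)))

theorem flow_bij (h : TFlow H K ψ) (ht : ∀ t, t ∉ Icc (0 : ℝ) 1 → ∀ x, H t x = 0) (t : ℝ) :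
    Bijective (ψ t) := by
  obtain ⟨g, hg, h2, h3, h4, -⟩ := Z_flow h ht
  constructor
  · intro x y hxy
    have e1 : g t (0, x) = g t (0, y) := by rw [h2, h2, hxy]
    have e2 : g (-t) (g t (0, x)) = g (-t) (g t (0, y)) := by rw [e1]
    rw [← h4, ← h4, neg_add_cancel, hg.zero, hg.zero] at e2
    exact congrArg Prod.snd e2
  · intro y
    have e1 : (g (-t) (t, y)).1 = 0 := by rw [h3]; simp
    refine ⟨(g (-t) (t, y)).2, ?_⟩
    have e2 : g (-t) (t, y) = (0, (g (-t) (t, y)).2) := Prod.ext e1 rfl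
    have e3 : g t (g (-t) (t, y)) = (t, y) := by
      rw [← h4, add_neg_cancel, hg.zero]
    rw [e2, h2] at e3
    exact congrArg Prod.snd e3

theorem flow_off (h : TFlow H K ψ) (ht : ∀ t, t ∉ Icc (0 : ℝ) 1 → ∀ x, H t x = 0) (t : ℝ)
    {x : E n} (hx : x ∉ K) : ψ t x = x := by
  obtain ⟨C, hC⟩ := Z_lip h ht
  obtain ⟨g, hg, h2, -, -, -⟩ := Z_flow h ht
  have h3 := IsFlowOf.unique hC hg (γ := fun s => (s, x)) (x := (0, x)) rfl (fun s => by
    have h4 : Z H (s, x) = (1, 0) := by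
      rw [Z, off_ham h.cpt.isClosed h.off s x hx]
    rw [h4]
    exact (hasDerivAt_id s).prodMk (hasDerivAt_const s x)) t
  rw [h2] at h3
  exact (congrArg Prod.snd h3).symm

/-- exchange of the derivatives -/
theorem swap {Φ : ℝ × E n → E n} (hΦ : ContDiff ℝ ∞ Φ) {X : ℝ × E n → E n}
    (hX : ContDiff ℝ ∞ X)
    (hd : ∀ s x, HasDerivAt (fun s => Φ (s, x)) (X (s, Φ (s, x))) s) (s : ℝ) (x v : E n) :
    HasDerivAt (fun s => fderiv ℝ (fun y => Φ (s, y)) x v)
      (fderiv ℝ (fun y => X (s, y)) (Φ (s, x)) (fderiv ℝ (fun y => Φ (s, y)) x v)) s := by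
  have hdΦ : ∀ q, HasFDerivAt Φ (fderiv ℝ Φ q) q := fun q =>
    (hΦ.differentiable (by simp) q).hasFDerivAt
  have e1 : ∀ s y w, fderiv ℝ (fun y => Φ (s, y)) y w = fderiv ℝ Φ (s, y) (0, w) := by
    intro s y w
    have h1 : HasFDerivAt (fun y : E n => (s, y)) (ContinuousLinearMap.inr ℝ ℝ (E n)) y :=
      hasFDerivAt_prodMk_right s y
    have h2 : fderiv ℝ (fun y => Φ (s, y)) y =
        (fderiv ℝ Φ (s, y)).comp (ContinuousLinearMap.inr ℝ ℝ (E n)) :=
      ((hdΦ (s, y)).comp y h1).fderiv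
    rw [h2]
    rfl
  have e2 : ∀ s y, fderiv ℝ Φ (s, y) (1, 0) = X (s, Φ (s, y)) := by
    intro s y
    have h1 : HasFDerivAt (fun s : ℝ => (s, y)) (ContinuousLinearMap.inl ℝ ℝ (E n)) s :=
      hasFDerivAt_prodMk_left s y
    have h2 := ((hdΦ (s, y)).comp s h1).hasDerivAt
    exact h2.unique (hd s y)
  have hD : ContDiff ℝ ∞ (fderiv ℝ Φ) := hΦ.fderiv_right (m := ∞) (by simp)
  have hdD : ∀ q, HasFDerivAt (fderiv ℝ Φ) (fderiv ℝ (fderiv ℝ Φ) q) q := fun q =>
    (hD.differentiable (by simp) q).hasFDerivAt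
  have e3 : HasDerivAt (fun s => fderiv ℝ Φ (s, x) (0, v))
      (fderiv ℝ (fderiv ℝ Φ) (s, x) (1, 0) (0, v)) s := by
    have h1 : HasFDerivAt (fun s : ℝ => (s, x)) (ContinuousLinearMap.inl ℝ ℝ (E n)) s :=
      hasFDerivAt_prodMk_left s x
    have h2 := ((hdD (s, x)).comp s h1).hasDerivAt
    exact h2.clm_apply (hasDerivAt_const s _) |>.congr_deriv (by simp)
  have hsym : IsSymmSndFDerivAt ℝ Φ (s, x) := (hΦ.contDiffAt).isSymmSndFDerivAt (by
    rw [minSmoothness_of_isRCLikeNormedField]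
    have : ((2 : ℕ∞) : WithTop ℕ∞) ≤ ((⊤ : ℕ∞) : WithTop ℕ∞) := WithTop.coe_le_coe.2 le_top
    exact this)
  have e4 : fderiv ℝ (fderiv ℝ Φ) (s, x) (0, v) (1, 0) =
      fderiv ℝ (fun y => X (s, y)) (Φ (s, x)) (fderiv ℝ (fun y => Φ (s, y)) x v) := by
    have h1 : HasFDerivAt (fun y : E n => (s, y)) (ContinuousLinearMap.inr ℝ ℝ (E n)) x :=
      hasFDerivAt_prodMk_right s x
    have h2 := (hdD (s, x)).comp x h1
    have h3 : HasFDerivAt (fun y => fderiv ℝ Φ (s, y) (1, 0)) _ x :=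
      h2.clm_apply (hasFDerivAt_const (((1 : ℝ), (0 : E n))) x)
    have h4 : HasFDerivAt (fun y => X (s, Φ (s, y)))
        ((fderiv ℝ (fun y => X (s, y)) (Φ (s, x))).comp (fderiv ℝ (fun y => Φ (s, y)) x)) x := by
      have h5 : DifferentiableAt ℝ (fun y => X (s, y)) (Φ (s, x)) :=
        (hX.comp (contDiff_const.prodMk contDiff_id)).differentiable (by simp) _
      have h6 : DifferentiableAt ℝ (fun y => Φ (s, y)) x :=
        (hΦ.comp (contDiff_const.prodMk contDiff_id)).differentiable (by simp) _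
      exact h5.hasFDerivAt.comp x h6.hasFDerivAt
    have h7 : (fun y => fderiv ℝ Φ (s, y) (1, 0)) = fun y => X (s, Φ (s, y)) :=
      funext fun y => e2 s y
    rw [h7] at h3
    have h8 := DFunLike.congr_fun (h3.unique h4) v
    simpa using h8
  rw [← e4, ← hsym]
  refine e3.congr_of_eventuallyEq ?_
  filter_upwards with r
  exact e1 r x v

/-- the spatial derivative of the flow satisfies the linearised equation -/
theorem flow_swap (h : TFlow H K ψ) (ht : ∀ t, t ∉ Icc (0 : ℝ) 1 → ∀ x, H t x = 0)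
    (s : ℝ) (x v : E n) : HasDerivAt (fun s => fderiv ℝ (ψ s) x v)
      (fderiv ℝ (ham (H s)) (ψ s x) (fderiv ℝ (ψ s) x v)) s :=
  swap (Φ := fun q => ψ q.1 q.2) (flow_smooth h ht) (X := fun q => ham (H q.1) q.2)
    (ham_smooth_param h.smooth) (fun s x => h.deriv s x) s x v

theorem flow_sympl (h : TFlow H K ψ) (ht : ∀ t, t ∉ Icc (0 : ℝ) 1 → ∀ x, H t x = 0)
    (s : ℝ) (x u v : E n) : omega (fderiv ℝ (ψ s) x u) (fderiv ℝ (ψ s) x v) = omega u v := by
  have h1 : ∀ s, HasDerivAt (fun s => omega (fderiv ℝ (ψ s) x u) (fderiv ℝ (ψ s) x v)) 0 s := by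
    intro s
    have h2 := hasDerivAt_omega (flow_swap h ht s x u) (flow_swap h ht s x v)
    rwa [infinit (slice_smooth h.smooth s)] at h2
  have h5 := is_const_of_deriv_eq_zero (fun s => (h1 s).differentiableAt)
    (fun s => (h1 s).deriv) s 0
  rw [h5]
  have e0 : ψ 0 = id := funext h.zero
  rw [e0, fderiv_id]
  rfl

end Pool.Agent.H822.Td
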