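import Mathlib
import Pool.Agent.H822.Td

/-!
# Integration on `ℝ^{2n}`
-/

set_option autoImplicit false

open scoped ContDiff
open Set Filter Topology Function MeasureTheory
open Pool.Agent.GR.Flow Pool.Agent.H822.Par Pool.Agent.H822.Ham
open Pool.Agent.Y453.HB (E Q XH IsHam)
open Q170.SC (omega)

namespace Pool.Agent.H822.Int

variable {n : ℕ}

instance haar (n : ℕ) : (volume : Measure (E n)).IsAddHaarMeasure :=
  Measure.prod.instIsAddHaarMeasure (volume : Measure (Fin n → ℝ)) (volume : Measure (Fin n → ℝ))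

/-- the symplectic form as a bilinear form -/
noncomputable def bf (n : ℕ) : LinearMap.BilinForm ℝ (E n) :=
  LinearMap.mk₂ ℝ omega omega_add_left (fun c u v => omega_smul_left c u v)
    omega_add_right (fun c u v => omega_smul_right c u v)

theorem bf_apply (u v : E n) : bf n u v = omega u v := rfl

/-- a linear map which preserves the symplectic form has determinant `±1` -/
theorem abs_det (A : E n →L[ℝ] E n) (hA : ∀ u v, omega (A u) (A v) = omega u v) :
    |A.det| = 1 := by
  let b := Module.finBasis ℝ (E n)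
  have h1 : (bf n).comp (A : E n →ₗ[ℝ] E n) (A : E n →ₗ[ℝ] E n) = bf n := by
    apply LinearMap.ext₂
    intro u v
    exact hA u v
  have h2 := LinearMap.BilinForm.toMatrix_comp (b := b) (c := b) (bf n)
    (A : E n →ₗ[ℝ] E n) (A : E n →ₗ[ℝ] E n)
  rw [h1] at h2
  have h3 := congrArg Matrix.det h2
  rw [Matrix.det_mul, Matrix.det_mul, Matrix.det_transpose] at h3
  have h4 : (LinearMap.BilinForm.toMatrix b (bf n)).det ≠ 0 := by
    rw [← LinearMap.BilinForm.nondegenerate_iff_det_ne_zero]
    constructor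
    · intro u hu
      refine omega_inj fun w => ?_
      have h0 : omega (0 : E n) w = 0 := by simp [omega]
      rw [h0]
      exact hu w
    · intro u hu
      refine omega_inj fun w => ?_
      have h0 : omega (0 : E n) w = 0 := by simp [omega]
      rw [h0, omega_swap, neg_eq_zero]
      exact hu w
  have h5 : A.det = (LinearMap.toMatrix b b (A : E n →ₗ[ℝ] E n)).det := by
    rw [ContinuousLinearMap.det, LinearMap.det_toMatrix]
  rw [← h5] at h3
  have h6 : A.det * A.det = 1 := by
    have : (LinearMap.BilinForm.toMatrix b (bf n)).det * (A.det * A.det) =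
        (LinearMap.BilinForm.toMatrix b (bf n)).det * 1 := by
      rw [mul_one]
      linarith
    exact mul_left_cancel₀ h4 this
  have h7 : |A.det| * |A.det| = 1 := by rw [← abs_mul, h6, abs_one]
  nlinarith [abs_nonneg A.det]

/-- a differentiable bijection with Jacobian `±1` preserves the Lebesgue measure -/
theorem mp_of_det (g : E n → E n) (hb : Bijective g) (hd : Differentiable ℝ g)
    (hdet : ∀ p, |(fderiv ℝ g p).det| = 1) : MeasurePreserving g volume volume := by
  have hc : Continuous g := hd.continuous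
  refine ⟨hc.measurable, ?_⟩
  ext s hs
  rw [Measure.map_apply hc.measurable hs]
  have h1 := lintegral_abs_det_fderiv_eq_addHaar_image volume (hc.measurable hs)
    (fun p _ => (hd p).hasFDerivAt.hasFDerivWithinAt) (hb.injective.injOn (s := g ⁻¹' s))
  rw [image_preimage_eq _ hb.surjective] at h1
  rw [← h1]
  simp [hdet]

theorem mp_of_symp (g : E n → E n) (hb : Bijective g) (hd : Differentiable ℝ g)
    (hs : ∀ z u v, omega (fderiv ℝ g z u) (fderiv ℝ g z v) = omega u v) :
    MeasurePreserving g volume volume :=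
  mp_of_det g hb hd fun p => abs_det _ (hs p)

theorem integral_comp {g : E n → E n} (hb : Bijective g) (hd : ContDiff ℝ ∞ g)
    (hs : ∀ z u v, omega (fderiv ℝ g z u) (fderiv ℝ g z v) = omega u v) (F : E n → ℝ) :
    ∫ x, F (g x) = ∫ x, F x :=
  (mp_of_symp g hb (hd.differentiable (by simp)) hs).integral_comp
    (hd.continuous.measurableEmbedding hb.injective) F

/-- a continuous function with compact support is integrable -/
theorem integrable_of {F : E n → ℝ} (hF : Continuous F) {K : Set (E n)} (hK : IsCompact K)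
    (h0 : ∀ x, x ∉ K → F x = 0) : Integrable F :=
  hF.integrable_of_hasCompactSupport (HasCompactSupport.intro hK h0)

theorem fderiv_off' {F : E n → ℝ} {K : Set (E n)} (hK : IsCompact K)
    (h0 : ∀ x, x ∉ K → F x = 0) : ∀ x, x ∉ K → fderiv ℝ F x = 0 :=
  fderiv_off F K hK.isClosed 0 h0

theorem parts {F G : E n → ℝ} (hF : ContDiff ℝ ∞ F) (hG : ContDiff ℝ ∞ G) {K : Set (E n)}
    (hK : IsCompact K) (h0 : ∀ x, x ∉ K → F x = 0) (v : E n) :
    ∫ x, F x * fderiv ℝ G x v = - ∫ x, fderiv ℝ F x v * G x := by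
  have hcF : Continuous (fun x => fderiv ℝ F x v) :=
    (hF.continuous_fderiv (by simp)).clm_apply continuous_const
  have hcG : Continuous (fun x => fderiv ℝ G x v) :=
    (hG.continuous_fderiv (by simp)).clm_apply continuous_const
  refine integral_mul_fderiv_eq_neg_fderiv_mul_of_integrable ?_ ?_ ?_
    (fun x _ => hF.differentiable (by simp) x) (fun x _ => hG.differentiable (by simp) x)
  · refine integrable_of (hcF.mul hG.continuous) hK fun x hx => ?_
    rw [fderiv_off' hK h0 x hx]
    simp
  · refine integrable_of (hF.continuous.mul hcG) hK fun x hx => ?_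
    rw [h0 x hx, zero_mul]
  · refine integrable_of (hF.continuous.mul hG.continuous) hK fun x hx => ?_
    rw [h0 x hx, zero_mul]

/-- the first coordinates -/
noncomputable def cx (i : Fin n) : E n →L[ℝ] ℝ :=
  (ContinuousLinearMap.proj i).comp (ContinuousLinearMap.fst ℝ (Fin n → ℝ) (Fin n → ℝ))

/-- the second coordinates -/
noncomputable def cy (i : Fin n) : E n →L[ℝ] ℝ :=
  (ContinuousLinearMap.proj i).comp (ContinuousLinearMap.snd ℝ (Fin n → ℝ) (Fin n → ℝ))

theorem cx_apply (i : Fin n) (x : E n) : cx i x = x.1 i := rfl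

theorem cy_apply (i : Fin n) (x : E n) : cy i x = x.2 i := rfl

theorem parts_one {F : E n → ℝ} (hF : ContDiff ℝ ∞ F) {K : Set (E n)}
    (hK : IsCompact K) (h0 : ∀ x, x ∉ K → F x = 0) (a : E n →L[ℝ] ℝ) (v : E n) (hav : a v = 1) :
    ∫ x, a x * fderiv ℝ F x v = - ∫ x, F x := by
  have h1 := parts hF a.contDiff hK h0 v
  have h2 : ∀ x, fderiv ℝ a x v = 1 := fun x => by rw [a.fderiv, hav]
  simp only [h2, mul_one] at h1
  rw [h1, neg_neg]
  refine integral_congr_ae (ae_of_all _ fun x => ?_)
  show a x * _ = _ * a x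
  ring

/-- integration by parts with the radial field -/
theorem radial {F : E n → ℝ} (hF : ContDiff ℝ ∞ F) {K : Set (E n)}
    (hK : IsCompact K) (h0 : ∀ x, x ∉ K → F x = 0) :
    ∫ x, fderiv ℝ F x x = - (2 * n) * ∫ x, F x := by
  have hc : ∀ v, Continuous (fun x => fderiv ℝ F x v) := fun v =>
    (hF.continuous_fderiv (by simp)).clm_apply continuous_const
  have e1 : ∀ x, fderiv ℝ F x x =
      ∑ i, (cx i x * fderiv ℝ F x (ex i) + cy i x * fderiv ℝ F x (ey i)) := fun x =>
    apply_dec _ x
  simp_rw [e1]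
  have hi : ∀ (a : E n →L[ℝ] ℝ) (v : E n), Integrable fun x => a x * fderiv ℝ F x v := by
    intro a v
    refine integrable_of (a.continuous.mul (hc v)) hK fun x hx => ?_
    rw [fderiv_off' hK h0 x hx]
    simp
  have e3 : ∫ x, ∑ i, (cx i x * fderiv ℝ F x (ex i) + cy i x * fderiv ℝ F x (ey i)) =
      ∑ i, ∫ x, (cx i x * fderiv ℝ F x (ex i) + cy i x * fderiv ℝ F x (ey i)) :=
    integral_finsetSum _ fun i _ => (hi (cx i) (ex i)).add (hi (cy i) (ey i))
  rw [e3]
  have e2 : ∀ i : Fin n, ∫ x, (cx i x * fderiv ℝ F x (ex i) + cy i x * fderiv ℝ F x (ey i)) =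
      -2 * ∫ x, F x := by
    intro i
    rw [integral_add (hi _ _) (hi _ _), parts_one hF hK h0 (cx i) (ex i) (by simp [cx, ex]),
      parts_one hF hK h0 (cy i) (ey i) (by simp [cy, ey])]
    ring
  simp_rw [e2]
  rw [Finset.sum_const, Finset.card_univ, Fintype.card_fin, nsmul_eq_mul]
  ring

/-- derivative under the integral sign -/
theorem deriv_integral {f : ℝ → E n → ℝ} (hf : ContDiff ℝ ∞ (fun q : ℝ × E n => f q.1 q.2))
    {K : Set (E n)} (hK : IsCompact K) (h0 : ∀ s x, x ∉ K → f s x = 0) {f' : ℝ → E n → ℝ}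
    (hd : ∀ s x, HasDerivAt (fun s => f s x) (f' s x) s) (s : ℝ) :
    HasDerivAt (fun s => ∫ x, f s x) (∫ x, f' s x) s := by
  have e1 : ∀ s x, f' s x = fderiv ℝ (fun q : ℝ × E n => f q.1 q.2) (s, x) (1, 0) := by
    intro s x
    have h1 : HasFDerivAt (fun s : ℝ => (s, x)) (ContinuousLinearMap.inl ℝ ℝ (E n)) s :=
      hasFDerivAt_prodMk_left s x
    have h2 := ((hf.differentiable (by simp) (s, x)).hasFDerivAt.comp s h1).hasDerivAt
    exact (hd s x).unique h2
  have hc : Continuous (fun q : ℝ × E n => f' q.1 q.2) := by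
    have h2 : Continuous (fun q : ℝ × E n =>
        fderiv ℝ (fun q : ℝ × E n => f q.1 q.2) q (1, 0)) :=
      (hf.continuous_fderiv (by simp)).clm_apply continuous_const
    have h3 : (fun q : ℝ × E n => f' q.1 q.2) =
        fun q => fderiv ℝ (fun q : ℝ × E n => f q.1 q.2) q (1, 0) := by
      ext q
      rw [e1]
    rw [h3]
    exact h2
  have h0' : ∀ s x, x ∉ K → f' s x = 0 := by
    intro s x hx
    have h1 : (fun s => f s x) = fun _ => 0 := funext fun s => h0 s x hx
    have h2 := hd s x
    rw [h1] at h2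
    exact h2.unique (hasDerivAt_const s 0)
  obtain ⟨C, hC⟩ := ((isCompact_Icc (a := s - 1) (b := s + 1)).prod hK).image hc
    |>.isBounded.exists_norm_le
  have hcs : ∀ s, Continuous (f s) := fun s =>
    hf.continuous.comp (continuous_const.prodMk continuous_id)
  refine (hasDerivAt_integral_of_dominated_loc_of_deriv_le (s := Icc (s - 1) (s + 1))
    (bound := K.indicator fun _ => C) (Icc_mem_nhds (by linarith) (by linarith))
    (Eventually.of_forall fun s => (hcs s).aestronglyMeasurable)
    (integrable_of (hcs s) hK (h0 s)) ?_ (ae_of_all _ fun x r hr => ?_) ?_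
    (ae_of_all _ fun x r _ => hd r x)).2
  · exact (hc.comp (continuous_const.prodMk continuous_id)).aestronglyMeasurable
  · by_cases hx : x ∈ K
    · rw [indicator_of_mem hx]
      exact hC _ ⟨(r, x), ⟨hr, hx⟩, rfl⟩
    · rw [indicator_of_notMem hx, h0' r x hx, norm_zero]
  · exact (integrable_indicator_iff hK.measurableSet).2
      (integrableOn_const (hK.measure_lt_top.ne))

end Pool.Agent.H822.Int
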