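import Mathlib
import Pool.Agent.H822.Int

/-!
# The Calabi invariant of a Hamiltonian diffeomorphism in terms of the diffeomorphism
-/

set_option autoImplicit false

open scoped ContDiff
open Set Filter Topology Function MeasureTheory
open Pool.Agent.GR.Flow Pool.Agent.H822.Par Pool.Agent.H822.Ham Pool.Agent.H822.Td
open Pool.Agent.H822.Int
open Pool.Agent.Y453.HB (E Q XH IsHam)
open Q170.SC (omega)

namespace Pool.Agent.H822.Cal

variable {n : ℕ}

/-- the integral of `ω(u(x), Du(x) x)` -/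
noncomputable def cI (u : E n → E n) : ℝ := ∫ x, omega (u x) (fderiv ℝ u x x)

/-- `-1 / (4n(n+1))` times the integral of `ω(u(x), Du(x) x)` -/
noncomputable def cal (u : E n → E n) : ℝ := - cI u / (4 * n * (n + 1))

theorem omega_contDiff {W : Type} [NormedAddCommGroup W] [NormedSpace ℝ W] {a b : W → E n}
    (ha : ContDiff ℝ ∞ a) (hb : ContDiff ℝ ∞ b) : ContDiff ℝ ∞ fun q => omega (a q) (b q) :=
  ((omL n).contDiff.comp ha).clm_apply hb

theorem omega_self (u : E n) : omega u u = 0 := by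
  have := omega_swap u u
  linarith

theorem fd_joint {Φ : ℝ × E n → E n} (hΦ : ContDiff ℝ ∞ Φ) :
    ContDiff ℝ ∞ (fun q : ℝ × E n => fderiv ℝ (fun y => Φ (q.1, y)) q.2 q.2) := by
  have h1 : ContDiff ℝ ∞ (fun q : ℝ × E n => fderiv ℝ (fun y => Φ (q.1, y)) q.2) := by
    refine ContDiff.fderiv (m := ∞) (n := ∞) ?_ contDiff_snd (by simp)
    exact hΦ.comp ((contDiff_fst.comp contDiff_fst).prodMk contDiff_snd)
  exact h1.clm_apply contDiff_snd

section

variable {H : ℝ → E n → ℝ} {K : Set (E n)} {ψ : ℝ → E n → E n}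

theorem psi_smooth (h : TFlow H K ψ) (ht : ∀ t, t ∉ Icc (0 : ℝ) 1 → ∀ x, H t x = 0) (s : ℝ) :
    ContDiff ℝ ∞ (ψ s) := (flow_smooth h ht).comp (contDiff_const.prodMk contDiff_id)

theorem fderiv_id_off {u : E n → E n} (hK : IsClosed K) (h : ∀ x, x ∉ K → u x = x) {x : E n}
    (hx : x ∉ K) : fderiv ℝ u x = ContinuousLinearMap.id ℝ (E n) := by
  have h1 : u =ᶠ[𝓝 x] id := by
    filter_upwards [hK.isOpen_compl.mem_nhds hx] with y hy using h y hy
  rw [h1.fderiv_eq, fderiv_id]

/-- the integral of the Hamiltonian -/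
noncomputable def mean (H : ℝ → E n → ℝ) (s : ℝ) : ℝ := ∫ x, H s x

theorem mean_cont (hH : ContDiff ℝ ∞ (fun q : ℝ × E n => H q.1 q.2)) (hK : IsCompact K)
    (h0 : ∀ t x, x ∉ K → H t x = 0) : Continuous (mean H) := by
  have hd : ∀ s x, HasDerivAt (fun s => H s x)
      (fderiv ℝ (fun q : ℝ × E n => H q.1 q.2) (s, x) (1, 0)) s := by
    intro s x
    have h1 : HasFDerivAt (fun s : ℝ => (s, x)) (ContinuousLinearMap.inl ℝ ℝ (E n)) s :=
      hasFDerivAt_prodMk_left s x
    exact ((hH.differentiable (by simp) (s, x)).hasFDerivAt.comp s h1).hasDerivAt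
  exact continuous_iff_continuousAt.2 fun s =>
    (deriv_integral (f := H) hH hK h0 (f' := fun s x =>
      fderiv ℝ (fun q : ℝ × E n => H q.1 q.2) (s, x) (1, 0)) hd s).continuousAt

theorem deriv_cI (h : TFlow H K ψ) (ht : ∀ t, t ∉ Icc (0 : ℝ) 1 → ∀ x, H t x = 0) (s : ℝ) :
    HasDerivAt (fun s => cI (ψ s)) (-(4 * n * (n + 1)) * mean H s) s := by
  have hψ := flow_smooth h ht
  set f : ℝ → E n → ℝ := fun s x => omega (ψ s x) (fderiv ℝ (ψ s) x x) with hf
  set f' : ℝ → E n → ℝ := fun s x => omega (ham (H s) (ψ s x)) (fderiv ℝ (ψ s) x x) +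
    omega (ψ s x) (fderiv ℝ (ham (H s)) (ψ s x) (fderiv ℝ (ψ s) x x)) with hf'
  have h1 : ContDiff ℝ ∞ (fun q : ℝ × E n => f q.1 q.2) :=
    omega_contDiff hψ (fd_joint (Φ := fun q => ψ q.1 q.2) hψ)
  have h2 : ∀ s x, x ∉ K → f s x = 0 := by
    intro s x hx
    rw [hf]
    simp only
    rw [fderiv_id_off h.cpt.isClosed (fun y hy => flow_off h ht s hy) hx, flow_off h ht s hx]
    exact omega_self x
  have h3 : ∀ s x, HasDerivAt (fun s => f s x) (f' s x) s := fun s x =>
    hasDerivAt_omega (h.deriv s x) (flow_swap h ht s x x)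
  have h4 := deriv_integral h1 h.cpt h2 h3 s
  have key : ∫ x, f' s x = -(4 * n * (n + 1)) * mean H s := by
    have hHs := slice_smooth h.smooth s
    have hψs := psi_smooth h ht s
    have hdH : ∀ y, HasFDerivAt (H s) (fderiv ℝ (H s) y) y := fun y =>
      (hHs.differentiable (by simp) y).hasFDerivAt
    have hDH : ContDiff ℝ ∞ (fderiv ℝ (H s)) := hHs.fderiv_right (m := ∞) (by simp)
    have hdDH : ∀ y, HasFDerivAt (fderiv ℝ (H s)) (fderiv ℝ (fderiv ℝ (H s)) y) y := fun y =>
      (hDH.differentiable (by simp) y).hasFDerivAt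
    have hdψ : ∀ y, HasFDerivAt (ψ s) (fderiv ℝ (ψ s) y) y := fun y =>
      (hψs.differentiable (by simp) y).hasFDerivAt
    set G : E n → ℝ := fun y => fderiv ℝ (H s) y y with hG
    have hGs : ContDiff ℝ ∞ G := hDH.clm_apply contDiff_id
    have hG0 : ∀ x, x ∉ K → G x = 0 := by
      intro x hx
      rw [hG]
      simp only
      rw [fderiv_off' h.cpt (h.off s) x hx]
      rfl
    have hdG : ∀ y v, fderiv ℝ G y v = fderiv ℝ (fderiv ℝ (H s)) y v y + fderiv ℝ (H s) y v := by
      intro y v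
      have e1 := (hdDH y).clm_apply (hasFDerivAt_id y)
      have e2 : HasFDerivAt G _ y := e1
      rw [e2.fderiv]
      simp [add_comm]
    set F1 : E n → ℝ := fun x => H s (ψ s x) with hF1
    set F2 : E n → ℝ := fun x => G (ψ s x) with hF2
    have hF1s : ContDiff ℝ ∞ F1 := hHs.comp hψs
    have hF2s : ContDiff ℝ ∞ F2 := hGs.comp hψs
    have hF10 : ∀ x, x ∉ K → F1 x = 0 := by
      intro x hx
      rw [hF1]
      simp only
      rw [flow_off h ht s hx, h.off s x hx]
    have hF20 : ∀ x, x ∉ K → F2 x = 0 := by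
      intro x hx
      rw [hF2]
      simp only
      rw [flow_off h ht s hx, hG0 x hx]
    have dF1 : ∀ x, fderiv ℝ F1 x x = fderiv ℝ (H s) (ψ s x) (fderiv ℝ (ψ s) x x) := by
      intro x
      have e1 : HasFDerivAt F1 _ x := (hdH (ψ s x)).comp x (hdψ x)
      rw [e1.fderiv]
      rfl
    have dF2 : ∀ x, fderiv ℝ F2 x x = fderiv ℝ G (ψ s x) (fderiv ℝ (ψ s) x x) := by
      intro x
      have e1 : HasFDerivAt F2 _ x :=
        ((hGs.differentiable (by simp) (ψ s x)).hasFDerivAt).comp x (hdψ x)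
      rw [e1.fderiv]
      rfl
    have hsym : ∀ y, IsSymmSndFDerivAt ℝ (H s) y := fun y =>
      (hHs.contDiffAt).isSymmSndFDerivAt (by
        rw [minSmoothness_of_isRCLikeNormedField]
        have : ((2 : ℕ∞) : WithTop ℕ∞) ≤ ((⊤ : ℕ∞) : WithTop ℕ∞) := WithTop.coe_le_coe.2 le_top
        exact this)
    have e3 : ∀ x, f' s x = 2 * fderiv ℝ F1 x x - fderiv ℝ F2 x x := by
      intro x
      rw [hf']
      simp only
      rw [omega_ham, dF2, hdG, dF1]
      have e4 := infinit hHs (ψ s x) (ψ s x) (fderiv ℝ (ψ s) x x)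
      rw [fderiv_ham hHs] at e4
      have e5 := hsym (ψ s x) (ψ s x) (fderiv ℝ (ψ s) x x)
      linarith
    simp_rw [e3]
    have i1 : Integrable fun x => fderiv ℝ F1 x x := by
      refine integrable_of ((hF1s.continuous_fderiv (by simp)).clm_apply continuous_id)
        h.cpt fun x hx => ?_
      rw [fderiv_off' h.cpt hF10 x hx]
      rfl
    have i2 : Integrable fun x => fderiv ℝ F2 x x := by
      refine integrable_of ((hF2s.continuous_fderiv (by simp)).clm_apply continuous_id)
        h.cpt fun x hx => ?_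
      rw [fderiv_off' h.cpt hF20 x hx]
      rfl
    rw [integral_sub (i1.const_mul 2) i2, integral_const_mul, radial hF1s h.cpt hF10,
      radial hF2s h.cpt hF20]
    have e6 : ∫ x, F1 x = mean H s :=
      integral_comp (flow_bij h ht s) hψs (flow_sympl h ht s) (H s)
    have e7 : ∫ x, F2 x = ∫ x, G x :=
      integral_comp (flow_bij h ht s) hψs (flow_sympl h ht s) G
    have e8 : ∫ x, G x = -(2 * n) * mean H s := radial hHs h.cpt (h.off s)
    rw [e6, e7, e8]
    ring
  rw [key] at h4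
  exact h4

theorem cI_zero (h : TFlow H K ψ) : cI (ψ 0) = 0 := by
  have e0 : ψ 0 = id := funext h.zero
  rw [cI, e0]
  have : ∀ x : E n, omega (id x) (fderiv ℝ id x x) = 0 := by
    intro x
    rw [fderiv_id]
    exact omega_self x
  simp only [this, integral_zero]

/-- The integral of the Hamiltonian depends only on the diffeomorphism. -/
theorem cal_eq (hn : 0 < n) (h : TFlow H K ψ) : cal (ψ 1) = ∫ t in (0 : ℝ)..1, mean H t := by
  have h' := h.repar
  have ht' : ∀ t, t ∉ Icc (0 : ℝ) 1 → ∀ x, deriv et t * H (et t) x = 0 := by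
    intro t ht x
    rw [det_off ht, zero_mul]
  have hm : ∀ t, mean (fun t x => deriv et t * H (et t) x) t = (mean H ∘ et) t * deriv et t := by
    intro t
    simp only [mean, comp_apply]
    rw [integral_const_mul, mul_comm]
  have hcm := mean_cont h.smooth h.cpt h.off
  have hcm' := mean_cont h'.smooth h'.cpt h'.off
  have h1 : ∫ s in (0 : ℝ)..1, -(4 * n * (n + 1)) * mean (fun t x => deriv et t * H (et t) x) s =
      cI (fun x => ψ (et 1) x) - cI (fun x => ψ (et 0) x) :=
    intervalIntegral.integral_eq_sub_of_hasDerivAt (fun s _ => deriv_cI h' ht' s)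
      ((continuous_const.mul hcm').intervalIntegrable 0 1)
  have h2 := cI_zero h'
  have e1 : (fun x => ψ (et 1) x) = ψ 1 := by rw [et_one le_rfl]
  have h2' : cI (fun x => ψ (et 0) x) = 0 := h2
  rw [h2', sub_zero, e1, intervalIntegral.integral_const_mul] at h1
  have h3 : ∫ s in (0 : ℝ)..1, mean (fun t x => deriv et t * H (et t) x) s =
      ∫ t in (0 : ℝ)..1, mean H t := by
    simp_rw [hm]
    have h4 := intervalIntegral.integral_comp_mul_deriv (a := 0) (b := 1) (f := et)
      (f' := deriv et) (g := mean H) (fun x _ => et_deriv x) det_smooth.continuous.continuousOn hcm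
    rw [h4, et_zero le_rfl, et_one le_rfl]
  rw [h3] at h1
  rw [cal, ← h1]
  have hn' : (n : ℝ) ≠ 0 := by exact_mod_cast hn.ne'
  have hn1 : (n : ℝ) + 1 ≠ 0 := by positivity
  field_simp

end

end Pool.Agent.H822.Cal
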