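import Mathlib
import Pool.Agent.H822.Int

/-!
# A bound for `∫ f ∂g` in terms of Hölder norms of `f` and `g` with exponent larger than `1/2`
-/

set_option autoImplicit false

open scoped ContDiff
open Set Filter Topology Function MeasureTheory
open Pool.Agent.H822.Par Pool.Agent.H822.Ham Pool.Agent.H822.Int
open Pool.Agent.Y453.HB (E Q XH IsHam)

namespace Pool.Agent.H822.Sew

variable {n : ℕ} {f g : E n → ℝ} {K : Set (E n)} {e : E n}

/-- the set swept by `K` -/
def swept (K : Set (E n)) (e : E n) : Set (E n) :=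
  (fun p : ℝ × E n => p.2 + p.1 • e) '' (Icc (0 : ℝ) 1 ×ˢ K)

theorem swept_compact (hK : IsCompact K) : IsCompact (swept K e) :=
  (isCompact_Icc.prod hK).image (continuous_snd.add (continuous_fst.smul continuous_const))

theorem subset_swept : K ⊆ swept K e := fun x hx => ⟨(0, x), ⟨⟨le_rfl, zero_le_one⟩, hx⟩, by simp⟩

theorem mem_swept {x : E n} {h : ℝ} (h0 : 0 ≤ h) (h1 : h ≤ 1) (hx : x - h • e ∈ K) :
    x ∈ swept K e := ⟨(h, x - h • e), ⟨⟨h0, h1⟩, hx⟩, by simp⟩

/-- the difference quotient pairing -/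
noncomputable def dq (f g : E n → ℝ) (e : E n) (h : ℝ) : ℝ :=
  ∫ x, f x * (h⁻¹ * (g (x + h • e) - g x))

theorem dq_sub (hf : Continuous f) (hg : Continuous g) (hK : IsCompact K)
    (h0 : ∀ x, x ∉ K → f x = 0) {h : ℝ} (hh : 0 < h) (hh1 : h ≤ 1) :
    dq f g e h - dq f g e (h / 2) =
      h⁻¹ * ∫ x, (f (x - (h / 2) • e) - f x) * (g (x + (h / 2) • e) - g x) := by
  have hS := swept_compact (e := e) hK
  have c1 : ∀ t : ℝ, Continuous fun x : E n => x + t • e := fun t => continuous_id.add continuous_const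
  have c2 : ∀ t : ℝ, Continuous fun x : E n => x - t • e := fun t => continuous_id.sub continuous_const
  have i1 : ∀ s t : ℝ, Integrable fun x => f x * (g (x + s • e) - g (x + t • e)) := by
    intro s t
    refine integrable_of (hf.mul ((hg.comp (c1 s)).sub (hg.comp (c1 t)))) hK fun x hx => ?_
    rw [h0 x hx, zero_mul]
  have i0 : ∀ s : ℝ, Integrable fun x => f x * (g (x + s • e) - g x) := by
    intro s
    have := i1 s 0
    simpa using this
  have i2 : Integrable fun x => f (x - (h / 2) • e) * (g (x + (h / 2) • e) - g x) := by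
    refine integrable_of ((hf.comp (c2 _)).mul ((hg.comp (c1 _)).sub hg)) hS fun x hx => ?_
    have : x - (h / 2) • e ∉ K := fun hm => hx (mem_swept (by linarith) (by linarith) hm)
    rw [h0 _ this, zero_mul]
  have e1 : ∀ s : ℝ, dq f g e s = s⁻¹ * ∫ x, f x * (g (x + s • e) - g x) := by
    intro s
    rw [dq, ← integral_const_mul]
    refine integral_congr_ae (ae_of_all _ fun x => ?_)
    show f x * (s⁻¹ * _) = s⁻¹ * (f x * _)
    ring
  have e2 : ∫ x, f x * (g (x + h • e) - g x) =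
      (∫ x, f (x - (h / 2) • e) * (g (x + (h / 2) • e) - g x)) +
        ∫ x, f x * (g (x + (h / 2) • e) - g x) := by
    have e3 : ∫ x, f (x - (h / 2) • e) * (g (x + (h / 2) • e) - g x) =
        ∫ x, f x * (g (x + h • e) - g (x + (h / 2) • e)) := by
      rw [← integral_sub_right_eq_self (fun x => f x * (g (x + h • e) - g (x + (h / 2) • e)))
        ((h / 2) • e)]
      refine integral_congr_ae (ae_of_all _ fun x => ?_)
      show f (x - (h / 2) • e) * (g (x + (h / 2) • e) - g x) = f (x - (h / 2) • e) *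
        (g (x - (h / 2) • e + h • e) - g (x - (h / 2) • e + (h / 2) • e))
      have e4 : x - (h / 2) • e + h • e = x + (h / 2) • e := by
        have : h • e = (h / 2) • e + (h / 2) • e := by rw [← add_smul, add_halves]
        rw [this]; abel
      rw [e4, sub_add_cancel]
    rw [e3, ← integral_add (i1 _ _) (i0 _)]
    refine integral_congr_ae (ae_of_all _ fun x => ?_)
    show f x * _ = f x * _ + f x * _
    ring
  have e5 : ∫ x, (f (x - (h / 2) • e) - f x) * (g (x + (h / 2) • e) - g x) =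
      (∫ x, f (x - (h / 2) • e) * (g (x + (h / 2) • e) - g x)) -
        ∫ x, f x * (g (x + (h / 2) • e) - g x) := by
    rw [← integral_sub i2 (i0 _)]
    refine integral_congr_ae (ae_of_all _ fun x => ?_)
    show (_ - f x) * _ = _ - f x * _
    ring
  rw [e1, e1, e2, e5]
  have hne : h ≠ 0 := hh.ne'
  field_simp
  ring

theorem norm_integral_le (F : E n → ℝ) {S : Set (E n)} (hS : IsCompact S)
    (h0 : ∀ x, x ∉ S → F x = 0) {C : ℝ} (hC : ∀ x, |F x| ≤ C) :
    |∫ x, F x| ≤ C * (volume S).toReal := by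
  have h1 : ∫ x, F x = ∫ x in S, F x := by
    rw [setIntegral_eq_integral_of_forall_compl_eq_zero h0]
  rw [h1, ← Real.norm_eq_abs]
  exact norm_setIntegral_le_of_norm_le_const hS.measure_lt_top
    (fun x _ => (Real.norm_eq_abs (F x)).le.trans (hC x))

variable {A B α : ℝ}

theorem dq_step (hf : Continuous f) (hg : Continuous g) (hK : IsCompact K)
    (h0 : ∀ x, x ∉ K → f x = 0)
    (hfA : ∀ x, ∀ h : ℝ, 0 < h → h ≤ 1 → |f (x - h • e) - f x| ≤ A * h ^ α)
    (hgB : ∀ x, ∀ h : ℝ, 0 < h → h ≤ 1 → |g (x + h • e) - g x| ≤ B * h ^ α) (hα : 0 ≤ α)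
    {h : ℝ} (hh : 0 < h) (hh1 : h ≤ 1) :
    |dq f g e h - dq f g e (h / 2)| ≤
      A * B * (volume (swept K e)).toReal * h ^ (2 * α - 1) := by
  rw [dq_sub hf hg hK h0 hh hh1, abs_mul, abs_of_pos (inv_pos.2 hh)]
  have hS := swept_compact (e := e) hK
  have hA : 0 ≤ A := by
    have := (abs_nonneg _).trans (hfA 0 1 one_pos le_rfl)
    simpa using this
  have hB : 0 ≤ B := by
    have := (abs_nonneg _).trans (hgB 0 1 one_pos le_rfl)
    simpa using this
  have h1 : |∫ x, (f (x - (h / 2) • e) - f x) * (g (x + (h / 2) • e) - g x)| ≤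
      (A * (h / 2) ^ α * (B * (h / 2) ^ α)) * (volume (swept K e)).toReal := by
    refine norm_integral_le _ hS (fun x hx => ?_) fun x => ?_
    · have h2 : x - (h / 2) • e ∉ K := fun hm => hx (mem_swept (by linarith) (by linarith) hm)
      have h3 : x ∉ K := fun hm => hx (subset_swept hm)
      rw [h0 _ h2, h0 _ h3, sub_zero, zero_mul]
    · rw [abs_mul]
      exact mul_le_mul (hfA x _ (by linarith) (by linarith)) (hgB x _ (by linarith) (by linarith))
        (abs_nonneg _) (by positivity)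
  have hα2 : (h / 2) ^ α * (h / 2) ^ α = (h / 2) ^ (2 * α) := by
    rw [← Real.rpow_add (by linarith)]
    congr 1
    ring
  have h3 : (h / 2) ^ (2 * α) ≤ h ^ (2 * α) :=
    Real.rpow_le_rpow (by linarith) (by linarith) (by linarith)
  have h4 : h⁻¹ * h ^ (2 * α) = h ^ (2 * α - 1) := by
    rw [Real.rpow_sub_one hh.ne']
    field_simp
  have hV : 0 ≤ (volume (swept K e)).toReal := ENNReal.toReal_nonneg
  calc h⁻¹ * |∫ x, (f (x - (h / 2) • e) - f x) * (g (x + (h / 2) • e) - g x)|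
      ≤ h⁻¹ * ((A * (h / 2) ^ α * (B * (h / 2) ^ α)) * (volume (swept K e)).toReal) :=
        mul_le_mul_of_nonneg_left h1 (inv_pos.2 hh).le
    _ = A * B * (volume (swept K e)).toReal * (h⁻¹ * ((h / 2) ^ α * (h / 2) ^ α)) := by ring
    _ = A * B * (volume (swept K e)).toReal * (h⁻¹ * (h / 2) ^ (2 * α)) := by rw [hα2]
    _ ≤ A * B * (volume (swept K e)).toReal * (h⁻¹ * h ^ (2 * α)) := by gcongr
    _ = _ := by rw [h4]

theorem dq_limit (hf : Continuous f) (hg : ContDiff ℝ ∞ g) (hK : IsCompact K)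
    (h0 : ∀ x, x ∉ K → f x = 0) {C : NNReal} (hL : LipschitzWith C g)
    {h : ℝ} (hh : 0 < h) :
    Tendsto (fun m : ℕ => dq f g e (h / 2 ^ m)) atTop (𝓝 (∫ x, f x * fderiv ℝ g x e)) := by
  have hpos : ∀ m : ℕ, 0 < h / 2 ^ m := fun m => by positivity
  have hlim : Tendsto (fun m : ℕ => h / 2 ^ m) atTop (𝓝[≠] 0) := by
    refine tendsto_nhdsWithin_iff.2 ⟨?_, Eventually.of_forall fun m => (hpos m).ne'⟩
    have h1 : Tendsto (fun m : ℕ => h * (1 / 2 : ℝ) ^ m) atTop (𝓝 (h * 0)) :=
      (tendsto_pow_atTop_nhds_zero_of_lt_one (by norm_num) (by norm_num)).const_mul h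
    rw [mul_zero] at h1
    refine h1.congr fun m => ?_
    rw [one_div, inv_pow]
    rfl
  refine tendsto_integral_of_dominated_convergence (fun x => |f x| * (C * ‖e‖)) ?_ ?_ ?_ ?_
  · intro m
    refine Continuous.aestronglyMeasurable (hf.mul (continuous_const.mul
      ((hg.continuous.comp (continuous_id.add continuous_const)).sub hg.continuous)))
  · refine integrable_of (hf.abs.mul continuous_const) hK fun x hx => ?_
    rw [h0 x hx, abs_zero, zero_mul]
  · intro m
    refine ae_of_all _ fun x => ?_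
    rw [Real.norm_eq_abs, abs_mul]
    refine mul_le_mul_of_nonneg_left ?_ (abs_nonneg _)
    rw [abs_mul, abs_of_pos (inv_pos.2 (hpos m))]
    have h2 := hL.dist_le_mul (x + (h / 2 ^ m) • e) x
    rw [Real.dist_eq, dist_eq_norm, add_sub_cancel_left, norm_smul,
      Real.norm_of_nonneg (hpos m).le] at h2
    calc (h / 2 ^ m)⁻¹ * |g (x + (h / 2 ^ m) • e) - g x|
        ≤ (h / 2 ^ m)⁻¹ * (C * (h / 2 ^ m * ‖e‖)) :=
          mul_le_mul_of_nonneg_left h2 (inv_pos.2 (hpos m)).le
      _ = C * ‖e‖ := by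
          have := (hpos m).ne'
          field_simp
  · refine ae_of_all _ fun x => ?_
    have hd : HasDerivAt (fun t : ℝ => g (x + t • e)) (fderiv ℝ g x e) 0 := by
      have h1 : HasDerivAt (fun t : ℝ => x + t • e) ((1 : ℝ) • e) 0 :=
        ((hasDerivAt_id (0 : ℝ)).smul_const e).const_add x
      rw [one_smul] at h1
      have h2 : HasFDerivAt g (fderiv ℝ g x) (x + (0 : ℝ) • e) := by
        rw [zero_smul, add_zero]
        exact (hg.differentiable (by simp) x).hasFDerivAt
      exact h2.comp_hasDerivAt 0 h1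
    have h3 := (hd.tendsto_slope_zero).comp hlim
    have h4 := h3.const_mul (f x)
    refine h4.congr fun m => ?_
    simp

/-- geometric series of the steps -/
theorem dq_iter (hf : Continuous f) (hg : Continuous g) (hK : IsCompact K)
    (h0 : ∀ x, x ∉ K → f x = 0)
    (hfA : ∀ x, ∀ h : ℝ, 0 < h → h ≤ 1 → |f (x - h • e) - f x| ≤ A * h ^ α)
    (hgB : ∀ x, ∀ h : ℝ, 0 < h → h ≤ 1 → |g (x + h • e) - g x| ≤ B * h ^ α) (hα : 1 / 2 < α)
    {h : ℝ} (hh : 0 < h) (hh1 : h ≤ 1) (m : ℕ) :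
    |dq f g e h - dq f g e (h / 2 ^ m)| ≤
      A * B * (volume (swept K e)).toReal * h ^ (2 * α - 1) *
        ∑ k ∈ Finset.range m, ((1 / 2 : ℝ) ^ (2 * α - 1)) ^ k := by
  induction m with
  | zero => simp
  | succ m ih =>
    have hpos : 0 < h / 2 ^ m := by positivity
    have hle : h / 2 ^ m ≤ 1 := by
      refine le_trans (div_le_self hh.le (one_le_pow₀ (by norm_num))) hh1
    have h1 := dq_step (e := e) hf hg hK h0 hfA hgB (by linarith) hpos hle
    have h2 : h / 2 ^ m / 2 = h / 2 ^ (m + 1) := by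
      rw [pow_succ, div_div]
    rw [h2] at h1
    have h3 : (h / 2 ^ m) ^ (2 * α - 1) =
        h ^ (2 * α - 1) * ((1 / 2 : ℝ) ^ (2 * α - 1)) ^ m := by
      have : h / 2 ^ m = h * (1 / 2 : ℝ) ^ m := by
        rw [one_div, inv_pow]; rfl
      rw [this, Real.mul_rpow hh.le (by positivity), ← Real.rpow_natCast, ← Real.rpow_natCast,
        ← Real.rpow_mul (by norm_num), ← Real.rpow_mul (by norm_num)]
      congr 2
      ring
    rw [h3] at h1
    rw [Finset.sum_range_succ, mul_add]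
    have h4 : dq f g e h - dq f g e (h / 2 ^ (m + 1)) =
        (dq f g e h - dq f g e (h / 2 ^ m)) + (dq f g e (h / 2 ^ m) -
          dq f g e (h / 2 ^ (m + 1))) := by ring
    rw [h4]
    refine (abs_add_le _ _).trans (add_le_add ih (h1.trans (le_of_eq (by ring))))

/-- the constant -/
noncomputable def cst (α : ℝ) : ℝ := (1 - (1 / 2 : ℝ) ^ (2 * α - 1))⁻¹

theorem cst_bound (hα : 1 / 2 < α) : 0 < cst α ∧ ∀ m : ℕ,
    ∑ k ∈ Finset.range m, ((1 / 2 : ℝ) ^ (2 * α - 1)) ^ k ≤ cst α := by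
  have h1 : (1 / 2 : ℝ) ^ (2 * α - 1) < 1 :=
    Real.rpow_lt_one (by norm_num) (by norm_num) (by linarith)
  have h0 : 0 ≤ (1 / 2 : ℝ) ^ (2 * α - 1) := by positivity
  refine ⟨inv_pos.2 (by linarith), fun m => ?_⟩
  rw [cst, ← tsum_geometric_of_lt_one h0 h1]
  exact (summable_geometric_of_lt_one h0 h1).sum_le_tsum _ fun i _ => pow_nonneg h0 i

/-- the main estimate -/
theorem main_est (hf : Continuous f) (hg : ContDiff ℝ ∞ g) (hK : IsCompact K)
    (h0 : ∀ x, x ∉ K → f x = 0) {C : NNReal} (hL : LipschitzWith C g)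
    (hfA : ∀ x, ∀ h : ℝ, 0 < h → h ≤ 1 → |f (x - h • e) - f x| ≤ A * h ^ α)
    (hgB : ∀ x, ∀ h : ℝ, 0 < h → h ≤ 1 → |g (x + h • e) - g x| ≤ B * h ^ α) (hα : 1 / 2 < α)
    {ε : ℝ} (hε : 0 < ε) (hε1 : ε ≤ 1) (hfε : ∀ x, |f x| ≤ ε) :
    |∫ x, f x * fderiv ℝ g x e| ≤
      (1 + A * cst α) * B * (volume (swept K e)).toReal * ε ^ (2 - 1 / α) := by
  have hα0 : 0 < α := by linarith
  have hA : 0 ≤ A := by
    have := (abs_nonneg _).trans (hfA 0 1 one_pos le_rfl)
    simpa using this
  have hB : 0 ≤ B := by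
    have := (abs_nonneg _).trans (hgB 0 1 one_pos le_rfl)
    simpa using this
  set V := (volume (swept K e)).toReal with hV
  have hV0 : 0 ≤ V := ENNReal.toReal_nonneg
  set h := ε ^ (1 / α) with hh
  have hpos : 0 < h := Real.rpow_pos_of_pos hε _
  have hle : h ≤ 1 := Real.rpow_le_one hε.le hε1 (by positivity)
  have hhα : h ^ α = ε := by
    rw [hh, ← Real.rpow_mul hε.le, one_div_mul_cancel hα0.ne', Real.rpow_one]
  have hh2 : h ^ (2 * α - 1) = ε ^ (2 - 1 / α) := by
    rw [hh, ← Real.rpow_mul hε.le]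
    congr 1
    field_simp
  have hh3 : h⁻¹ * (ε * h ^ α) = ε ^ (2 - 1 / α) := by
    rw [hhα, Real.rpow_sub hε, ← hh, Real.rpow_two]
    field_simp
  -- the first term
  have e1 : |dq f g e h| ≤ (h⁻¹ * (ε * (B * h ^ α))) * V := by
    rw [dq]
    refine norm_integral_le _ (swept_compact (e := e) hK) (fun x hx => ?_) fun x => ?_
    · rw [h0 x fun hm => hx (subset_swept hm), zero_mul]
    · rw [abs_mul, abs_mul, abs_of_pos (inv_pos.2 hpos)]
      calc |f x| * (h⁻¹ * |g (x + h • e) - g x|)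
          ≤ ε * (h⁻¹ * (B * h ^ α)) := by
            gcongr
            · exact hfε x
            · exact hgB x h hpos hle
        _ = _ := by ring
  obtain ⟨hc0, hc⟩ := cst_bound hα
  have e2 : ∀ m : ℕ, |dq f g e (h / 2 ^ m)| ≤
      (1 + A * cst α) * B * V * ε ^ (2 - 1 / α) := by
    intro m
    have h1 := dq_iter (e := e) hf hg.continuous hK h0 hfA hgB hα hpos hle m
    have h2 : |dq f g e (h / 2 ^ m)| ≤ |dq f g e h| + |dq f g e h - dq f g e (h / 2 ^ m)| := by
      have := abs_sub_abs_le_abs_sub (dq f g e (h / 2 ^ m)) (dq f g e h)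
      rw [abs_sub_comm] at this
      linarith
    have h3 : A * B * V * h ^ (2 * α - 1) *
        ∑ k ∈ Finset.range m, ((1 / 2 : ℝ) ^ (2 * α - 1)) ^ k ≤
        A * B * V * h ^ (2 * α - 1) * cst α := by
      refine mul_le_mul_of_nonneg_left (hc m) (by positivity)
    calc |dq f g e (h / 2 ^ m)| ≤ (h⁻¹ * (ε * (B * h ^ α))) * V +
          A * B * V * h ^ (2 * α - 1) * cst α := by linarith
      _ = B * V * (h⁻¹ * (ε * h ^ α)) + A * B * V * h ^ (2 * α - 1) * cst α := by ring
      _ = _ := by rw [hh3, hh2]; ring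
  exact le_of_tendsto (dq_limit hf hg hK h0 hL hpos).abs (Eventually.of_forall e2)

end Pool.Agent.H822.Sew
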