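import Mathlib
import Pool.Agent.H822.Cal
import Pool.Agent.H822.Sew

/-!
# The Calabi invariant is continuous for uniform convergence with bounded Hölder norms
-/

set_option autoImplicit false

open scoped ContDiff
open Set Filter Topology Function MeasureTheory
open Pool.Agent.H822.Par Pool.Agent.H822.Ham Pool.Agent.H822.Int Pool.Agent.H822.Cal
open Pool.Agent.H822.Sew
open Pool.Agent.Y453.HB (E Q XH IsHam)
open Q170.SC (omega)

namespace Pool.Agent.H822.CalEst

variable {n : ℕ}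

/-- `u` is locally `α`-Hölder with constant `A` -/
def Hol (α A : ℝ) (u : E n → E n) : Prop :=
  ∀ x y, ‖x - y‖ ≤ 1 → ‖u x - u y‖ ≤ A * ‖x - y‖ ^ α

variable {u v : E n → E n} {K : Set (E n)}

theorem omega_sub_left (a b c : E n) : omega (a - b) c = omega a c - omega b c := by
  have h := omega_add_left (a - b) b c
  rw [sub_add_cancel] at h
  linarith

theorem omega_sub_right (a b c : E n) : omega a (b - c) = omega a b - omega a c := by
  have h := omega_add_right a (b - c) c
  rw [sub_add_cancel] at h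
  linarith

/-- difference of the integrals -/
theorem cI_sub (hu : ContDiff ℝ ∞ u) (hv : ContDiff ℝ ∞ v) (hK : IsCompact K)
    (hu0 : ∀ x, x ∉ K → u x = x) (hv0 : ∀ x, x ∉ K → v x = x) :
    cI u - cI v = (∫ x, omega (u x - v x) (fderiv ℝ (fun y => u y + v y) x x)) -
      2 * n * ∫ x, omega (v x) (u x - v x) := by
  have hdu : ∀ x, HasFDerivAt u (fderiv ℝ u x) x := fun x =>
    (hu.differentiable (by simp) x).hasFDerivAt
  have hdv : ∀ x, HasFDerivAt v (fderiv ℝ v x) x := fun x =>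
    (hv.differentiable (by simp) x).hasFDerivAt
  have cDu : ContDiff ℝ ∞ fun x => fderiv ℝ u x x :=
    (hu.fderiv_right (m := ∞) (by simp)).clm_apply contDiff_id
  have cDv : ContDiff ℝ ∞ fun x => fderiv ℝ v x x :=
    (hv.fderiv_right (m := ∞) (by simp)).clm_apply contDiff_id
  have hw : ∀ x, fderiv ℝ (fun y => u y + v y) x x = fderiv ℝ u x x + fderiv ℝ v x x := by
    intro x
    have h1 : HasFDerivAt (fun y => u y + v y) (fderiv ℝ u x + fderiv ℝ v x) x :=
      (hdu x).add (hdv x)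
    rw [h1.fderiv]
    rfl
  set F : E n → ℝ := fun x => omega (v x) (u x - v x) with hF
  have hFs : ContDiff ℝ ∞ F := omega_contDiff hv (hu.sub hv)
  have hF0 : ∀ x, x ∉ K → F x = 0 := by
    intro x hx
    rw [hF]
    simp only
    rw [hu0 x hx, hv0 x hx, sub_self]
    simp [omega]
  have dF : ∀ x, fderiv ℝ F x x = omega (fderiv ℝ v x x) (u x - v x) +
      omega (v x) (fderiv ℝ u x x - fderiv ℝ v x x) := by
    intro x
    have h1 : HasFDerivAt (fun y => omL n (v y)) ((omL n).comp (fderiv ℝ v x)) x :=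
      (omL n).hasFDerivAt.comp x (hdv x)
    have h2 : HasFDerivAt F _ x := h1.clm_apply ((hdu x).sub (hdv x))
    rw [h2.fderiv]
    simp only [_root_.add_apply, ContinuousLinearMap.comp_apply,
      ContinuousLinearMap.flip_apply, _root_.sub_apply]
    rw [add_comm]
    rfl
  have e1 : ∀ x, omega (u x) (fderiv ℝ u x x) - omega (v x) (fderiv ℝ v x x) =
      omega (u x - v x) (fderiv ℝ (fun y => u y + v y) x x) + fderiv ℝ F x x := by
    intro x
    rw [dF, hw, omega_add_right, omega_sub_left, omega_sub_left, omega_sub_right, omega_sub_right,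
      omega_swap (fderiv ℝ v x x) (u x), omega_swap (fderiv ℝ v x x) (v x)]
    ring
  have o1 : ∀ w : E n → E n, (∀ x, x ∉ K → w x = x) → ∀ x, x ∉ K → fderiv ℝ w x x = x := by
    intro w hw0 x hx
    rw [fderiv_id_off hK.isClosed hw0 hx]
    rfl
  have i1 : Integrable fun x => omega (u x) (fderiv ℝ u x x) :=
    integrable_of (omega_contDiff hu cDu).continuous hK fun x hx => by
      rw [hu0 x hx, o1 u hu0 x hx, omega_self]
  have i2 : Integrable fun x => omega (v x) (fderiv ℝ v x x) :=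
    integrable_of (omega_contDiff hv cDv).continuous hK fun x hx => by
      rw [hv0 x hx, o1 v hv0 x hx, omega_self]
  have i3 : Integrable fun x => fderiv ℝ F x x := by
    refine integrable_of ((hFs.continuous_fderiv (by simp)).clm_apply continuous_id)
      hK fun x hx => ?_
    rw [fderiv_off' hK hF0 x hx]
    rfl
  have i4 : Integrable fun x => omega (u x - v x) (fderiv ℝ (fun y => u y + v y) x x) := by
    have : (fun x => omega (u x - v x) (fderiv ℝ (fun y => u y + v y) x x)) =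
        fun x => omega (u x - v x) (fderiv ℝ u x x + fderiv ℝ v x x) := by
      ext x; rw [hw]
    rw [this]
    refine integrable_of (omega_contDiff (hu.sub hv) (cDu.add cDv)).continuous hK fun x hx => ?_
    rw [hu0 x hx, hv0 x hx, sub_self]
    simp [omega]
  rw [cI, cI, ← integral_sub i1 i2]
  simp_rw [e1]
  rw [integral_add i4 i3, radial hFs hK hF0]
  ring

/-- expansion in coordinates -/
theorem omega_expand (a w : E n) (D : E n →L[ℝ] E n) : omega a (D w) =
    ∑ i, ∑ j, ((cx j w * cx i a * cy i (D (ex j)) + cy j w * cx i a * cy i (D (ey j))) -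
      (cx j w * cy i a * cx i (D (ex j)) + cy j w * cy i a * cx i (D (ey j)))) := by
  have h1 : ∀ b : E n →L[ℝ] ℝ, b (D w) = ∑ j, (cx j w * b (D (ex j)) + cy j w * b (D (ey j))) :=
    fun b => apply_dec (b.comp D) w
  have h2 : omega a (D w) = ∑ i, (cx i a * cy i (D w) - cy i a * cx i (D w)) := rfl
  rw [h2]
  refine Finset.sum_congr rfl fun i _ => ?_
  rw [h1, h1, Finset.mul_sum, Finset.mul_sum, ← Finset.sum_sub_distrib]
  refine Finset.sum_congr rfl fun j _ => ?_
  ring

theorem norm_cx (i : Fin n) (x : E n) : |cx i x| ≤ ‖x‖ :=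
  (norm_le_pi_norm x.1 i).trans (norm_fst_le x)

theorem norm_cy (i : Fin n) (x : E n) : |cy i x| ≤ ‖x‖ :=
  (norm_le_pi_norm x.2 i).trans (norm_snd_le x)

theorem norm_ex (i : Fin n) : ‖(ex i : E n)‖ ≤ 1 := by
  rw [ex, Prod.norm_def]
  simp [Pi.norm_single]

theorem norm_ey (i : Fin n) : ‖(ey i : E n)‖ ≤ 1 := by
  rw [ey, Prod.norm_def]
  simp [Pi.norm_single]

theorem lip_of (hu : ContDiff ℝ ∞ u) (hK : IsCompact K) (hu0 : ∀ x, x ∉ K → u x = x) :
    ∃ C : NNReal, LipschitzWith C u := by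
  have h1 : ContDiff ℝ ∞ fun x => u x - x := hu.sub contDiff_id
  obtain ⟨C, hC⟩ := exists_lipschitz (fun x => u x - x) h1 K hK
    (fderiv_off _ K hK.isClosed 0 fun x hx => by rw [hu0 x hx, sub_self])
  refine ⟨C + 1, ?_⟩
  have h2 := hC.add (LipschitzWith.id (α := E n))
  have h3 : (fun x => (u x - x) + id x) = u := by
    ext1 x
    simp
  rw [h3] at h2
  exact h2

variable {A α ε : ℝ}

/-- the bound for one term -/
theorem one_term (hu : ContDiff ℝ ∞ u) (hv : ContDiff ℝ ∞ v) (hK : IsCompact K)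
    (hu0 : ∀ x, x ∉ K → u x = x) (hv0 : ∀ x, x ∉ K → v x = x) (hK1 : ∀ x ∈ K, ‖x‖ ≤ 1)
    (hα : 1 / 2 < α) (hα1 : α ≤ 1) (hA : 0 ≤ A) (hHu : Hol α A u) (hHv : Hol α A v)
    (hε : 0 < ε) (hε1 : ε ≤ 1) (hd : ∀ x, ‖u x - v x‖ ≤ ε)
    (a b c : E n →L[ℝ] ℝ) (ha : ∀ x, |a x| ≤ ‖x‖) (hb : ∀ x, |b x| ≤ ‖x‖)
    (hc : ∀ x, |c x| ≤ ‖x‖) (e : E n) (he : ‖e‖ ≤ 1) :
    |∫ x, a x * b (u x - v x) * c (fderiv ℝ (fun y => u y + v y) x e)| ≤
      (1 + (4 * A + 1) * cst α) * (2 * A) *
        (volume (Metric.closedBall (0 : E n) 2)).toReal * ε ^ (2 - 1 / α) := by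
  have hw : ContDiff ℝ ∞ fun y => u y + v y := hu.add hv
  set g : E n → ℝ := fun y => c (u y + v y) with hg
  have hgs : ContDiff ℝ ∞ g := c.contDiff.comp hw
  have dg : ∀ x, fderiv ℝ g x e = c (fderiv ℝ (fun y => u y + v y) x e) := by
    intro x
    have h1 : HasFDerivAt g _ x :=
      c.hasFDerivAt.comp x (hw.differentiable (by simp) x).hasFDerivAt
    rw [h1.fderiv]
    rfl
  set f : E n → ℝ := fun x => a x * b (u x - v x) with hf
  have hfs : Continuous f := a.continuous.mul (b.continuous.comp (hu.continuous.sub hv.continuous))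
  have hδ0 : ∀ x, x ∉ K → u x - v x = 0 := fun x hx => by rw [hu0 x hx, hv0 x hx, sub_self]
  have hf0 : ∀ x, x ∉ K → f x = 0 := by
    intro x hx
    rw [hf]
    simp only
    rw [hδ0 x hx, map_zero, mul_zero]
  obtain ⟨C1, hC1⟩ := lip_of hu hK hu0
  obtain ⟨C2, hC2⟩ := lip_of hv hK hv0
  have hgL : ∃ C : NNReal, LipschitzWith C g :=
    ⟨_, c.lipschitz.comp (hC1.add hC2)⟩
  obtain ⟨C, hgL⟩ := hgL
  have hpow : ∀ h : ℝ, 0 < h → h ≤ 1 → h ≤ h ^ α := by
    intro h h0 h1
    calc h = h ^ (1 : ℝ) := (Real.rpow_one h).symm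
      _ ≤ h ^ α := Real.rpow_le_rpow_of_exponent_ge h0 h1 hα1
  have hnorm : ∀ h : ℝ, 0 < h → h ≤ 1 → ‖h • e‖ ≤ h := by
    intro h h0 h1
    rw [norm_smul, Real.norm_of_nonneg h0.le]
    nlinarith [norm_nonneg e]
  have hHol : ∀ w : E n → E n, Hol α A w → ∀ x y, ∀ h : ℝ, 0 < h → h ≤ 1 → ‖x - y‖ ≤ h →
      ‖w x - w y‖ ≤ A * h ^ α := by
    intro w hw x y h h0 h1 hxy
    refine (hw x y (hxy.trans h1)).trans (mul_le_mul_of_nonneg_left ?_ hA)
    exact Real.rpow_le_rpow (norm_nonneg _) hxy (by linarith)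
  have hfA : ∀ x, ∀ h : ℝ, 0 < h → h ≤ 1 → |f (x - h • e) - f x| ≤ (4 * A + 1) * h ^ α := by
    intro x h h0 h1
    have hn : ‖x - h • e - x‖ ≤ h := by
      rw [sub_sub_cancel_left, norm_neg]
      exact hnorm h h0 h1
    have hpos : 0 ≤ h ^ α := by positivity
    by_cases hx : x ∈ K ∨ x - h • e ∈ K
    · have hx2 : ‖x - h • e‖ ≤ 2 := by
        rcases hx with hx | hx
        · refine (norm_sub_le _ _).trans ?_
          linarith [hK1 x hx, hnorm h h0 h1]
        · linarith [hK1 _ hx]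
      have e1 : f (x - h • e) - f x = a (x - h • e) *
          b ((u (x - h • e) - u x) - (v (x - h • e) - v x)) - a (h • e) * b (u x - v x) := by
        rw [hf]
        simp only [map_sub]
        ring
      rw [e1]
      have e2 : |b ((u (x - h • e) - u x) - (v (x - h • e) - v x))| ≤ 2 * (A * h ^ α) := by
        refine (hb _).trans ((norm_sub_le _ _).trans ?_)
        linarith [hHol u hHu (x - h • e) x h h0 h1 hn, hHol v hHv (x - h • e) x h h0 h1 hn]
      have e3 : |a (x - h • e)| ≤ 2 := (ha _).trans hx2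
      have e4 : |a (h • e)| ≤ h ^ α := (ha _).trans ((hnorm h h0 h1).trans (hpow h h0 h1))
      have e5 : |b (u x - v x)| ≤ 1 := (hb _).trans ((hd x).trans hε1)
      calc |a (x - h • e) * b ((u (x - h • e) - u x) - (v (x - h • e) - v x)) -
            a (h • e) * b (u x - v x)|
          ≤ |a (x - h • e)| * |b ((u (x - h • e) - u x) - (v (x - h • e) - v x))| +
            |a (h • e)| * |b (u x - v x)| := by
              rw [← abs_mul, ← abs_mul]
              exact abs_sub _ _
        _ ≤ 2 * (2 * (A * h ^ α)) + h ^ α * 1 := by gcongr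
        _ = _ := by ring
    · push Not at hx
      rw [hf0 x hx.1, hf0 _ hx.2, sub_zero, abs_zero]
      positivity
  have hgB : ∀ x, ∀ h : ℝ, 0 < h → h ≤ 1 → |g (x + h • e) - g x| ≤ (2 * A) * h ^ α := by
    intro x h h0 h1
    have hn : ‖x + h • e - x‖ ≤ h := by
      rw [add_sub_cancel_left]
      exact hnorm h h0 h1
    have e1 : g (x + h • e) - g x = c ((u (x + h • e) - u x) + (v (x + h • e) - v x)) := by
      rw [hg]
      simp only [map_sub, map_add]
      ring
    rw [e1]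
    refine (hc _).trans ((norm_add_le _ _).trans ?_)
    linarith [hHol u hHu (x + h • e) x h h0 h1 hn, hHol v hHv (x + h • e) x h h0 h1 hn]
  have hfε : ∀ x, |f x| ≤ ε := by
    intro x
    by_cases hx : x ∈ K
    · rw [hf]
      simp only
      rw [abs_mul]
      calc |a x| * |b (u x - v x)| ≤ 1 * ε := by
            gcongr
            · exact (ha x).trans (hK1 x hx)
            · exact (hb _).trans (hd x)
        _ = ε := one_mul _
    · rw [hf0 x hx, abs_zero]
      exact hε.le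
  have h1 := main_est (e := e) hfs hgs hK hf0 hgL hfA hgB hα hε hε1 hfε
  simp_rw [dg] at h1
  refine h1.trans ?_
  have hV : (volume (swept K e)).toReal ≤ (volume (Metric.closedBall (0 : E n) 2)).toReal := by
    refine ENNReal.toReal_mono (isCompact_closedBall _ _).measure_lt_top.ne (measure_mono ?_)
    rintro _ ⟨⟨t, x⟩, ⟨ht, hx⟩, rfl⟩
    rw [mem_closedBall_zero_iff]
    refine (norm_add_le _ _).trans ?_
    have h2 : ‖t • e‖ ≤ 1 := by
      rw [norm_smul, Real.norm_of_nonneg ht.1]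
      nlinarith [norm_nonneg e, ht.2, ht.1]
    linarith [hK1 x hx]
  have hc0 := (cst_bound hα).1
  gcongr

theorem four {f1 f2 f3 f4 : E n → ℝ} (i1 : Integrable f1) (i2 : Integrable f2)
    (i3 : Integrable f3) (i4 : Integrable f4) {T : ℝ} (t1 : |∫ x, f1 x| ≤ T)
    (t2 : |∫ x, f2 x| ≤ T) (t3 : |∫ x, f3 x| ≤ T) (t4 : |∫ x, f4 x| ≤ T) :
    |∫ x, ((f1 x + f2 x) - (f3 x + f4 x))| ≤ 4 * T := by
  have e : ∫ x, ((f1 x + f2 x) - (f3 x + f4 x)) =
      ((∫ x, f1 x) + ∫ x, f2 x) - ((∫ x, f3 x) + ∫ x, f4 x) := by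
    rw [← integral_add i1 i2, ← integral_add i3 i4]
    exact integral_sub (i1.add i2) (i3.add i4)
  rw [e]
  rw [abs_le] at *
  constructor <;> linarith [t1.1, t1.2, t2.1, t2.2, t3.1, t3.2, t4.1, t4.2]

/-- the constant -/
noncomputable def Kst (n : ℕ) (α A : ℝ) : ℝ :=
  (4 * n ^ 2 * ((1 + (4 * A + 1) * cst α) * (2 * A)) + 4 * n ^ 2) *
    (volume (Metric.closedBall (0 : E n) 2)).toReal

theorem omega_bound (a b : E n) : |omega a b| ≤ 2 * n * (‖a‖ * ‖b‖) := by
  have h2 : omega a b = ∑ i, (cx i a * cy i b - cy i a * cx i b) := rfl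
  rw [h2]
  refine (Finset.abs_sum_le_sum_abs _ _).trans ?_
  have h3 : ∀ i ∈ (Finset.univ : Finset (Fin n)), |cx i a * cy i b - cy i a * cx i b| ≤
      2 * (‖a‖ * ‖b‖) := by
    intro i _
    refine (abs_sub _ _).trans ?_
    rw [abs_mul, abs_mul]
    have := mul_le_mul (norm_cx i a) (norm_cy i b) (abs_nonneg _) (norm_nonneg _)
    have := mul_le_mul (norm_cy i a) (norm_cx i b) (abs_nonneg _) (norm_nonneg _)
    linarith
  refine (Finset.sum_le_sum h3).trans (le_of_eq ?_)
  rw [Finset.sum_const, Finset.card_univ, Fintype.card_fin, nsmul_eq_mul]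
  ring

theorem cI_est (hu : ContDiff ℝ ∞ u) (hv : ContDiff ℝ ∞ v) (hK : IsCompact K)
    (hu0 : ∀ x, x ∉ K → u x = x) (hv0 : ∀ x, x ∉ K → v x = x) (hK1 : ∀ x ∈ K, ‖x‖ ≤ 1)
    (hvK : ∀ x ∈ K, ‖v x‖ ≤ 1)
    (hα : 1 / 2 < α) (hα1 : α ≤ 1) (hA : 0 ≤ A) (hHu : Hol α A u) (hHv : Hol α A v)
    (hε : 0 < ε) (hε1 : ε ≤ 1) (hd : ∀ x, ‖u x - v x‖ ≤ ε) :
    |cI u - cI v| ≤ Kst n α A * ε ^ (2 - 1 / α) := by
  rw [cI_sub hu hv hK hu0 hv0]
  set V := (volume (Metric.closedBall (0 : E n) 2)).toReal with hV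
  set T := (1 + (4 * A + 1) * cst α) * (2 * A) * V * ε ^ (2 - 1 / α) with hT
  have hw : ContDiff ℝ ∞ fun y => u y + v y := hu.add hv
  have hδ0 : ∀ x, x ∉ K → u x - v x = 0 := fun x hx => by rw [hu0 x hx, hv0 x hx, sub_self]
  have hint : ∀ (a b c : E n →L[ℝ] ℝ) (e : E n), Integrable fun x =>
      a x * b (u x - v x) * c (fderiv ℝ (fun y => u y + v y) x e) := by
    intro a b c e
    refine integrable_of ((a.continuous.mul (b.continuous.comp
      (hu.continuous.sub hv.continuous))).mul (c.continuous.comp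
        ((hw.continuous_fderiv (by simp)).clm_apply continuous_const))) hK fun x hx => ?_
    rw [hδ0 x hx, map_zero, mul_zero, zero_mul]
  have h1 : |∫ x, omega (u x - v x) (fderiv ℝ (fun y => u y + v y) x x)| ≤ 4 * n ^ 2 * T := by
    simp_rw [omega_expand]
    have hI : ∀ i j : Fin n, Integrable fun x =>
        ((cx j x * cx i (u x - v x) * cy i (fderiv ℝ (fun y => u y + v y) x (ex j)) +
          cy j x * cx i (u x - v x) * cy i (fderiv ℝ (fun y => u y + v y) x (ey j))) -
        (cx j x * cy i (u x - v x) * cx i (fderiv ℝ (fun y => u y + v y) x (ex j)) +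
          cy j x * cy i (u x - v x) * cx i (fderiv ℝ (fun y => u y + v y) x (ey j)))) := fun i j =>
      ((hint (cx j) (cx i) (cy i) (ex j)).add (hint (cy j) (cx i) (cy i) (ey j))).sub
        ((hint (cx j) (cy i) (cx i) (ex j)).add (hint (cy j) (cy i) (cx i) (ey j)))
    rw [integral_finsetSum _ fun i _ => integrable_finsetSum _ fun j _ => hI i j]
    refine (Finset.abs_sum_le_sum_abs _ _).trans ?_
    have h2 : ∀ i ∈ (Finset.univ : Finset (Fin n)), |∫ x, ∑ j,
        ((cx j x * cx i (u x - v x) * cy i (fderiv ℝ (fun y => u y + v y) x (ex j)) +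
          cy j x * cx i (u x - v x) * cy i (fderiv ℝ (fun y => u y + v y) x (ey j))) -
        (cx j x * cy i (u x - v x) * cx i (fderiv ℝ (fun y => u y + v y) x (ex j)) +
          cy j x * cy i (u x - v x) * cx i (fderiv ℝ (fun y => u y + v y) x (ey j))))| ≤
        n * (4 * T) := by
      intro i _
      rw [integral_finsetSum _ fun j _ => hI i j]
      refine (Finset.abs_sum_le_sum_abs _ _).trans ?_
      have h3 : ∀ j ∈ (Finset.univ : Finset (Fin n)), |∫ x,
        ((cx j x * cx i (u x - v x) * cy i (fderiv ℝ (fun y => u y + v y) x (ex j)) +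
          cy j x * cx i (u x - v x) * cy i (fderiv ℝ (fun y => u y + v y) x (ey j))) -
        (cx j x * cy i (u x - v x) * cx i (fderiv ℝ (fun y => u y + v y) x (ex j)) +
          cy j x * cy i (u x - v x) * cx i (fderiv ℝ (fun y => u y + v y) x (ey j))))| ≤
          4 * T := by
        intro j _
        have t : ∀ (a b c : E n →L[ℝ] ℝ) (_ : ∀ x, |a x| ≤ ‖x‖) (_ : ∀ x, |b x| ≤ ‖x‖)
            (_ : ∀ x, |c x| ≤ ‖x‖) (e : E n) (_ : ‖e‖ ≤ 1),
            |∫ x, a x * b (u x - v x) * c (fderiv ℝ (fun y => u y + v y) x e)| ≤ T :=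
          fun a b c ha hb hc e he => one_term hu hv hK hu0 hv0 hK1 hα hα1 hA hHu hHv hε hε1 hd
            a b c ha hb hc e he
        have t1 := t (cx j) (cx i) (cy i) (norm_cx j) (norm_cx i) (norm_cy i) (ex j) (norm_ex j)
        have t2 := t (cy j) (cx i) (cy i) (norm_cy j) (norm_cx i) (norm_cy i) (ey j) (norm_ey j)
        have t3 := t (cx j) (cy i) (cx i) (norm_cx j) (norm_cy i) (norm_cx i) (ex j) (norm_ex j)
        have t4 := t (cy j) (cy i) (cx i) (norm_cy j) (norm_cy i) (norm_cx i) (ey j) (norm_ey j)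
        have i1 := hint (cx j) (cx i) (cy i) (ex j)
        have i2 := hint (cy j) (cx i) (cy i) (ey j)
        have i3 := hint (cx j) (cy i) (cx i) (ex j)
        have i4 := hint (cy j) (cy i) (cx i) (ey j)
        exact four i1 i2 i3 i4 t1 t2 t3 t4
      refine (Finset.sum_le_sum h3).trans (le_of_eq ?_)
      rw [Finset.sum_const, Finset.card_univ, Fintype.card_fin, nsmul_eq_mul]
    refine (Finset.sum_le_sum h2).trans (le_of_eq ?_)
    rw [Finset.sum_const, Finset.card_univ, Fintype.card_fin, nsmul_eq_mul]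
    ring
  have hεε : ε ≤ ε ^ (2 - 1 / α) := by
    calc ε = ε ^ (1 : ℝ) := (Real.rpow_one ε).symm
      _ ≤ ε ^ (2 - 1 / α) := by
        refine Real.rpow_le_rpow_of_exponent_ge hε hε1 ?_
        have : 1 ≤ 1 / α := by
          rw [le_div_iff₀ (by linarith)]
          linarith
        linarith
  have h2 : |∫ x, omega (v x) (u x - v x)| ≤ 2 * n * ε * V := by
    refine norm_integral_le _ (isCompact_closedBall (0 : E n) 2) (fun x hx => ?_) fun x => ?_
    · have : x ∉ K := fun hm => hx (by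
        rw [mem_closedBall_zero_iff]
        linarith [hK1 x hm])
      rw [hδ0 x this]
      simp [omega]
    · by_cases hx : x ∈ K
      · refine (omega_bound _ _).trans ?_
        have : ‖v x‖ * ‖u x - v x‖ ≤ 1 * ε :=
          mul_le_mul (hvK x hx) (hd x) (norm_nonneg _) zero_le_one
        rw [one_mul] at this
        exact mul_le_mul_of_nonneg_left this (by positivity)
      · rw [hδ0 x hx]
        have : omega (v x) 0 = 0 := by simp [omega]
        rw [this, abs_zero]
        positivity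
  have hV0 : 0 ≤ V := ENNReal.toReal_nonneg
  have h3 : |2 * n * ∫ x, omega (v x) (u x - v x)| ≤ 4 * n ^ 2 * V * ε ^ (2 - 1 / α) := by
    rw [abs_mul, abs_of_nonneg (by positivity : (0 : ℝ) ≤ 2 * n)]
    calc 2 * n * |∫ x, omega (v x) (u x - v x)| ≤ 2 * n * (2 * n * ε * V) := by gcongr
      _ = 4 * n ^ 2 * V * ε := by ring
      _ ≤ 4 * n ^ 2 * V * ε ^ (2 - 1 / α) := by gcongr
  refine (abs_sub _ _).trans ?_
  calc |∫ x, omega (u x - v x) (fderiv ℝ (fun y => u y + v y) x x)| +
        |2 * n * ∫ x, omega (v x) (u x - v x)|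
      ≤ 4 * n ^ 2 * T + 4 * n ^ 2 * V * ε ^ (2 - 1 / α) := add_le_add h1 h3
    _ = Kst n α A * ε ^ (2 - 1 / α) := by rw [hT, Kst]; ring

end Pool.Agent.H822.CalEst
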