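import Mathlib
import Pool.Agent.H822.CalEst
import Pool.Graph.R_seed8.Y907.HB.Mul
import Pool.Graph.R_seed8.Y510.HB.Inv
import Pool.Graph.R_seed8.Y309.HB.UC
import Pool.Graph.R_seed8.R773.HN.Flow
import Pool.Graph.R_seed8.R773.HN.Trans
import Pool.Graph.R_seed8.R773.HN.Main

/-!
# The Calabi homomorphism on the group of Hölder limits of Hamiltonian diffeomorphisms
-/

set_option autoImplicit false

open scoped ContDiff
open Set Filter Topology Function MeasureTheory
open Pool.Agent.H822.Par Pool.Agent.H822.Ham Pool.Agent.H822.Int Pool.Agent.H822.Cal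
open Pool.Agent.H822.Sew Pool.Agent.H822.CalEst Pool.Agent.H822.Td
open Pool.Agent.Y453.HB (E Q XH IsHam HamBar hamBar UConv mul_apply inv_apply_self apply_inv_self)
open Q170.SC (omega)

namespace Pool.Agent.H822.CalGrp

variable {n : ℕ}

/-- `u` is the time one map of the flow of the smooth time dependent Hamiltonian `H`, which
vanishes off a compact subset of the open unit ball -/
def IsGen (u : E n ≃ₜ E n) (H : ℝ → E n → ℝ) : Prop :=
  ContDiff ℝ ∞ (fun q : ℝ × E n => H q.1 q.2) ∧
    (∃ K : Set (E n), IsCompact K ∧ K ⊆ {p : E n | Q p < 1} ∧ ∀ t x, x ∉ K → H t x = 0) ∧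
    ∃ ψ : ℝ → E n → E n, (∀ x, ψ 0 x = x) ∧
      (∀ t x, HasDerivAt (fun s => ψ s x) (XH (H t) (ψ t x)) t) ∧ ∀ x, u x = ψ 1 x

theorem isHam_iff (u : E n ≃ₜ E n) : IsHam u ↔ ∃ H, IsGen u H := Iff.rfl

/-- `c` is the value of the Calabi invariant of `u`: the integral over `[0,1] × B` of some
Hamiltonian which generates `u` -/
def IsCalabi (u : E n ≃ₜ E n) (c : ℝ) : Prop :=
  ∃ H, IsGen u H ∧ c = ∫ t in (0 : ℝ)..1, ∫ x, H t x

theorem gen_cal (hn : 0 < n) {u : E n ≃ₜ E n} {H : ℝ → E n → ℝ} (h : IsGen u H) :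
    cal u = ∫ t in (0 : ℝ)..1, ∫ x, H t x := by
  obtain ⟨h1, ⟨K, h2, -, h3⟩, ψ, h4, h5, h6⟩ := h
  have hT : TFlow H K ψ := ⟨h1, h2, h3, h4, h5⟩
  have hu : (u : E n → E n) = ψ 1 := funext h6
  rw [hu, cal_eq hn hT]
  rfl

theorem isCalabi_iff (hn : 0 < n) {u : E n ≃ₜ E n} (hu : IsHam u) (c : ℝ) :
    IsCalabi u c ↔ c = cal u := by
  constructor
  · rintro ⟨H, h1, h2⟩
    rw [h2, gen_cal hn h1]
  · intro hc
    obtain ⟨H, hH⟩ := hu
    exact ⟨H, hH, by rw [hc, gen_cal hn hH]⟩

theorem IsCalabi.isHam {u : E n ≃ₜ E n} {c : ℝ} (h : IsCalabi u c) : IsHam u := ⟨_, h.choose_spec.1⟩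

theorem ham_data {u : E n ≃ₜ E n} (hu : IsHam u) : ContDiff ℝ ∞ u ∧
    ∃ K : Set (E n), IsCompact K ∧ K ⊆ {p : E n | Q p < 1} ∧ ∀ x, x ∉ K → u x = x := by
  obtain ⟨H, h1, ⟨K, h2, h2', h3⟩, ψ, h4, h5, h6⟩ := hu
  have hT : TFlow H K ψ := ⟨h1, h2, h3, h4, h5⟩
  have ht' : ∀ t, t ∉ Icc (0 : ℝ) 1 → ∀ x, deriv et t * H (et t) x = 0 := by
    intro t ht x
    rw [det_off ht, zero_mul]
  have hu : (u : E n → E n) = fun x => ψ (et 1) x := by
    ext1 x
    rw [h6, et_one le_rfl]
  have e1 : ∀ x, u x = ψ (et 1) x := fun x => congrFun hu x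
  refine ⟨?_, K, h2, h2', fun x hx => ?_⟩
  · rw [hu]
    exact psi_smooth hT.repar ht' 1
  · rw [e1]
    exact flow_off hT.repar ht' 1 hx

/-- additivity -/
theorem cal_mul (hn : 0 < n) {u v : E n ≃ₜ E n} (hu : IsHam u) (hv : IsHam v) :
    cal (u * v : E n ≃ₜ E n) = cal u + cal v := by
  obtain ⟨H, hH, ⟨K, hK, hK1, hK2⟩, ψ, h0, hd, h1⟩ := hu
  obtain ⟨H', hH', ⟨K', hK', hK1', hK2'⟩, ψ', h0', hd', h1'⟩ := hv
  have hG : IsGen u H := ⟨hH, ⟨K, hK, hK1, hK2⟩, ψ, h0, hd, h1⟩
  have hG' : IsGen v H' := ⟨hH', ⟨K', hK', hK1', hK2'⟩, ψ', h0', hd', h1'⟩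
  have hH0 : ContDiff ℝ ∞ (fun q : ℝ × E n => H q.1 q.2) := hH
  have hH0' : ContDiff ℝ ∞ (fun q : ℝ × E n => H' q.1 q.2) := hH'
  open Pool.Agent.Y907.HB in
  have hal := (contDiff_infty_iff_deriv.1 al_smooth)
  open Pool.Agent.Y907.HB in
  have hbe := (contDiff_infty_iff_deriv.1 be_smooth)
  open Pool.Agent.Y907.HB in
  have hgen : IsGen (u * v) (fun t x => deriv al t * H' (al t) x + deriv be t * H (be t) x) := by
    refine ⟨?_, ⟨K ∪ K', hK.union hK', union_subset hK1 hK1', ?_⟩,
      fun t x => ψ (be t) (ψ' (al t) x), ?_, ?_, ?_⟩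
    · have e1 : ContDiff ℝ ∞ (fun p : ℝ × E n => H' (al p.1) p.2) :=
        hH0'.comp ((al_smooth.comp contDiff_fst).prodMk contDiff_snd)
      have e2 : ContDiff ℝ ∞ (fun p : ℝ × E n => H (be p.1) p.2) :=
        hH0.comp ((be_smooth.comp contDiff_fst).prodMk contDiff_snd)
      exact ((hal.2.comp contDiff_fst).mul e1).add ((hbe.2.comp contDiff_fst).mul e2)
    · intro t x hx
      rw [mem_union, not_or] at hx
      show deriv al t * H' (al t) x + deriv be t * H (be t) x = 0
      rw [hK2 _ x hx.1, hK2' _ x hx.2, mul_zero, mul_zero, add_zero]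
    · intro x
      have e1 : al 0 = 0 := Real.smoothTransition.zero_of_nonpos (by norm_num)
      show ψ (be 0) (ψ' (al 0) x) = x
      rw [be_zero (by norm_num), e1, h0', h0]
    · intro t x
      have d1 : ∀ s, DifferentiableAt ℝ (H s) (ψ (be t) (ψ' (al t) x)) := fun s =>
        (slice_smooth hH0 s).differentiable (by simp) _
      have d2 : ∀ s, DifferentiableAt ℝ (H' s) (ψ (be t) (ψ' (al t) x)) := fun s =>
        (slice_smooth hH0' s).differentiable (by simp) _
      rw [XH_lin (deriv al t) (deriv be t) (d2 _) (d1 _)]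
      rcases lt_or_ge t (2 / 3) with ht | ht
      · have hev : ∀ᶠ s in 𝓝 t, be s = 0 := by
          filter_upwards [Iio_mem_nhds ht] with s hs
          exact be_zero (le_of_lt hs)
        have hb0 : be t = 0 := be_zero ht.le
        have hdb : deriv be t = 0 := by
          have : be =ᶠ[𝓝 t] fun _ => 0 := hev
          rw [this.deriv_eq]
          simp
        rw [hdb, zero_smul, add_zero, hb0, h0]
        have h2 := (hd' (al t) x).scomp t (hal.1 t).hasDerivAt
        refine h2.congr_of_eventuallyEq ?_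
        filter_upwards [hev] with s hs
        rw [hs, h0]
        rfl
      · have hev : ∀ᶠ s in 𝓝 t, al s = 1 := by
          filter_upwards [Ioi_mem_nhds (show (1 / 3 : ℝ) < t by linarith)] with s hs
          exact al_one (le_of_lt hs)
        have ha1 : al t = 1 := al_one (by linarith)
        have hda : deriv al t = 0 := by
          have : al =ᶠ[𝓝 t] fun _ => 1 := hev
          rw [this.deriv_eq]
          simp
        rw [hda, zero_smul, zero_add, ha1]
        have h2 := (hd (be t) (ψ' 1 x)).scomp t (hbe.1 t).hasDerivAt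
        refine h2.congr_of_eventuallyEq ?_
        filter_upwards [hev] with s hs
        rw [hs]
        rfl
    · intro x
      have e1 : be 1 = 1 := Real.smoothTransition.one_of_one_le (by norm_num)
      show u (v x) = ψ (be 1) (ψ' (al 1) x)
      rw [e1, al_one (by norm_num), ← h1', ← h1]
  rw [gen_cal hn hgen, gen_cal hn hG, gen_cal hn hG']
  have c1 := mean_cont hH0 hK hK2
  have c2 := mean_cont hH0' hK' hK2'
  open Pool.Agent.Y907.HB in
  have e1 : ∀ t, (∫ x, (deriv al t * H' (al t) x + deriv be t * H (be t) x)) =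
      (mean H' ∘ al) t * deriv al t + (mean H ∘ be) t * deriv be t := by
    intro t
    have i1 : Integrable fun x => deriv al t * H' (al t) x :=
      (integrable_of (slice_smooth hH0' _).continuous hK' (hK2' _)).const_mul _
    have i2 : Integrable fun x => deriv be t * H (be t) x :=
      (integrable_of (slice_smooth hH0 _).continuous hK (hK2 _)).const_mul _
    rw [integral_add i1 i2, integral_const_mul, integral_const_mul]
    simp only [mean, comp_apply]
    ring
  simp_rw [e1]
  open Pool.Agent.Y907.HB in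
  have s0 : ∫ t in (0 : ℝ)..1,
      ((mean H' ∘ al) t * deriv al t + (mean H ∘ be) t * deriv be t) =
      (∫ t in (0 : ℝ)..1, (mean H' ∘ al) t * deriv al t) +
        ∫ t in (0 : ℝ)..1, (mean H ∘ be) t * deriv be t :=
    intervalIntegral.integral_add (f := fun t => (mean H' ∘ al) t * deriv al t)
      (g := fun t => (mean H ∘ be) t * deriv be t)
      (((c2.comp al_smooth.continuous).mul hal.2.continuous).intervalIntegrable 0 1)
      (((c1.comp be_smooth.continuous).mul hbe.2.continuous).intervalIntegrable 0 1)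
  rw [s0]
  open Pool.Agent.Y907.HB in
  have s1 := intervalIntegral.integral_comp_mul_deriv (a := 0) (b := 1) (f := al)
      (f' := deriv al) (g := mean H') (fun x _ => (hal.1 x).hasDerivAt)
      hal.2.continuous.continuousOn c2
  open Pool.Agent.Y907.HB in
  have s2 := intervalIntegral.integral_comp_mul_deriv (a := 0) (b := 1) (f := be)
      (f' := deriv be) (g := mean H) (fun x _ => (hbe.1 x).hasDerivAt)
      hbe.2.continuous.continuousOn c1
  open Pool.Agent.Y907.HB in
  have a0 : al 0 = 0 := Real.smoothTransition.zero_of_nonpos (by norm_num)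
  open Pool.Agent.Y907.HB in
  have b1 : be 1 = 1 := Real.smoothTransition.one_of_one_le (by norm_num)
  open Pool.Agent.Y907.HB in
  rw [s1, s2, a0, al_one (by norm_num), b1, be_zero (by norm_num)]
  simp only [mean]
  ring

end Pool.Agent.H822.CalGrp
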