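import Mathlib
import Pool.Agent.H822.CalGrp

/-!
# The group of Hölder limits of Hamiltonian diffeomorphisms
-/

set_option autoImplicit false

open scoped ContDiff commutatorElement
open Set Filter Topology Function MeasureTheory
open Pool.Agent.H822.Par Pool.Agent.H822.Ham Pool.Agent.H822.Int Pool.Agent.H822.Cal
open Pool.Agent.H822.Sew Pool.Agent.H822.CalEst Pool.Agent.H822.Td Pool.Agent.H822.CalGrp
open Pool.Agent.Y453.HB (E Q XH IsHam HamBar hamBar UConv mul_apply inv_apply_self apply_inv_self)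
open Q170.SC (omega)

namespace Pool.Agent.H822.CalGrp

variable {n : ℕ}

/-- `φ` is the uniform limit of the Hamiltonian diffeomorphisms `u k`, all supported, as `φ`, in
the compact subset `K` of the open unit ball; for each `α < 1` the `α`-Hölder norms of the `u k`
and of their inverses are bounded -/
structure Approx (φ : E n ≃ₜ E n) (K : Set (E n)) (u : ℕ → (E n ≃ₜ E n)) : Prop where
  cpt : IsCompact K
  sub : K ⊆ {p : E n | Q p < 1}
  fix : ∀ x, x ∉ K → φ x = x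
  ufix : ∀ k x, x ∉ K → u k x = x
  ham : ∀ k, IsHam (u k)
  conv : TendstoUniformly (fun (k : ℕ) (x : E n) => u k x) (fun x => φ x) atTop
  hol : ∀ α : ℝ, 0 < α → α < 1 → ∃ A : ℝ, ∀ k,
    Hol α A (u k) ∧ Hol α A ((u k)⁻¹ : E n ≃ₜ E n)

theorem norm_lt_one {x : E n} (h : Q x < 1) : ‖x‖ ≤ 1 :=
  (Pool.Agent.Y453.HB.norm_le x).trans (Real.sqrt_le_one.2 h.le)

theorem maps {K : Set (E n)} {f : E n ≃ₜ E n} (hf : ∀ x, x ∉ K → f x = x) {x : E n}
    (hx : x ∈ K) : f x ∈ K := by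
  by_contra h
  have h1 := hf _ h
  have h2 : f x = x := f.injective h1
  rw [h2] at h
  exact h hx

theorem displ {K : Set (E n)} (hK : K ⊆ {p : E n | Q p < 1}) {f : E n ≃ₜ E n}
    (hf : ∀ x, x ∉ K → f x = x) (x : E n) : ‖f x - x‖ ≤ 2 := by
  by_cases hx : x ∈ K
  · refine (norm_sub_le _ _).trans ?_
    have h1 := norm_lt_one (hK hx)
    have h2 := norm_lt_one (hK (maps hf hx))
    linarith
  · rw [hf x hx, sub_self, norm_zero]
    norm_num

theorem inv_fix {K : Set (E n)} {f : E n ≃ₜ E n}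
    (hf : ∀ x, x ∉ K → f x = x) (x : E n) (hx : x ∉ K) : f⁻¹ x = x := by
  have h1 := inv_apply_self f x
  rwa [hf x hx] at h1

theorem hol_comp {α β A B : ℝ} (hβ : 0 < β) (hβ1 : β < 1) (hαβ : β * β = α) (hA : 0 ≤ A)
    (hB : 0 ≤ B) {f g : E n ≃ₜ E n} {K : Set (E n)} (hK : K ⊆ {p : E n | Q p < 1})
    (hf : ∀ x, x ∉ K → f x = x) (h1 : Hol β A f) (h2 : Hol β B g) :
    Hol α (A * B ^ β + 5 * B) (fun x => f (g x)) := by
  intro x y hxy
  have h3 := h2 x y hxy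
  have hpos : 0 ≤ ‖x - y‖ ^ β := by positivity
  have hle : ‖x - y‖ ^ β ≤ ‖x - y‖ ^ α := by
    refine Real.rpow_le_rpow_of_exponent_ge' (norm_nonneg _) hxy ?_ ?_
    · rw [← hαβ]; positivity
    · rw [← hαβ]; nlinarith
  rcases le_or_gt ‖g x - g y‖ 1 with h | h
  · have h4 := h1 (g x) (g y) h
    calc ‖f (g x) - f (g y)‖ ≤ A * ‖g x - g y‖ ^ β := h4
      _ ≤ A * (B * ‖x - y‖ ^ β) ^ β := by gcongr
      _ = A * B ^ β * ‖x - y‖ ^ α := by
        rw [Real.mul_rpow hB hpos, ← Real.rpow_mul (norm_nonneg _), hαβ]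
        ring
      _ ≤ (A * B ^ β + 5 * B) * ‖x - y‖ ^ α := by
        have : 0 ≤ ‖x - y‖ ^ α := by positivity
        have h5 : A * B ^ β ≤ A * B ^ β + 5 * B := by linarith
        exact mul_le_mul_of_nonneg_right h5 this
  · have h4 : ‖f (g x) - f (g y)‖ ≤ ‖g x - g y‖ + 4 := by
      have e1 : f (g x) - f (g y) = (f (g x) - g x) + (g x - g y) - (f (g y) - g y) := by abel
      rw [e1]
      have e2 := norm_sub_le ((f (g x) - g x) + (g x - g y)) (f (g y) - g y)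
      have e3 := norm_add_le (f (g x) - g x) (g x - g y)
      have e4 := displ hK hf (g x)
      have e5 := displ hK hf (g y)
      linarith
    calc ‖f (g x) - f (g y)‖ ≤ 5 * ‖g x - g y‖ := by linarith
      _ ≤ 5 * (B * ‖x - y‖ ^ β) := by gcongr
      _ = 5 * B * ‖x - y‖ ^ β := by ring
      _ ≤ 5 * B * ‖x - y‖ ^ α := by gcongr
      _ ≤ (A * B ^ β + 5 * B) * ‖x - y‖ ^ α := by
        have : 0 ≤ ‖x - y‖ ^ α := by positivity
        have h5 : 5 * B ≤ A * B ^ β + 5 * B := by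
          have : 0 ≤ A * B ^ β := by positivity
          linarith
        exact mul_le_mul_of_nonneg_right h5 this

theorem hol_mono {α A B : ℝ} (h : A ≤ B) {f : E n → E n} (hf : Hol α A f) : Hol α B f :=
  fun x y hxy => (hf x y hxy).trans (mul_le_mul_of_nonneg_right h (by positivity))

theorem uconv_of {φ : E n ≃ₜ E n} {K : Set (E n)} {u : ℕ → (E n ≃ₜ E n)} (h : Approx φ K u) :
    UConv u φ :=
  ⟨h.conv, Pool.Agent.Y309.HB.uc_cpt φ K h.cpt h.fix,
    Pool.Agent.Y309.HB.uc_cpt φ⁻¹ K h.cpt (inv_fix h.fix)⟩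

theorem Approx.mul {φ ψ : E n ≃ₜ E n} {K L : Set (E n)} {u v : ℕ → (E n ≃ₜ E n)}
    (h : Approx φ K u) (h' : Approx ψ L v) :
    Approx (φ * ψ) (K ∪ L) (fun k => u k * v k) where
  cpt := h.cpt.union h'.cpt
  sub := union_subset h.sub h'.sub
  fix x hx := by
    rw [mem_union, not_or] at hx
    rw [mul_apply, h'.fix x hx.2, h.fix x hx.1]
  ufix k x hx := by
    rw [mem_union, not_or] at hx
    rw [mul_apply, h'.ufix k x hx.2, h.ufix k x hx.1]
  ham k := Pool.Agent.Y907.HB.mul n _ _ (h.ham k) (h'.ham k)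
  conv := (Pool.Agent.Y309.HB.uc_mul (uconv_of h) (uconv_of h')).1
  hol α h0 h1 := by
    have hβ : 0 < √α := Real.sqrt_pos.2 h0
    have hβ1 : √α < 1 := by
      rw [Real.sqrt_lt' one_pos]
      simpa using h1
    have hαβ : √α * √α = α := Real.mul_self_sqrt h0.le
    obtain ⟨A, hA⟩ := h.hol _ hβ hβ1
    obtain ⟨B, hB⟩ := h'.hol _ hβ hβ1
    have hA' : ∀ k, Hol √α |A| (u k) ∧ Hol √α |A| ((u k)⁻¹ : E n ≃ₜ E n) := fun k =>
      ⟨hol_mono (le_abs_self A) (hA k).1, hol_mono (le_abs_self A) (hA k).2⟩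
    have hB' : ∀ k, Hol √α |B| (v k) ∧ Hol √α |B| ((v k)⁻¹ : E n ≃ₜ E n) := fun k =>
      ⟨hol_mono (le_abs_self B) (hB k).1, hol_mono (le_abs_self B) (hB k).2⟩
    refine ⟨max (|A| * |B| ^ √α + 5 * |B|) (|B| * |A| ^ √α + 5 * |A|), fun k => ⟨?_, ?_⟩⟩
    · exact hol_mono (le_max_left _ _) (hol_comp hβ hβ1 hαβ (abs_nonneg _) (abs_nonneg _) h.sub
        (h.ufix k) (hA' k).1 (hB' k).1)
    · have e : ((u k * v k)⁻¹ : E n ≃ₜ E n) = (v k)⁻¹ * (u k)⁻¹ := mul_inv_rev _ _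
      rw [e]
      have h2 : Hol α (|B| * |A| ^ √α + 5 * |A|)
          (fun x => ((v k)⁻¹ : E n ≃ₜ E n) (((u k)⁻¹ : E n ≃ₜ E n) x)) :=
        hol_comp hβ hβ1 hαβ (abs_nonneg _) (abs_nonneg _) h'.sub
          (inv_fix (h'.ufix k)) (hB' k).2 (hA' k).2
      exact hol_mono (le_max_right _ _) h2

theorem Approx.inv {φ : E n ≃ₜ E n} {K : Set (E n)} {u : ℕ → (E n ≃ₜ E n)}
    (h : Approx φ K u) : Approx φ⁻¹ K (fun k => (u k)⁻¹) where
  cpt := h.cpt
  sub := h.sub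
  fix := inv_fix h.fix
  ufix k := inv_fix (h.ufix k)
  ham k := (Pool.Agent.Y510.HB.inv n).2 _ (h.ham k)
  conv := (Pool.Agent.Y309.HB.uc_inv (uconv_of h)).1
  hol α h0 h1 := by
    obtain ⟨A, hA⟩ := h.hol α h0 h1
    exact ⟨A, fun k => ⟨(hA k).2, by rw [inv_inv]; exact (hA k).1⟩⟩

theorem hol_of_lip {f : E n → E n} {C : NNReal} (hf : LipschitzWith C f) {α : ℝ} (h0 : 0 < α)
    (h1 : α < 1) : Hol α C f := by
  intro x y hxy
  have h2 := hf.dist_le_mul x y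
  rw [dist_eq_norm, dist_eq_norm] at h2
  refine h2.trans (mul_le_mul_of_nonneg_left ?_ C.2)
  rcases eq_or_lt_of_le (norm_nonneg (x - y)) with h | h
  · rw [← h, Real.zero_rpow h0.ne']
  · calc ‖x - y‖ = ‖x - y‖ ^ (1 : ℝ) := (Real.rpow_one _).symm
      _ ≤ ‖x - y‖ ^ α := Real.rpow_le_rpow_of_exponent_ge h hxy h1.le

/-- a Hamiltonian diffeomorphism is approximated by the constant sequence -/
theorem approx_ham {u : E n ≃ₜ E n} (hu : IsHam u) : ∃ K, Approx u K (fun _ => u) := by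
  obtain ⟨hs, K, hK, hK1, hK2⟩ := ham_data hu
  have hi : IsHam u⁻¹ := (Pool.Agent.Y510.HB.inv n).2 _ hu
  obtain ⟨hs', K', hK', -, hK2'⟩ := ham_data hi
  obtain ⟨C, hC⟩ := lip_of hs hK hK2
  obtain ⟨C', hC'⟩ := lip_of hs' hK' hK2'
  refine ⟨K, hK, hK1, hK2, fun _ => hK2, fun _ => hu, ?_, fun α h0 h1 => ?_⟩
  · rw [Metric.tendstoUniformly_iff]
    intro ε hε
    exact Eventually.of_forall fun k x => by rwa [dist_self]
  · exact ⟨max C C', fun k => ⟨hol_mono (le_max_left _ _) (hol_of_lip hC h0 h1),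
      hol_mono (le_max_right _ _) (hol_of_lip hC' h0 h1)⟩⟩

/-- The group of the homeomorphisms of the unit ball which are uniform limits of Hamiltonian
diffeomorphisms with support in a common compact subset, with bounded `α`-Hölder norms, together
with their inverses, for all `α < 1`. -/
def HolHam (n : ℕ) : Subgroup (E n ≃ₜ E n) where
  carrier := {φ | ∃ K u, Approx φ K u}
  mul_mem' := by
    rintro φ ψ ⟨K, u, h⟩ ⟨L, v, h'⟩
    exact ⟨_, _, h.mul h'⟩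
  one_mem' := by
    obtain ⟨K, h⟩ := approx_ham (Pool.Agent.Y510.HB.inv n).1
    exact ⟨K, _, h⟩
  inv_mem' := by
    rintro φ ⟨K, u, h⟩
    exact ⟨_, _, h.inv⟩

theorem mem_holHam (φ : E n ≃ₜ E n) : φ ∈ HolHam n ↔ ∃ K u, Approx φ K u := Iff.rfl

theorem ham_mem {u : E n ≃ₜ E n} (hu : IsHam u) : u ∈ HolHam n := by
  obtain ⟨K, h⟩ := approx_ham hu
  exact ⟨K, _, h⟩

theorem hol_le : HolHam n ≤ HamBar n := by
  rintro φ ⟨K, u, h⟩
  exact Subgroup.subset_closure ⟨K, h.cpt, h.sub, h.fix, u, h.ufix, h.ham, h.conv⟩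

/-! ### The Calabi invariant -/

/-- the estimate for Hamiltonian diffeomorphisms -/
theorem cal_est (hn : 0 < n) {α A ε : ℝ} (hα : 1 / 2 < α) (hα1 : α ≤ 1) (hA : 0 ≤ A)
    {u v : E n ≃ₜ E n} (hu : IsHam u) (hv : IsHam v) (hHu : Hol α A u) (hHv : Hol α A v)
    (hε : 0 < ε) (hε1 : ε ≤ 1) (hd : ∀ x, ‖u x - v x‖ ≤ ε) :
    |cal u - cal v| ≤ Kst n α A * ε ^ (2 - 1 / α) := by
  obtain ⟨hs, K, hK, hK1, hK2⟩ := ham_data hu
  obtain ⟨hs', K', hK', hK1', hK2'⟩ := ham_data hv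
  have h1 := cI_est (K := K ∪ K') hs hs' (hK.union hK')
    (fun x hx => hK2 x fun h => hx (Or.inl h)) (fun x hx => hK2' x fun h => hx (Or.inr h))
    (fun x hx => norm_lt_one ((union_subset hK1 hK1') hx))
    (fun x hx => by
      have h2 : ∀ x, x ∉ K ∪ K' → v x = x := fun x hx => hK2' x fun h => hx (Or.inr h)
      exact norm_lt_one ((union_subset hK1 hK1') (maps h2 hx)))
    hα hα1 hA hHu hHv hε hε1 hd
  have h2 : cal u - cal v = - (cI u - cI v) / (4 * n * (n + 1)) := by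
    rw [cal, cal]
    ring
  rw [h2, abs_div, abs_neg]
  have hn1 : (1 : ℝ) ≤ n := by exact_mod_cast hn
  have h3 : (1 : ℝ) ≤ 4 * n * (n + 1) := by nlinarith
  rw [abs_of_pos (by linarith : (0 : ℝ) < 4 * n * (n + 1))]
  refine (div_le_self (abs_nonneg _) h3).trans h1

theorem small_of {C γ : ℝ} (hγ : 0 < γ) {η : ℝ} (hη : 0 < η) :
    ∃ δ : ℝ, 0 < δ ∧ δ ≤ 1 ∧ C * δ ^ γ ≤ η := by
  have h1 : Tendsto (fun δ : ℝ => C * δ ^ γ) (𝓝[>] 0) (𝓝 (C * 0 ^ γ)) := by
    refine Tendsto.const_mul C ?_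
    exact ((Real.continuousAt_rpow_const 0 γ (Or.inr hγ.le)).tendsto).mono_left nhdsWithin_le_nhds
  rw [Real.zero_rpow hγ.ne', mul_zero] at h1
  have h2 : ∀ᶠ δ : ℝ in 𝓝[>] 0, C * δ ^ γ < η := h1.eventually (gt_mem_nhds hη)
  have h3 : ∀ᶠ δ : ℝ in 𝓝[>] 0, δ ∈ Ioo (0 : ℝ) 1 := Ioo_mem_nhdsGT one_pos
  obtain ⟨δ, h4, h5⟩ := (h2.and h3).exists
  exact ⟨δ, h5.1, h5.2.le, h4.le⟩

/-- the Calabi invariants of two sequences with the same limit, bounded in `C^α`, have the same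
limit -/
theorem cal_close (hn : 0 < n) {α A : ℝ} (hα : 1 / 2 < α) (hα1 : α ≤ 1) {φ : E n ≃ₜ E n}
    {u v : ℕ → (E n ≃ₜ E n)} (hu : ∀ k, IsHam (u k)) (hv : ∀ k, IsHam (v k))
    (hHu : ∀ k, Hol α A (u k)) (hHv : ∀ k, Hol α A (v k))
    (cu : TendstoUniformly (fun (k : ℕ) (x : E n) => u k x) (fun x => φ x) atTop)
    (cv : TendstoUniformly (fun (k : ℕ) (x : E n) => v k x) (fun x => φ x) atTop)
    {η : ℝ} (hη : 0 < η) : ∃ N, ∀ k ≥ N, ∀ l ≥ N, |cal (u k) - cal (v l)| ≤ η := by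
  have hγ : 0 < 2 - 1 / α := by
    have : 1 / α < 2 := by
      rw [div_lt_iff₀ (by linarith)]
      linarith
    linarith
  obtain ⟨δ, hδ, hδ1, hδη⟩ := small_of (C := Kst n α |A|) hγ hη
  rw [Metric.tendstoUniformly_iff] at cu cv
  obtain ⟨N, hN⟩ := eventually_atTop.1 ((cu (δ / 2) (by linarith)).and (cv (δ / 2) (by linarith)))
  refine ⟨N, fun k hk l hl => ?_⟩
  refine (cal_est hn hα hα1 (abs_nonneg A) (hu k) (hv l) (hol_mono (le_abs_self _) (hHu k))
    (hol_mono (le_abs_self _) (hHv l)) hδ hδ1 fun x => ?_).trans hδη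
  have h1 := (hN k hk).1 x
  have h2 := (hN l hl).2 x
  rw [← dist_eq_norm]
  have h3 := dist_triangle (u k x) (φ x) (v l x)
  have h4 := dist_comm (u k x) (φ x)
  linarith

/-- `c` is the limit of the Calabi invariants of an approximating sequence of `φ` -/
def HasCal (φ : E n ≃ₜ E n) (c : ℝ) : Prop :=
  ∃ K u, Approx φ K u ∧ Tendsto (fun k => cal (u k)) atTop (𝓝 c)

theorem Approx.exists_cal (hn : 0 < n) {φ : E n ≃ₜ E n} {K : Set (E n)}
    {u : ℕ → (E n ≃ₜ E n)} (h : Approx φ K u) :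
    ∃ c, Tendsto (fun k => cal (u k)) atTop (𝓝 c) := by
  obtain ⟨A, hA⟩ := h.hol (3 / 4) (by norm_num) (by norm_num)
  refine cauchySeq_tendsto_of_complete (Metric.cauchySeq_iff.2 fun η hη => ?_)
  obtain ⟨N, hN⟩ := cal_close hn (α := 3 / 4) (by norm_num) (by norm_num) h.ham h.ham
    (fun k => (hA k).1) (fun k => (hA k).1) h.conv h.conv (half_pos hη)
  refine ⟨N, fun k hk l hl => ?_⟩
  rw [Real.dist_eq]
  linarith [hN k hk l hl]

/-- limits of Calabi invariants along sequences bounded in some `C^α`, `α > 1/2`, are the same -/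
theorem lim_unique (hn : 0 < n) {φ : E n ≃ₜ E n} {K : Set (E n)} {u : ℕ → (E n ≃ₜ E n)}
    (h : Approx φ K u) {c : ℝ} (hc : Tendsto (fun k => cal (u k)) atTop (𝓝 c))
    {α A : ℝ} (hα : 1 / 2 < α) (hα1 : α < 1)
    {v : ℕ → (E n ≃ₜ E n)} (hv : ∀ k, IsHam (v k)) (hHv : ∀ k, Hol α A (v k))
    (cv : TendstoUniformly (fun (k : ℕ) (x : E n) => v k x) (fun x => φ x) atTop) :
    Tendsto (fun k => cal (v k)) atTop (𝓝 c) := by
  obtain ⟨B, hB⟩ := h.hol α (by linarith) hα1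
  rw [Metric.tendsto_atTop] at hc ⊢
  intro η hη
  obtain ⟨N, hN⟩ := hc (η / 2) (half_pos hη)
  obtain ⟨M, hM⟩ := cal_close hn (A := max A B) hα hα1.le h.ham hv
    (fun k => hol_mono (le_max_right _ _) (hB k).1) (fun k => hol_mono (le_max_left _ _) (hHv k))
    h.conv cv (show 0 < η / 4 by linarith)
  refine ⟨max N M, fun l hl => ?_⟩
  have h1 := hN (max N M) (le_max_left _ _)
  have h2 := hM (max N M) (le_max_right _ _) l ((le_max_right _ _).trans hl)
  have h3 := dist_triangle (cal (v l)) (cal (u (max N M))) c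
  have h4 : dist (cal (v l)) (cal (u (max N M))) ≤ η / 4 := by
    rw [dist_comm, Real.dist_eq]
    exact h2
  linarith

theorem HasCal.unique (hn : 0 < n) {φ : E n ≃ₜ E n} {c d : ℝ} (h : HasCal φ c)
    (h' : HasCal φ d) : c = d := by
  obtain ⟨K, u, h1, h2⟩ := h
  obtain ⟨L, v, h3, h4⟩ := h'
  obtain ⟨A, hA⟩ := h3.hol (3 / 4) (by norm_num) (by norm_num)
  have h5 := lim_unique hn h1 h2 (α := 3 / 4) (by norm_num) (by norm_num) h3.ham
    (fun k => (hA k).1) h3.conv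
  exact tendsto_nhds_unique h5 h4

theorem HasCal.mul (hn : 0 < n) {φ ψ : E n ≃ₜ E n} {c d : ℝ} (h : HasCal φ c)
    (h' : HasCal ψ d) : HasCal (φ * ψ) (c + d) := by
  obtain ⟨K, u, h1, h2⟩ := h
  obtain ⟨L, v, h3, h4⟩ := h'
  refine ⟨_, _, h1.mul h3, ?_⟩
  refine (h2.add h4).congr fun k => ?_
  exact (cal_mul hn (h1.ham k) (h3.ham k)).symm

theorem hasCal_ham {u : E n ≃ₜ E n} (hu : IsHam u) : HasCal u (cal u) := by
  obtain ⟨K, h⟩ := approx_ham hu
  exact ⟨K, _, h, tendsto_const_nhds⟩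

theorem exists_hasCal (hn : 0 < n) (φ : HolHam n) : ∃ c, HasCal φ.1 c := by
  obtain ⟨K, u, h⟩ := φ.2
  obtain ⟨c, hc⟩ := h.exists_cal hn
  exact ⟨c, K, u, h, hc⟩

/-- the Calabi homomorphism on the group of Hölder limits -/
noncomputable def calHom (hn : 0 < n) : HolHam n →* Multiplicative ℝ :=
  MonoidHom.mk' (fun φ => Multiplicative.ofAdd (exists_hasCal hn φ).choose) (by
    intro φ ψ
    rw [← ofAdd_add]
    congr 1
    exact HasCal.unique hn (exists_hasCal hn (φ * ψ)).choose_spec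
      (HasCal.mul hn (exists_hasCal hn φ).choose_spec (exists_hasCal hn ψ).choose_spec))

theorem calHom_eq (hn : 0 < n) (φ : HolHam n) {c : ℝ} (h : HasCal φ.1 c) :
    calHom hn φ = Multiplicative.ofAdd c := by
  have h1 : calHom hn φ = Multiplicative.ofAdd (exists_hasCal hn φ).choose := rfl
  rw [h1, HasCal.unique hn (exists_hasCal hn φ).choose_spec h]

end Pool.Agent.H822.CalGrp
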